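import Pool.Agent.ANS.Form.Link

/-! # ANS FORM COEF: sizes and means of the coefficients at a configuration

`h : P.Ok X N c be e C Lm`, `0 ≤ a`, `2 C a ≤ 1` (so `a ≤ 1/2`), `P.Ent X a s` (hence `P.Ent X 1 s`).
If `w ∉ N` everything is `0` (`h.off`).  For `w ∈ N ⊆ X` (all by `nlinarith`/`positivity`,
`C ≥ 1`, `100 C² be ≤ 1`; `‖u‖ ≤ 3 be` (`h.u_le`), `|δ| ≤ 2 C be²`, `|ct| ≤ 4 C² be²`,
`|ct S| ≤ 1/100`, `‖G_ww‖ ≤ 2 C` (`h.diaC`), `S = ‖G_ww‖² ≤ 4 C²`):
* `th_le`: `|θ| ≤ 9 be² + (4 C² be²)/(99/100) ≤ 14 C² be²`.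
* `c3_le`: `c3 = ct ι (2 Re(u G) - θ S)`, `ct ι = -δ` (`ι ≠ 0`), `|2 Re(u G)| ≤ 12 C be`,
  `|θ S| ≤ 56 C⁴ be² ≤ (56/100) C² be`; so `|c3| ≤ 2 C be² (13 C² be) = 26 C³ be³`.
* `al_le`: `m = η⁰ ι⁰`; `η, η' ≥ η⁰/8` (`h.etaLo`) so `0 < 1/η, 1/η' ≤ 8/η⁰` and
  `|1/η' - 1/η| ≤ 8/η⁰`; `ι ≥ ι⁰ - a ≥ ι⁰/2` (`a ≤ 1/(2C) ≤ ι⁰/2` by `h.io1`); `|α| ≤ 16/m`.
* `ep_le`: `Δaw = (1/η' - 1/η)/ι⁰`, `α - Δaw = (1/η'-1/η)(ι⁰-ι)/(ι ι⁰)`,
  `|..| ≤ (8/η⁰) a/(ι ι⁰) = 8 a/(ι m) ≤ 16 C a/m`.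
* `Dlb`: `h.Dl_est`, `c ≤ be²` (`h.c_le`), `‖G_ww - gt‖ ≤ a` (`h.gd_le`).
* `thb`: `∑ P θ_d - θ_none = M2 - (∑ P k_d - k_none)`, `k = ct/(1 - ct S) = ct + ct² S/(1 - ct S)`,
  `∑ P ct_d - ct_none = c Im gt/ι` because `η(s^{w→b})_w = η⁰_w - Im inc b`,
  `Im inc (some d) = ζ_d Im gt`, `∑ P ζ = c`; `Im gt = ι⁰`, `|c ι⁰/ι - c| ≤ be² a/ι ≤ 2 C a be²`;
  `|M2 - c| ≤ 250 C² be³` (`h.M2_est`); `|ct² S/(1 - ct S)| ≤ 16 C⁴ be⁴ 4 C²/(99/100)
  ≤ 65 C⁶ be⁴ ≤ (65/100) C⁴ be³`, twice. -/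

set_option autoImplicit false
set_option linter.unusedSectionVars false

open Finset Function Matrix

noncomputable section

namespace Pool.Agent.ANS

open Pool.Agent.ANS.Form

variable {T D : Type} [Fintype T] [DecidableEq T] [Fintype D] {P : Stp T D} {X N : Finset T}
  {c be e : T → ℝ} {C Lm : ℝ}

namespace Stp

omit [Fintype D] in
theorem dlt_eq (P : Stp T D) (s : T → Option D) (w : T) (b : Option D) :
    P.dlt s w b = (P.inc w (s w)).im - (P.inc w b).im := by
  have h2 : P.eta s w = -(P.b w).im - (P.inc w (s w)).im := by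
    simp [eta, bs]
    ring
  have h3 : P.eta (update s w b) w = -(P.b w).im - (P.inc w b).im := by
    simp [eta, bs]
    ring
  unfold dlt
  rw [h3, h2]
  ring

omit [Fintype D] in
theorem inc_some_im (P : Stp T D) (w : T) (d : D) :
    (P.inc w (some d)).im = P.g.zt w d * (P.gt w).im := by
  simp [inc]

omit [Fintype D] in
theorem gt_nil (P : Stp T D) (w : T) : P.G nil w w = P.gt w := by
  have h3 : P.bs nil = P.b := by
    funext x
    simp [bs, nil, inc]
  unfold G gt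
  rw [h3]

namespace Ok

theorem dlt_mean (h : P.Ok X N c be e C Lm) (s : T → Option D) (w : T) :
    ∑ d, P.g.P w d * P.dlt s w (some d) - P.dlt s w none = -(c w * (P.gt w).im) := by
  simp only [dlt_eq, inc_some_im]
  have h1 : ∀ d, P.g.P w d * ((P.inc w (s w)).im - P.g.zt w d * (P.gt w).im) =
      P.g.P w d * (P.inc w (s w)).im - (P.g.P w d * P.g.zt w d) * (P.gt w).im := fun d => by ring
  simp only [h1, Finset.sum_sub_distrib, ← Finset.sum_mul]
  rw [h.dig.P1, h.dig.zt1]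
  simp [inc]

variable (h : P.Ok X N c be e C Lm) {a : ℝ} (ha0 : 0 ≤ a) (ha : 2 * C * a ≤ 1)
  {s : T → Option D} (hE : P.Ent X a s)
include h ha0 ha hE

omit hE in
theorem a_le1 : a ≤ 1 := by
  have h1 := h.C1
  nlinarith

theorem ent1 : P.Ent X 1 s := fun x hx y hy => (hE x hx y hy).trans (h.a_le1 ha0 ha)

theorem io_pos {x : T} (hx : x ∈ X) : 0 < P.io s x := by
  have h1 := h.io1' ha hE hx
  have h2 := h.C1
  by_contra h0
  have h3 : P.io s x ≤ 0 := not_lt.mp h0
  nlinarith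

theorem frac_le (w : T) (b : Option D) :
    |P.ct s w b / (1 - P.ct s w b * ‖P.G s w w‖ ^ 2)| ≤ 100 / 99 * (4 * C ^ 2 * be w ^ 2) := by
  have h1 := h.ct_le ha hE w b
  have h2 := h.ctS_le (h.a_le1 ha0 ha) ha hE w b
  have h3 := abs_le.mp h2
  have h4 : 99 / 100 ≤ 1 - P.ct s w b * ‖P.G s w w‖ ^ 2 := by linarith
  have h5 : 0 < 1 - P.ct s w b * ‖P.G s w w‖ ^ 2 := by linarith
  rw [abs_div, abs_of_pos h5, div_le_iff₀ h5]
  have h6 : 0 ≤ C ^ 2 * be w ^ 2 := by positivity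
  nlinarith

theorem th_le (w : T) (b : Option D) : |P.th s w b| ≤ 14 * C ^ 2 * be w ^ 2 := by
  have h1 := h.frac_le ha0 ha hE w b
  have h2 := h.u_le (h.ent1 ha0 ha hE) w b
  have h3 : ‖P.u s w b‖ ^ 2 ≤ 9 * be w ^ 2 := by
    have := pow_le_pow_left₀ (norm_nonneg _) h2 2
    linarith [mul_pow (3:ℝ) (be w) 2]
  have h4 : be w ^ 2 ≤ C ^ 2 * be w ^ 2 := by
    have h7 := h.C1
    have h8 : 1 ≤ C ^ 2 := by nlinarith
    nlinarith [sq_nonneg (be w)]
  have h5 := abs_le.mp h1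
  have h6 := sq_nonneg (‖P.u s w b‖)
  unfold th
  rw [abs_le]
  constructor <;> nlinarith

theorem c3_le (w : T) (b : Option D) : |P.c3 s w b| ≤ 26 * C ^ 3 * be w ^ 3 := by
  by_cases hN : w ∈ N
  · have hX := h.NX hN
    have hC1 := h.C1
    have hC0 := h.C0
    have hb0 := h.be0 w
    have hio := h.io_pos ha0 ha hE hX
    have h1 : P.ct s w b * P.io s w = -P.dlt s w b := by
      unfold ct
      field_simp
    have h2 := h.dlt_le s w b
    have h3 := h.u_le (h.ent1 ha0 ha hE) w b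
    have h4 := h.diaC (h.ent1 ha0 ha hE) hX
    have h5 := h.th_le ha0 ha hE w b
    have h6 := h.bes w
    have h7 : |(P.u s w b * P.G s w w).re| ≤ 6 * C * be w := by
      refine (Complex.abs_re_le_norm _).trans ?_
      rw [norm_mul]
      calc ‖P.u s w b‖ * ‖P.G s w w‖ ≤ (3 * be w) * (2 * C) :=
            mul_le_mul h3 h4 (norm_nonneg _) (by positivity)
        _ = 6 * C * be w := by ring
    have h8 : ‖P.G s w w‖ ^ 2 ≤ 4 * C ^ 2 := by
      have := pow_le_pow_left₀ (norm_nonneg _) h4 2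
      linarith [mul_pow (2:ℝ) C 2]
    have h9 : |P.th s w b * ‖P.G s w w‖ ^ 2| ≤ C ^ 2 * be w := by
      rw [abs_mul, abs_of_nonneg (sq_nonneg ‖P.G s w w‖)]
      calc |P.th s w b| * ‖P.G s w w‖ ^ 2 ≤ (14 * C ^ 2 * be w ^ 2) * (4 * C ^ 2) :=
            mul_le_mul h5 h8 (sq_nonneg _) (by positivity)
        _ = 56 * (C ^ 2 * be w) * (C ^ 2 * be w) := by ring
        _ ≤ C ^ 2 * be w := by
            have h10 : 0 ≤ C ^ 2 * be w := by positivity
            have h11 : 100 * (C ^ 2 * be w) ≤ 1 := by linarith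
            nlinarith
    have h12 : P.c3 s w b = -P.dlt s w b * (2 * (P.u s w b * P.G s w w).re -
        P.th s w b * ‖P.G s w w‖ ^ 2) := by
      unfold c3
      rw [h1]
    have h13 : |2 * (P.u s w b * P.G s w w).re - P.th s w b * ‖P.G s w w‖ ^ 2| ≤
        13 * C ^ 2 * be w := by
      have h14 : C * be w ≤ C ^ 2 * be w := by
        have : C ≤ C ^ 2 := by nlinarith
        exact mul_le_mul_of_nonneg_right this hb0
      have h15 := abs_le.mp h7
      have h16 := abs_le.mp h9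
      rw [abs_le]
      constructor <;> linarith [h15.1, h15.2, h16.1, h16.2]
    rw [h12, abs_mul, abs_neg]
    calc |P.dlt s w b| * |2 * (P.u s w b * P.G s w w).re - P.th s w b * ‖P.G s w w‖ ^ 2| ≤
          (2 * C * be w ^ 2) * (13 * C ^ 2 * be w) :=
          mul_le_mul h2 h13 (abs_nonneg _) (by positivity)
      _ = 26 * C ^ 3 * be w ^ 3 := by ring
  · have h0 := h.off hN s b
    rw [h0.2.2.2.2.2.1, h.beN w hN]
    simp

theorem io_nil {w : T} (hw : w ∈ X) : 0 < P.io nil w := by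
  have h1 := h.io1 w hw
  have h2 := h.C1
  by_contra h0
  have h3 : P.io nil w ≤ 0 := not_lt.mp h0
  nlinarith

/-- `|1/η' - 1/η| ≤ 8/η⁰` -/
theorem inv_eta {w : T} (hw : w ∈ X) (b : Option D) :
    |1 / P.eta (update s w b) w - 1 / P.eta s w| ≤ 8 / P.eta nil w := by
  have h0 := h.etaX w hw
  have h1 := h.etaLo s w
  have h2 := h.etaLo (update s w b) w
  have h3 : 0 < 1 / P.eta s w := one_div_pos.mpr (by linarith)
  have h4 : 0 < 1 / P.eta (update s w b) w := one_div_pos.mpr (by linarith)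
  have h5 : 1 / P.eta s w ≤ 8 / P.eta nil w := by
    rw [div_le_div_iff₀ (by linarith) h0]
    linarith
  have h6 : 1 / P.eta (update s w b) w ≤ 8 / P.eta nil w := by
    rw [div_le_div_iff₀ (by linarith) h0]
    linarith
  rw [abs_le]
  constructor <;> linarith

/-- `|ι - ι⁰| ≤ a` -/
theorem io_near {w : T} (hw : w ∈ X) : |P.io s w - P.io nil w| ≤ a := by
  have h1 := hE w hw w hw
  have h2 : P.io s w - P.io nil w = (P.G s w w - P.G nil w w).im := by
    simp [io]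
  rw [h2]
  exact (Complex.abs_im_le_norm _).trans h1

theorem io_half {w : T} (hw : w ∈ X) : P.io nil w ≤ 2 * P.io s w := by
  have h1 := h.io_near ha0 ha hE hw
  have h2 := h.io1 w hw
  have h3 := h.C1
  have h4 := (abs_le.mp h1).1
  have h5 : 2 * a ≤ P.io nil w := by
    have h6 : 0 < C := by linarith
    by_contra h7
    have h8 : P.io nil w < 2 * a := not_le.mp h7
    nlinarith
  linarith

theorem al_le {w : T} (hw : w ∈ X) (b : Option D) :
    |P.al s w b| ≤ 16 / (P.eta nil w * P.io nil w) := by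
  have h0 := h.etaX w hw
  have h1 := h.inv_eta ha0 ha hE hw b
  have h2 := h.io_half ha0 ha hE hw
  have h3 := h.io_pos ha0 ha hE hw
  have h4 := h.io_nil ha0 ha hE hw
  unfold al
  rw [abs_div, abs_of_pos h3, div_le_iff₀ h3]
  refine h1.trans ?_
  rw [div_mul_eq_mul_div, div_le_div_iff₀ h0 (by positivity)]
  nlinarith [mul_pos h0 h0]

theorem ep_le {w : T} (hw : w ∈ X) (b : Option D) :
    |P.al s w b - (P.aw (update s w b) w - P.aw s w)| ≤
      16 * C * a / (P.eta nil w * P.io nil w) := by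
  have h0 := h.etaX w hw
  have h1 := h.inv_eta ha0 ha hE hw b
  have h2 := h.io_near ha0 ha hE hw
  have h3 := h.io_pos ha0 ha hE hw
  have h4 := h.io_nil ha0 ha hE hw
  have h5 := h.io1' ha hE hw
  have h6 : 0 < P.eta s w := h.etaX' s hw
  have h7 : 0 < P.eta (update s w b) w := h.etaX' _ hw
  have h8 : P.al s w b - (P.aw (update s w b) w - P.aw s w) =
      (1 / P.eta (update s w b) w - 1 / P.eta s w) * ((P.io nil w - P.io s w) /
        (P.io s w * P.io nil w)) := by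
    unfold al aw
    field_simp
    ring
  rw [h8, abs_mul]
  have h9 : |(P.io nil w - P.io s w) / (P.io s w * P.io nil w)| ≤ 2 * C * a / P.io nil w := by
    rw [abs_div, abs_of_pos (mul_pos h3 h4), abs_sub_comm, div_le_div_iff₀ (by positivity) h4]
    have h10 : |P.io s w - P.io nil w| * P.io nil w ≤ a * P.io nil w :=
      mul_le_mul_of_nonneg_right h2 h4.le
    have h11 : a * P.io nil w ≤ (2 * C * P.io s w) * (a * P.io nil w) := by
      have : 0 ≤ a * P.io nil w := by positivity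
      nlinarith
    linarith [h10, h11]
  calc |1 / P.eta (update s w b) w - 1 / P.eta s w| *
        |(P.io nil w - P.io s w) / (P.io s w * P.io nil w)| ≤
        (8 / P.eta nil w) * (2 * C * a / P.io nil w) :=
        mul_le_mul h1 h9 (abs_nonneg _) (by positivity)
    _ = 16 * C * a / (P.eta nil w * P.io nil w) := by
        field_simp
        ring

theorem Dlb (w : T) : ‖P.Dl s w‖ ≤ be w ^ 2 * (a + 200 * C ^ 3 * be w) := by
  by_cases hN : w ∈ N
  · have h1 := h.Dl_le (h.ent1 ha0 ha hE) w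
    have h2 := h.gd_le hE (h.NX hN)
    refine h1.trans (mul_le_mul_of_nonneg_left ?_ (sq_nonneg _))
    linarith
  · have h1 := h.Dl_le (h.ent1 ha0 ha hE) w
    rw [h.beN w hN] at h1 ⊢
    simpa using h1

theorem fracM (w : T) :
    |(∑ d, P.g.P w d * (P.ct s w (some d) / (1 - P.ct s w (some d) * ‖P.G s w w‖ ^ 2)) -
      P.ct s w none / (1 - P.ct s w none * ‖P.G s w w‖ ^ 2)) - c w| ≤
      be w ^ 2 * (2 * C * a + 2 * C ^ 4 * be w) := by
  by_cases hN : w ∈ N
  · have hX := h.NX hN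
    have hC1 := h.C1
    have hC0 := h.C0
    have hb0 := h.be0 w
    have hio := h.io_pos ha0 ha hE hX
    have hd := h.diaC (h.ent1 ha0 ha hE) hX
    have hS : ‖P.G s w w‖ ^ 2 ≤ 4 * C ^ 2 := by
      have := pow_le_pow_left₀ (norm_nonneg _) hd 2
      linarith [mul_pow (2:ℝ) C 2]
    -- the remainder
    have hr : ∀ b, |P.ct s w b / (1 - P.ct s w b * ‖P.G s w w‖ ^ 2) - P.ct s w b| ≤
        C ^ 4 * be w ^ 3 := by
      intro b
      have h1 := h.ct_le ha hE w b
      have h2 := h.frac_le ha0 ha hE w b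
      have h3 := abs_le.mp (h.ctS_le (h.a_le1 ha0 ha) ha hE w b)
      have h4 : (1 - P.ct s w b * ‖P.G s w w‖ ^ 2) ≠ 0 := by linarith
      have h5 : P.ct s w b / (1 - P.ct s w b * ‖P.G s w w‖ ^ 2) - P.ct s w b =
          (P.ct s w b / (1 - P.ct s w b * ‖P.G s w w‖ ^ 2)) * (P.ct s w b * ‖P.G s w w‖ ^ 2) := by
        field_simp
        ring
      rw [h5, abs_mul, abs_mul, abs_of_nonneg (sq_nonneg ‖P.G s w w‖)]
      calc |P.ct s w b / (1 - P.ct s w b * ‖P.G s w w‖ ^ 2)| *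
            (|P.ct s w b| * ‖P.G s w w‖ ^ 2) ≤
            (100 / 99 * (4 * C ^ 2 * be w ^ 2)) * ((4 * C ^ 2 * be w ^ 2) * (4 * C ^ 2)) :=
            mul_le_mul h2 (mul_le_mul h1 hS (sq_nonneg _) (by positivity)) (by positivity)
              (by positivity)
        _ = 6400 / 99 * (C ^ 4 * be w ^ 3) * (C ^ 2 * be w) := by ring
        _ ≤ C ^ 4 * be w ^ 3 := by
            have h6 := h.bes w
            have h7 : 0 ≤ C ^ 4 * be w ^ 3 := by positivity
            have h8 : 0 ≤ C ^ 2 * be w := by positivity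
            nlinarith
    -- the mean of ct
    have hm : ∑ d, P.g.P w d * P.ct s w (some d) - P.ct s w none =
        c w * (P.gt w).im / P.io s w := by
      have h1 := h.dlt_mean s w
      have h2 : ∀ d, P.g.P w d * P.ct s w (some d) =
          -(P.g.P w d * P.dlt s w (some d)) / P.io s w := fun d => by
        unfold ct
        ring
      simp only [h2, ← Finset.sum_div, Finset.sum_neg_distrib]
      unfold ct
      rw [← sub_div]
      congr 1
      linarith
    have hgt : (P.gt w).im = P.io nil w := by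
      unfold io
      rw [gt_nil]
    have hcm : |c w * (P.gt w).im / P.io s w - c w| ≤ be w ^ 2 * (2 * C * a) := by
      rw [hgt]
      have h1 : c w * P.io nil w / P.io s w - c w = c w * ((P.io nil w - P.io s w) / P.io s w) := by
        field_simp
      rw [h1, abs_mul, abs_of_nonneg (h.c0 w)]
      refine mul_le_mul (h.c_le w) ?_ (abs_nonneg _) (sq_nonneg _)
      rw [abs_div, abs_of_pos hio, div_le_iff₀ hio, abs_sub_comm]
      have h2 := h.io_near ha0 ha hE hX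
      have h3 := h.io1' ha hE hX
      nlinarith
    have hmr := (h.law w).mean_le (f := fun d => P.ct s w (some d) /
      (1 - P.ct s w (some d) * ‖P.G s w w‖ ^ 2) - P.ct s w (some d)) fun d => hr (some d)
    have hr0 := hr none
    have h9 : ∑ d, P.g.P w d * (P.ct s w (some d) /
        (1 - P.ct s w (some d) * ‖P.G s w w‖ ^ 2) - P.ct s w (some d)) =
        ∑ d, P.g.P w d * (P.ct s w (some d) / (1 - P.ct s w (some d) * ‖P.G s w w‖ ^ 2)) -
          ∑ d, P.g.P w d * P.ct s w (some d) := by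
      rw [← Finset.sum_sub_distrib]
      exact Finset.sum_congr rfl fun d _ => by ring
    rw [h9] at hmr
    have e1 := abs_le.mp hmr
    have e2 := abs_le.mp hr0
    have e3 := abs_le.mp hcm
    rw [abs_le]
    constructor <;> linarith [e1.1, e1.2, e2.1, e2.2, e3.1, e3.2]
  · have h0 := fun b => h.off hN s b
    have h1 : c w = 0 := by
      have h2 := h.c_le w
      rw [h.beN w hN] at h2
      have h3 := h.c0 w
      linarith
    have h4 : ∀ b, P.ct s w b = 0 := fun b => (h0 b).2.2.2.1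
    simp only [h4, h1, h.beN w hN]
    simp

theorem thb (w : T) : |∑ d, P.g.P w d * P.th s w (some d) - P.th s w none| ≤
    be w ^ 2 * (2 * C * a + 252 * C ^ 4 * be w) := by
  have h1 := h.fracM ha0 ha hE w
  have h2 := h.M2_est (h.ent1 ha0 ha hE) w
  have h3 : ∑ d, P.g.P w d * P.th s w (some d) - P.th s w none = (P.M2 s w - c w) -
      ((∑ d, P.g.P w d * (P.ct s w (some d) / (1 - P.ct s w (some d) * ‖P.G s w w‖ ^ 2)) -
      P.ct s w none / (1 - P.ct s w none * ‖P.G s w w‖ ^ 2)) - c w) := by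
    unfold th M2
    simp only [mul_sub, Finset.sum_sub_distrib]
    ring
  have h4 : C ^ 2 * be w ^ 3 ≤ C ^ 4 * be w ^ 3 := by
    have h5 := h.C1
    have h6 : C ^ 2 ≤ C ^ 4 := pow_le_pow_right₀ h5 (by norm_num)
    exact mul_le_mul_of_nonneg_right h6 (pow_nonneg (h.be0 w) 3)
  rw [h3]
  have e1 := abs_le.mp h1
  have e2 := abs_le.mp h2
  rw [abs_le]
  constructor <;> linarith [e1.1, e1.2, e2.1, e2.2]

theorem c3b (w : T) : |∑ d, P.g.P w d * P.c3 s w (some d) - P.c3 s w none| ≤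
    52 * C ^ 3 * be w ^ 3 := by
  have h1 := fun b => h.c3_le ha0 ha hE w b
  have h2 := (h.law w).mean_le (f := fun d => P.c3 s w (some d)) fun d => h1 (some d)
  have h3 := h1 none
  have h4 := abs_le.mp h2
  have h5 := abs_le.mp h3
  rw [abs_le]
  constructor <;> linarith [h4.1, h4.2, h5.1, h5.2]

/-- the square bounds used in `sq_fn` with `K = 676 C⁶`, `β = be²` -/
theorem sq1 (w : T) (b : Option D) : ‖P.u s w b‖ ^ 2 ≤ 676 * C ^ 6 * be w ^ 2 := by
  have h1 := h.u_le (h.ent1 ha0 ha hE) w b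
  have h2 := pow_le_pow_left₀ (norm_nonneg _) h1 2
  have h3 : 1 ≤ C ^ 6 := one_le_pow₀ h.C1
  nlinarith [sq_nonneg (be w)]

theorem sq2 (w : T) (b : Option D) : P.th s w b ^ 2 ≤ 676 * C ^ 6 * (be w ^ 2) ^ 2 := by
  have h1 := h.th_le ha0 ha hE w b
  have h2 := pow_le_pow_left₀ (abs_nonneg _) h1 2
  rw [sq_abs] at h2
  have h3 : C ^ 4 ≤ C ^ 6 := pow_le_pow_right₀ h.C1 (by norm_num)
  have h4 : 0 ≤ be w ^ 4 := by positivity
  calc P.th s w b ^ 2 ≤ (14 * C ^ 2 * be w ^ 2) ^ 2 := h2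
    _ = 196 * C ^ 4 * be w ^ 4 := by ring
    _ ≤ 676 * C ^ 6 * be w ^ 4 := by
        refine mul_le_mul_of_nonneg_right ?_ h4
        have : 0 ≤ C ^ 6 := by
          have := h.C0
          positivity
        linarith
    _ = 676 * C ^ 6 * (be w ^ 2) ^ 2 := by ring

theorem sq3 (w : T) (b : Option D) : P.c3 s w b ^ 2 ≤ 676 * C ^ 6 * (be w ^ 2) ^ 3 := by
  have h1 := h.c3_le ha0 ha hE w b
  have h2 := pow_le_pow_left₀ (abs_nonneg _) h1 2
  rw [sq_abs] at h2
  calc P.c3 s w b ^ 2 ≤ (26 * C ^ 3 * be w ^ 3) ^ 2 := h2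
    _ = 676 * C ^ 6 * (be w ^ 2) ^ 3 := by ring

/-- `be² ≤ 8 C η(s)` -/
theorem be_eta (w : T) : be w ^ 2 ≤ 8 * C * P.eta s w := by
  have h1 := h.bee w
  have h2 := h.etaLo s w
  have h3 := h.C0
  nlinarith

/-- the linear bounds used in `ef_lin` (`bm = sup be`) -/
theorem lin1 {bm : ℝ} (hbm : ∀ w, be w ≤ bm) (w : T) :
    ‖P.Dl s w‖ ≤ (8 * C * (a + 200 * C ^ 3 * bm)) * P.eta s w := by
  have h1 := h.Dlb ha0 ha hE w
  have h2 := h.be_eta ha0 ha hE w
  have h3 := h.C0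
  have h4 := hbm w
  have h5 := h.be0 w
  have h6 : a + 200 * C ^ 3 * be w ≤ a + 200 * C ^ 3 * bm := by
    have : 200 * C ^ 3 * be w ≤ 200 * C ^ 3 * bm := mul_le_mul_of_nonneg_left h4 (by positivity)
    linarith
  calc ‖P.Dl s w‖ ≤ be w ^ 2 * (a + 200 * C ^ 3 * be w) := h1
    _ ≤ (8 * C * P.eta s w) * (a + 200 * C ^ 3 * bm) :=
        mul_le_mul h2 h6 (by positivity) (by
          have := h.eta0 s w
          positivity)
    _ = _ := by ring

theorem lin2 {bm : ℝ} (hbm : ∀ w, be w ≤ bm) (w : T) :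
    |∑ d, P.g.P w d * P.th s w (some d) - P.th s w none| * (P.G s w w).im ≤
      (32 * C ^ 3 * a + 4032 * C ^ 6 * bm) * P.eta s w := by
  have h1 := h.thb ha0 ha hE w
  have h2 := h.be_eta ha0 ha hE w
  have h3 := h.C0
  have h4 := hbm w
  have h5 := h.be0 w
  have h7 := h.eta0 s w
  have hbm0 : 0 ≤ bm := h5.trans h4
  by_cases hN : w ∈ N
  · have h8 := h.diaC (h.ent1 ha0 ha hE) (h.NX hN)
    have h9 : (P.G s w w).im ≤ 2 * C :=
      ((le_abs_self _).trans (Complex.abs_im_le_norm _)).trans h8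
    have h10 : 0 ≤ (P.G s w w).im := (h.io_pos ha0 ha hE (h.NX hN)).le
    have h6 : 2 * C * a + 252 * C ^ 4 * be w ≤ 2 * C * a + 252 * C ^ 4 * bm := by
      have : 252 * C ^ 4 * be w ≤ 252 * C ^ 4 * bm := mul_le_mul_of_nonneg_left h4 (by positivity)
      linarith
    calc |∑ d, P.g.P w d * P.th s w (some d) - P.th s w none| * (P.G s w w).im ≤
          ((8 * C * P.eta s w) * (2 * C * a + 252 * C ^ 4 * bm)) * (2 * C) :=
          mul_le_mul (h1.trans (mul_le_mul h2 h6 (by positivity) (by positivity))) h9 h10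
            (by positivity)
      _ = (32 * C ^ 3 * a + 4032 * C ^ 6 * bm) * P.eta s w := by ring
  · rw [h.beN w hN] at h1
    have h11 : |∑ d, P.g.P w d * P.th s w (some d) - P.th s w none| = 0 :=
      le_antisymm (by simpa using h1) (abs_nonneg _)
    rw [h11, zero_mul]
    positivity

theorem lin3 {bm : ℝ} (hbm : ∀ w, be w ≤ bm) (w : T) :
    |∑ d, P.g.P w d * P.c3 s w (some d) - P.c3 s w none| ≤
      (416 * C ^ 4 * bm) * P.eta s w := by
  have h1 := h.c3b ha0 ha hE w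
  have h2 := h.be_eta ha0 ha hE w
  have h3 := h.C0
  have h4 := hbm w
  have h5 := h.be0 w
  have h7 := h.eta0 s w
  calc |∑ d, P.g.P w d * P.c3 s w (some d) - P.c3 s w none| ≤ 52 * C ^ 3 * be w ^ 3 := h1
    _ = 52 * C ^ 3 * (be w ^ 2 * be w) := by ring
    _ ≤ 52 * C ^ 3 * ((8 * C * P.eta s w) * bm) := by
        refine mul_le_mul_of_nonneg_left ?_ (by positivity)
        exact mul_le_mul h2 h4 h5 (by positivity)
    _ = _ := by ring

end Ok

end Stp

end Pool.Agent.ANS
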