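import Pool.Agent.ANS.Form.OpF
import Pool.Agent.ANS.Form.Coef

/-! # ANS FORM FH: the hypotheses of the form component at a configuration, square function

`SM`: smoothing property at the START configuration (helper1's `good_smooth`): every `u` supported in
`B` with form `≤ 1` is `k + u1 + u2` on `X`, `u1² ≤ e1`, `∑ η⁰ u2² ≤ e2`.
`FH`: `a` entries, `dlf` size of the form component, `CR` comparison constant of the reference, `bm = sup be`,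
`σ` free, `τm` fourth moments, `nf` the noise size.

`FL s w b = L⁻¹ EB(s,w,b) (L⁻¹)ᵀ`.
* `sm_y`: `y·y ≤ 1`, `u = ext B ((L⁻¹)ᵀ y)`: `qf nil u = |y|² ≤ 1` (`qb_L`, `qf_qm`), so `SM` applies.
* `sqF`: fix `β`, `v`; `g_w = FL w (β w) v`.  `b = ext B ((L⁻¹)ᵀ v)`.  If `g_w ≠ 0` let
  `y_w = g_w/|g_w|`, otherwise `y_w = 0`; `a_w = ext B ((L⁻¹)ᵀ y_w)`.  Then
  `E_w(a_w, b) = y_w·FL v = |g_w|` (`eb_form`), so `∑ g_w·g_w = ∑ E_w(a_w,b)²` and `sq_fn` applies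
  (at the configuration `s`, `h.gm s`) with `β := be²`, `c1 := u`, `c2 := θ`, `c3 := c3`,
  `K = 676 C⁶` (`sq1`, `sq2`, `sq3`), `Cη = 8 C` (`be_eta`), `βm = bm²`, `I = 2 C` (`h.io_le`; `η ≠ 0`
  iff in `X`), `S = 4 Lm²` (`h.entL`), `t = 2 C bm² τm` (terms with `w ∉ N` vanish, `be ≤ bm`),
  `m1 = √e1`, `e2 := 2 C² e2` (`h.etaHi`: `η(s) ≤ (1 + C²) η⁰ ≤ 2 C² η⁰`), `q1 = 2 CR` (`q_b` with
  `|y_w| ≤ 1`), `a1, a2` from `SM` (off `X` put `a1 = 0`, `a2 = a - k`; `η = 0` there).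
  Value: `12 K = 8112 C⁶`; the bracket is at most
  `256 C² e1 + 64 C³ e2 (σ + bm² τm/σ) + 256 C⁴ bm² e1 + 256 C⁵ bm² Lm² e2 + 128 C² CR bm²
    ≤ 256 C⁵ CR (e1 + e2 (σ + bm² τm/σ) + bm² (1 + e1 + Lm² e2))`,
  and `Q_s(b,b) ≤ 2 CR |v|²` (`q_b`): `256·8112·2 ≤ 5·10⁶`. -/

set_option autoImplicit false

open Finset Function Matrix

noncomputable section

namespace Pool.Agent.ANS

open Pool.Agent.ANS.Form
open Pool.Agent.APS (tr0 OpLe)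

variable {T D : Type} [Fintype T] [DecidableEq T]

namespace Stp

/-- smoothing property at the start -/
def SM (P : Stp T D) (X B : Finset T) (e1 e2 : ℝ) : Prop :=
  ∀ u : T → ℝ, (∀ x, x ∉ B → u x = 0) → P.qf nil u ≤ 1 →
    ∃ (k : ℝ) (u1 u2 : T → ℝ), (∀ x ∈ X, u x = k + u1 x + u2 x) ∧ (∀ x ∈ X, u1 x ^ 2 ≤ e1) ∧
      ∑ x ∈ X, P.eta nil x * u2 x ^ 2 ≤ e2

/-- noise matrix, normalised -/
def FL (P : Stp T D) (B : Finset T) (L : Matrix ↥B ↥B ℝ) (s : T → Option D) (w : T)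
    (b : Option D) : Matrix ↥B ↥B ℝ := L⁻¹ * P.EB B s w b * (L⁻¹)ᵀ

/-- hypotheses of the form component at the configuration `s` -/
structure FH (P : Stp T D) (X N B : Finset T) (be : T → ℝ) (C Lm : ℝ)
    (L : Matrix ↥B ↥B ℝ) (p : ℕ) (dlf a CR bm e1 e2 sig taum nf : ℝ) (s : T → Option D) :
    Prop where
  lk : P.Lk X B L
  NB : N ⊆ B
  p2 : 2 ≤ p
  d0 : 0 < dlf
  CR1 : 1 ≤ CR
  CRd : 2 * CR * dlf ≤ 1
  rb : P.RB B CR s
  tr : tr0 (2 * p) (P.fF B L dlf s) ≤ 1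
  a0 : 0 ≤ a
  a2 : 2 * C * a ≤ 1
  ent : P.Ent X a s
  bmL : ∀ w, be w ≤ bm
  e10 : 0 ≤ e1
  e20 : 0 ≤ e2
  sm : P.SM X B e1 e2
  sig0 : 0 < sig
  tau0 : 0 ≤ taum
  tau : ∀ x ∈ X, ∑ y ∈ N, ‖P.G s x y‖ ^ 4 ≤ taum
  nf0 : 0 ≤ nf
  nfL : 5000000 * C ^ 11 * CR ^ 2 * (e1 + e2 * (sig + bm ^ 2 * taum / sig) +
    bm ^ 2 * (1 + e1 + Lm ^ 2 * e2)) ≤ nf ^ 2
  nfs : 36 * CR * nf ≤ 1

variable [Fintype D] {P : Stp T D} {X N B : Finset T} {c be e : T → ℝ} {C Lm : ℝ}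
  {L : Matrix ↥B ↥B ℝ}

namespace Ok

variable (h : P.Ok X N c be e C Lm) {p : ℕ} {dlf a CR bm e1 e2 sig taum nf : ℝ}
  {s : T → Option D} (H : P.FH X N B be C Lm L p dlf a CR bm e1 e2 sig taum nf s)
include h H

theorem sm_y {y : ↥B → ℝ} (hy : y ⬝ᵥ y ≤ 1) :
    ∃ (k : ℝ) (u1 u2 : T → ℝ), (∀ x, ext B ((L⁻¹)ᵀ *ᵥ y) x = k + u1 x + u2 x) ∧
      (∀ x, P.eta s x ≠ 0 → |u1 x| ≤ Real.sqrt e1) ∧
      ∑ x, P.eta s x * u2 x ^ 2 ≤ 2 * C ^ 2 * e2 := by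
  set u0 : T → ℝ := ext B ((L⁻¹)ᵀ *ᵥ y) with hu0
  have hB : ∀ x, x ∉ B → u0 x = 0 := by
    intro x hx
    rw [hu0]
    unfold Form.ext
    rw [dif_neg hx]
  have hq : P.qf nil u0 ≤ 1 := by
    have h1 := h.qf_qm nil u0 u0
    have h2 := h.qb_L H.lk.fac H.lk.unit y
    unfold qf
    rw [h1, h2]
    exact hy
  obtain ⟨k, u1, u2, h1, h2, h3⟩ := H.sm u0 hB hq
  refine ⟨k, fun x => if x ∈ X then u1 x else 0, fun x => if x ∈ X then u2 x else u0 x - k,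
    ?_, ?_, ?_⟩
  · intro x
    by_cases hx : x ∈ X
    · simp only [hx, if_true]
      exact h1 x hx
    · simp only [hx, if_false]
      ring
  · intro x hx
    have hX : x ∈ X := by
      by_contra hX
      exact hx (h.etaU' s hX)
    simp only [hX, if_true]
    exact Real.abs_le_sqrt (h2 x hX)
  · have h4 : ∀ x, P.eta s x * (if x ∈ X then u2 x else u0 x - k) ^ 2 ≤
        (1 + C ^ 2) * (if x ∈ X then P.eta nil x * u2 x ^ 2 else 0) := by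
      intro x
      by_cases hx : x ∈ X
      · simp only [hx, if_true]
        have h5 := mul_le_mul_of_nonneg_right (h.etaHi s x) (sq_nonneg (u2 x))
        linarith
      · simp only [hx, if_false]
        rw [h.etaU' s hx]
        linarith
    have h5 : ∑ x, (if x ∈ X then P.eta nil x * u2 x ^ 2 else 0) =
        ∑ x ∈ X, P.eta nil x * u2 x ^ 2 := by
      rw [Finset.sum_ite_mem, Finset.univ_inter]
    have h6 : 0 ≤ ∑ x ∈ X, P.eta nil x * u2 x ^ 2 :=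
      Finset.sum_nonneg fun x _ => mul_nonneg (h.eta0 nil x) (sq_nonneg _)
    calc ∑ x, P.eta s x * (if x ∈ X then u2 x else u0 x - k) ^ 2 ≤
          ∑ x, (1 + C ^ 2) * (if x ∈ X then P.eta nil x * u2 x ^ 2 else 0) :=
          Finset.sum_le_sum fun x _ => h4 x
      _ = (1 + C ^ 2) * ∑ x ∈ X, P.eta nil x * u2 x ^ 2 := by
          rw [← Finset.mul_sum, h5]
      _ ≤ (2 * C ^ 2) * e2 := by
          have hC := h.C1
          have h7 : 1 + C ^ 2 ≤ 2 * C ^ 2 := by nlinarith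
          exact mul_le_mul h7 h3 h6 (by positivity)

omit h H [Fintype D] in
private lemma fl_form (w : T) (b : Option D) (y v : ↥B → ℝ) :
    y ⬝ᵥ (P.FL B L s w b *ᵥ v) =
      Ef (P.G s) (P.eta s) w (P.u s w b) (P.th s w b) (P.c3 s w b) (ext B ((L⁻¹)ᵀ *ᵥ y))
        (ext B ((L⁻¹)ᵀ *ᵥ v)) := by
  rw [← eb_form s w b]
  unfold FL
  rw [← Matrix.mulVec_mulVec, ← Matrix.mulVec_mulVec, Matrix.mulVec_transpose L⁻¹ y,
    ← Matrix.dotProduct_mulVec]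

private lemma t_le {x : T} (hx : x ∈ X) :
    ∑ w, be w ^ 2 * ((P.G s w w).im * ‖P.G s x w‖ ^ 4) ≤ 2 * C * bm ^ 2 * taum := by
  have hE1 := h.ent1 H.a0 H.a2 H.ent
  have hC := h.C0
  have h1 : ∀ w, be w ^ 2 * ((P.G s w w).im * ‖P.G s x w‖ ^ 4) ≤
      (2 * C * bm ^ 2) * (if w ∈ N then ‖P.G s x w‖ ^ 4 else 0) := by
    intro w
    by_cases hw : w ∈ N
    · simp only [hw, if_true]
      have h2 : be w ^ 2 ≤ bm ^ 2 := pow_le_pow_left₀ (h.be0 w) (H.bmL w) 2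
      have h3 : (P.G s w w).im ≤ 2 * C := h.io_le hE1 (h.NX hw)
      have h4 : 0 ≤ ‖P.G s x w‖ ^ 4 := by positivity
      have h5 : 0 ≤ (P.G s w w).im := h.io0 s w
      calc be w ^ 2 * ((P.G s w w).im * ‖P.G s x w‖ ^ 4) ≤
            bm ^ 2 * ((2 * C) * ‖P.G s x w‖ ^ 4) :=
            mul_le_mul h2 (mul_le_mul_of_nonneg_right h3 h4) (by positivity) (sq_nonneg _)
        _ = _ := by ring
    · simp only [hw, if_false]
      rw [h.beN w hw]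
      simp
  calc ∑ w, be w ^ 2 * ((P.G s w w).im * ‖P.G s x w‖ ^ 4) ≤
        ∑ w, (2 * C * bm ^ 2) * (if w ∈ N then ‖P.G s x w‖ ^ 4 else 0) :=
        Finset.sum_le_sum fun w _ => h1 w
    _ = (2 * C * bm ^ 2) * ∑ w ∈ N, ‖P.G s x w‖ ^ 4 := by
        rw [← Finset.mul_sum, Finset.sum_ite_mem, Finset.univ_inter]
    _ ≤ (2 * C * bm ^ 2) * taum :=
        mul_le_mul_of_nonneg_left (H.tau x hx) (by positivity)

private lemma arith {q vv : ℝ} (hq : q ≤ 2 * CR * vv) (hq0 : 0 ≤ q) (hvv : 0 ≤ vv) :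
    12 * (676 * C ^ 6) * (16 * (8 * C) * (2 * C) * Real.sqrt e1 ^ 2 +
      4 * (2 * C ^ 2 * e2) * (sig * (8 * C) + 2 * C * bm ^ 2 * taum / sig) +
      (2 * C) ^ 2 * (8 * C) * bm ^ 2 * (4 * (2 * C) * Real.sqrt e1 ^ 2 +
        4 * Lm ^ 2 * (2 * C ^ 2 * e2)) + (8 * C) ^ 2 * bm ^ 2 * (2 * CR)) * q ≤
      nf ^ 2 * vv := by
  have hC := h.C1
  have hC0 := h.C0
  have hCR := H.CR1
  have hCR0 : 0 ≤ CR := by linarith
  have he1 := H.e10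
  have he2 := H.e20
  have hs0 := H.sig0
  rw [Real.sq_sqrt he1]
  obtain ⟨r, hr⟩ : ∃ r, r = bm ^ 2 * taum / sig := ⟨_, rfl⟩
  have hr0 : 0 ≤ r := by
    rw [hr]
    have := H.tau0
    positivity
  have hr2 : 2 * C * bm ^ 2 * taum / sig = 2 * C * r := by
    rw [hr]
    ring
  have hn := H.nfL
  rw [← hr] at hn
  rw [hr2]
  have k2 : C ^ 2 ≤ C ^ 5 := pow_le_pow_right₀ hC (by norm_num)
  have k3 : C ^ 3 ≤ C ^ 5 := pow_le_pow_right₀ hC (by norm_num)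
  have k4 : C ^ 4 ≤ C ^ 5 := pow_le_pow_right₀ hC (by norm_num)
  have k5 : C ^ 5 ≤ C ^ 5 * CR := le_mul_of_one_le_right (by positivity) hCR
  have hbr : 16 * (8 * C) * (2 * C) * e1 +
      4 * (2 * C ^ 2 * e2) * (sig * (8 * C) + 2 * C * r) +
      (2 * C) ^ 2 * (8 * C) * bm ^ 2 * (4 * (2 * C) * e1 +
        4 * Lm ^ 2 * (2 * C ^ 2 * e2)) + (8 * C) ^ 2 * bm ^ 2 * (2 * CR) ≤
      256 * (C ^ 5 * CR) * (e1 + e2 * (sig + r) + bm ^ 2 * (1 + e1 + Lm ^ 2 * e2)) := by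
    have t1 : C ^ 2 * e1 ≤ (C ^ 5 * CR) * e1 :=
      mul_le_mul_of_nonneg_right (k2.trans k5) he1
    have t2 : C ^ 3 * (e2 * sig) ≤ (C ^ 5 * CR) * (e2 * sig) :=
      mul_le_mul_of_nonneg_right (k3.trans k5) (by positivity)
    have t3 : C ^ 3 * (e2 * r) ≤ (C ^ 5 * CR) * (e2 * r) :=
      mul_le_mul_of_nonneg_right (k3.trans k5) (by positivity)
    have t4 : C ^ 4 * (bm ^ 2 * e1) ≤ (C ^ 5 * CR) * (bm ^ 2 * e1) :=
      mul_le_mul_of_nonneg_right (k4.trans k5) (by positivity)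
    have t5 : C ^ 5 * (bm ^ 2 * Lm ^ 2 * e2) ≤ (C ^ 5 * CR) * (bm ^ 2 * Lm ^ 2 * e2) :=
      mul_le_mul_of_nonneg_right k5 (by positivity)
    have t6 : C ^ 2 * (CR * bm ^ 2) ≤ C ^ 5 * (CR * bm ^ 2) :=
      mul_le_mul_of_nonneg_right k2 (by positivity)
    have n2 : 0 ≤ (C ^ 5 * CR) * (e2 * sig) := by positivity
    have n3 : 0 ≤ (C ^ 5 * CR) * (e2 * r) := by positivity
    have n6 : 0 ≤ C ^ 5 * (CR * bm ^ 2) := by positivity
    nlinarith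
  have hbr0 : 0 ≤ e1 + e2 * (sig + r) + bm ^ 2 * (1 + e1 + Lm ^ 2 * e2) := by positivity
  calc _ ≤ 12 * (676 * C ^ 6) * (256 * (C ^ 5 * CR) *
        (e1 + e2 * (sig + r) + bm ^ 2 * (1 + e1 + Lm ^ 2 * e2))) * (2 * CR * vv) := by
        refine mul_le_mul ?_ hq hq0 (by positivity)
        exact mul_le_mul_of_nonneg_left hbr (by positivity)
    _ = 4153344 * (C ^ 11 * CR ^ 2 *
        (e1 + e2 * (sig + r) + bm ^ 2 * (1 + e1 + Lm ^ 2 * e2)) * vv) := by ring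
    _ ≤ 5000000 * (C ^ 11 * CR ^ 2 *
        (e1 + e2 * (sig + r) + bm ^ 2 * (1 + e1 + Lm ^ 2 * e2)) * vv) := by
        have : 0 ≤ C ^ 11 * CR ^ 2 *
          (e1 + e2 * (sig + r) + bm ^ 2 * (1 + e1 + Lm ^ 2 * e2)) * vv := by positivity
        linarith
    _ = (5000000 * C ^ 11 * CR ^ 2 *
        (e1 + e2 * (sig + r) + bm ^ 2 * (1 + e1 + Lm ^ 2 * e2))) * vv := by ring
    _ ≤ nf ^ 2 * vv := mul_le_mul_of_nonneg_right hn hvv

theorem sqF (β : T → Option D) (v : ↥B → ℝ) :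
    ∑ w, (P.FL B L s w (β w) *ᵥ v) ⬝ᵥ (P.FL B L s w (β w) *ᵥ v) ≤ nf ^ 2 * (v ⬝ᵥ v) := by
  have hE1 := h.ent1 H.a0 H.a2 H.ent
  have hp1 : 1 ≤ p := by linarith [H.p2]
  have hCR0 : 0 ≤ CR := by linarith [H.CR1]
  set g : T → ↥B → ℝ := fun w => P.FL B L s w (β w) *ᵥ v with hg
  have hgg : ∀ w, 0 ≤ g w ⬝ᵥ g w := fun w => by
    unfold dotProduct
    exact Finset.sum_nonneg fun x _ => mul_self_nonneg _
  set nw : T → ℝ := fun w => Real.sqrt (g w ⬝ᵥ g w) with hnw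
  have hnw2 : ∀ w, nw w ^ 2 = g w ⬝ᵥ g w := fun w => Real.sq_sqrt (hgg w)
  set y : T → ↥B → ℝ := fun w => (nw w)⁻¹ • g w with hy
  have hyg : ∀ w, y w ⬝ᵥ g w = nw w := by
    intro w
    rw [hy]
    simp only
    rw [smul_dotProduct, smul_eq_mul, ← hnw2 w]
    by_cases h0 : nw w = 0
    · rw [h0]
      simp
    · field_simp
  have hyy : ∀ w, y w ⬝ᵥ y w ≤ 1 := by
    intro w
    rw [hy]
    simp only
    rw [smul_dotProduct, dotProduct_smul, smul_eq_mul, smul_eq_mul, ← hnw2 w]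
    by_cases h0 : nw w = 0
    · rw [h0]
      simp
    · have : (nw w)⁻¹ * ((nw w)⁻¹ * nw w ^ 2) = 1 := by field_simp
      rw [this]
  choose k a1 a2 ha ha1 ha2 using fun w => h.sm_y H (hyy w)
  have hX : ∀ w, P.eta s w ≠ 0 → w ∈ X := by
    intro w hw
    by_contra hw2
    exact hw (h.etaU' s hw2)
  have hC := h.C0
  have hsq := sq_fn (h.gm s) (fun w => be w ^ 2) (fun w => P.u s w (β w))
    (fun w => P.th s w (β w)) (fun w => P.c3 s w (β w)) (K := 676 * C ^ 6) (Cη := 8 * C)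
    (βm := bm ^ 2) (I := 2 * C) (S := 4 * Lm ^ 2) (σ := sig) (t := 2 * C * bm ^ 2 * taum)
    (m1 := Real.sqrt e1) (e2 := 2 * C ^ 2 * e2) (q1 := 2 * CR) (by positivity) (by positivity)
    (by positivity) (by positivity) (fun w => sq_nonneg _)
    (fun w => h.be_eta H.a0 H.a2 H.ent w)
    (fun w => pow_le_pow_left₀ (h.be0 w) (H.bmL w) 2) (sq_nonneg _)
    (fun w => h.sq1 H.a0 H.a2 H.ent w (β w)) (fun w => h.sq2 H.a0 H.a2 H.ent w (β w))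
    (fun w => h.sq3 H.a0 H.a2 H.ent w (β w))
    (fun w hw => h.io_le hE1 (hX w hw))
    (fun x w hx hw => by
      have h1 := h.entL hE1 (hX x hx) (hX w hw)
      have h2 : ‖P.G s x w‖ ^ 2 ≤ (2 * Lm) ^ 2 := pow_le_pow_left₀ (norm_nonneg _) h1 2
      calc _ ≤ (2 * Lm) ^ 2 := h2
        _ = _ := by ring)
    H.sig0 (fun x hx => h.t_le H (hX x hx))
    (fun w => ext B ((L⁻¹)ᵀ *ᵥ y w)) a1 a2 k (fun w x => ha w x) (Real.sqrt_nonneg _)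
    (fun w x hx => ha1 w x hx) (fun w => ha2 w)
    (fun w => by
      have h1 := h.q_b H.lk hp1 H.d0 H.CR1 H.CRd H.rb H.tr (y w)
      have h2 := mul_le_mul_of_nonneg_left (hyy w) (show (0:ℝ) ≤ 2 * CR by positivity)
      linarith)
    (ext B ((L⁻¹)ᵀ *ᵥ v))
  have hE : ∀ w, Ef (P.G s) (P.eta s) w (P.u s w (β w)) (P.th s w (β w)) (P.c3 s w (β w))
      (ext B ((L⁻¹)ᵀ *ᵥ y w)) (ext B ((L⁻¹)ᵀ *ᵥ v)) ^ 2 = g w ⬝ᵥ g w := by
    intro w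
    rw [← hnw2 w, ← hyg w, ← fl_form w (β w) (y w) v]
  have hq := h.q_b H.lk hp1 H.d0 H.CR1 H.CRd H.rb H.tr v
  have hvv : 0 ≤ v ⬝ᵥ v := by
    unfold dotProduct
    exact Finset.sum_nonneg fun x _ => mul_self_nonneg _
  have hq0 : 0 ≤ Qf (P.G s) (P.eta s) (ext B ((L⁻¹)ᵀ *ᵥ v)) (ext B ((L⁻¹)ᵀ *ᵥ v)) := by
    unfold Qf
    refine mul_nonneg (by norm_num) (Finset.sum_nonneg fun x _ => Finset.sum_nonneg fun z _ => ?_)
    exact mul_nonneg (mul_nonneg (mul_nonneg (h.eta0 s x) (h.eta0 s z)) (sq_nonneg _))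
      (mul_self_nonneg _)
  have hfin := h.arith H hq hq0 hvv
  calc ∑ w, g w ⬝ᵥ g w = ∑ w, Ef (P.G s) (P.eta s) w (P.u s w (β w)) (P.th s w (β w))
        (P.c3 s w (β w)) (ext B ((L⁻¹)ᵀ *ᵥ y w)) (ext B ((L⁻¹)ᵀ *ᵥ v)) ^ 2 :=
        Finset.sum_congr rfl fun w _ => (hE w).symm
    _ ≤ _ := hsq
    _ ≤ _ := hfin

end Ok

end Stp

end Pool.Agent.ANS
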