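import Pool.Agent.ANS.Form.OpF

/-! # ANS FORM REFB: the reference when the counterterms decrease (`ζ ≥ 0`)

`aw s w = (1/η_s - 1/η⁰)/ι⁰`; `ζ ≥ 0` gives `η_s ≤ η⁰`, so `aw ≥ 0`; `η_s ≥ η⁰/8` gives `aw ≤ 7/(η⁰ι⁰)`.
So `(QB nil)⁻¹ ≤ Rf s = (QB nil)⁻¹ + diag aw ≤ 15 (QB nil)⁻¹` by `diag_inv`
(`∑ v²/m ≤ 2 v·(QB nil)⁻¹ v`). -/

set_option autoImplicit false

open Finset Function Matrix

noncomputable section

namespace Pool.Agent.ANS

open Pool.Agent.ANS.Form

variable {T D : Type} [Fintype T] [DecidableEq T] [Fintype D] {P : Stp T D} {X N B : Finset T}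
  {c be e : T → ℝ} {C Lm : ℝ}

namespace Stp

namespace Ok

variable (h : P.Ok X N c be e C Lm)
include h

omit [Fintype D] [Fintype T] h in
private lemma eta_nil' [Fintype T] (w : T) : P.eta nil w = -(P.b w).im := by
  simp [Stp.eta, Stp.bs, Stp.inc, nil]

omit [Fintype D] h in
private lemma io_nil' (w : T) : P.io nil w = (P.gt w).im := by
  have h1 : P.bs nil = P.b := by
    funext x
    simp [Stp.bs, Stp.inc, nil]
  unfold Stp.io Stp.G Stp.gt
  rw [h1]

omit [Fintype D] h in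
private lemma eta_some {s : T → Option D} {w : T} {d : D} (hs : s w = some d) :
    P.eta s w = P.eta nil w - P.g.zt w d * P.io nil w := by
  rw [io_nil', eta_nil']
  unfold Stp.eta Stp.bs
  rw [hs]
  simp [Stp.inc]
  ring

omit [Fintype D] h in
private lemma eta_none {s : T → Option D} {w : T} (hs : s w = none) :
    P.eta s w = P.eta nil w := by
  unfold Stp.eta Stp.bs
  rw [hs]
  rfl

private lemma io_pos {w : T} (hw : w ∈ X) : 0 < P.io nil w := by
  have h1 := h.io1 w hw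
  have h2 := h.C1
  by_contra hcon
  have h3 : P.io nil w ≤ 0 := not_lt.1 hcon
  have h4 : C * P.io nil w ≤ 0 := mul_nonpos_of_nonneg_of_nonpos (by linarith) h3
  linarith

private lemma eta_ge (s : T → Option D) {w : T} (hw : w ∈ X) :
    P.eta nil w / 8 ≤ P.eta s w := by
  have h0 := h.etaX w hw
  rcases hs : s w with _ | d
  · rw [eta_none hs]
    linarith
  · rw [eta_some hs]
    have h1 := h.et8 w d
    rw [io_nil']
    linarith

private lemma eta_le (hz : ∀ w d, 0 ≤ P.g.zt w d) (s : T → Option D) {w : T} (hw : w ∈ X) :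
    P.eta s w ≤ P.eta nil w := by
  rcases hs : s w with _ | d
  · rw [eta_none hs]
  · rw [eta_some hs]
    have h1 := mul_nonneg (hz w d) (h.io_pos hw).le
    linarith

theorem aw_nonneg (hz : ∀ w d, 0 ≤ P.g.zt w d) (s : T → Option D) {w : T} (hw : w ∈ X) :
    0 ≤ P.aw s w := by
  have h0 := h.etaX w hw
  have h1 := h.eta_ge s hw
  have h2 := h.eta_le hz s hw
  have h3 := h.io_pos hw
  unfold Stp.aw
  rw [sub_nonneg]
  exact one_div_le_one_div_of_le (mul_pos (by linarith) h3)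
    (mul_le_mul_of_nonneg_right h2 h3.le)

theorem aw_le (s : T → Option D) {w : T} (hw : w ∈ X) :
    P.aw s w ≤ 7 / (P.eta nil w * P.io nil w) := by
  have h0 := h.etaX w hw
  have h1 := h.eta_ge s hw
  have h3 := h.io_pos hw
  have h4 : 1 / (P.eta s w * P.io nil w) ≤ 1 / (P.eta nil w / 8 * P.io nil w) :=
    one_div_le_one_div_of_le (mul_pos (by linarith) h3) (mul_le_mul_of_nonneg_right h1 h3.le)
  have h5 : 1 / (P.eta nil w / 8 * P.io nil w) = 8 / (P.eta nil w * P.io nil w) := by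
    field_simp
  unfold Stp.aw
  rw [h5] at h4
  have h6 : (7 : ℝ) / (P.eta nil w * P.io nil w) =
      8 / (P.eta nil w * P.io nil w) - 1 / (P.eta nil w * P.io nil w) := by
    rw [← sub_div]
    norm_num
  rw [h6]
  linarith

theorem rb15 (hBX : B ⊆ X) (hpd : (P.QB B nil).PosDef) (hz : ∀ w d, 0 ≤ P.g.zt w d)
    (s : T → Option D) : P.RB B 15 s := by
  intro v
  have e1 : v ⬝ᵥ (P.Rf B s *ᵥ v) = v ⬝ᵥ ((P.QB B nil)⁻¹ *ᵥ v) +
      ∑ w : ↥B, P.aw s w * v w ^ 2 := by
    unfold Stp.Rf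
    rw [add_mulVec, dotProduct_add]
    congr 1
    unfold dotProduct
    refine Finset.sum_congr rfl fun w _ => ?_
    rw [mulVec_diagonal]
    ring
  have h1 : 0 ≤ v ⬝ᵥ ((P.QB B nil)⁻¹ *ᵥ v) := by
    have := hpd.inv.posSemidef.dotProduct_mulVec_nonneg v
    simpa using this
  have h2 : 0 ≤ ∑ w : ↥B, P.aw s w * v w ^ 2 :=
    Finset.sum_nonneg fun w _ => mul_nonneg (h.aw_nonneg hz s (hBX w.2)) (sq_nonneg _)
  have h3 : ∑ w : ↥B, P.aw s w * v w ^ 2 ≤
      7 * ∑ w : ↥B, v w ^ 2 / (P.eta nil w * P.io nil w) := by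
    rw [Finset.mul_sum]
    refine Finset.sum_le_sum fun w _ => ?_
    have := mul_le_mul_of_nonneg_right (h.aw_le s (hBX w.2)) (sq_nonneg (v w))
    refine this.trans (le_of_eq ?_)
    ring
  have h4 := h.diag_inv hBX hpd v
  rw [e1]
  constructor <;> linarith

end Ok

end Stp

end Pool.Agent.ANS
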