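import Pool.Agent.ANS.Form.DriftF
import Pool.Agent.ANS.Form.RefB
import Pool.Agent.ANS.JTr

/-! # ANS FORM COMP: the form component of the jump engine

`comp`: `comp_tr` with `f = fF`, `nu = x = omF`, `card B (2 omF^(2p)) ≤ b0`.
`start`: at the start `QB⁻¹ = Rf` (`aw nil = 0`), so `fF nil = 0` and the functional is `0`.
`use`: `FormLe B (2 CR dlf) s` from the functional `≤ 1` (`form_le`), no other hypothesis. -/

set_option autoImplicit false

open Finset Function Matrix

noncomputable section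

namespace Pool.Agent.ANS

open Pool.Agent.ANS.Form
open Pool.Agent.APS (tr0 OpLe)

variable {T D : Type} [Fintype T] [DecidableEq T] [Fintype D] [DecidableEq D] {P : Stp T D}
  {X N B : Finset T} {c be e : T → ℝ} {C Lm : ℝ} {L : Matrix ↥B ↥B ℝ}

namespace Stp

namespace Ok

variable (h : P.Ok X N c be e C Lm)
include h

/-- the functional of the form component satisfies the component estimate of the engine -/
theorem formComp {p : ℕ} {dlf a CR bm e1 e2 sig taum nf : ℝ}
    {s : T → Option D} (H : P.FH X N B be C Lm L p dlf a CR bm e1 e2 sig taum nf s)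
    (hbm : 0 ≤ bm) {b0 dl : ℝ}
    (hb0 : (Fintype.card ↥B : ℝ) * (2 * omF C CR nf a bm dlf ^ (2 * p)) ≤ b0)
    (hdl : 0 < dl) (hdl1 : dl ≤ 1) (hbd : KT p * b0 ≤ dl ^ (2 * p)) :
    CompAt P.g.P (fun s => tr0 (2 * p) (P.fF B L dlf s)) s (KT p) (KT p * b0) dl := by
  have hC : 0 ≤ C := zero_le_one.trans h.C1
  have hCR : 0 ≤ CR := zero_le_one.trans H.CR1
  have hom : 0 ≤ omF C CR nf a bm dlf := by
    have h1 := H.nf0
    have h2 := H.a0
    have h3 := H.d0
    unfold omF
    positivity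
  refine comp_tr p H.p2 P.g.P h.dig.P0 h.dig.P1 (fun s => P.fF B L dlf s)
    (fun s => h.fF_herm H.lk dlf s) s hom hom (fun β u => h.noise H hbm β u) (h.drift H hbm)
    ?_ hdl hdl1 hbd H.tr
  rw [← two_mul]
  exact hb0

theorem formStart (hL : P.Lk X B L) {p : ℕ} (hp : 1 ≤ p) (dlf : ℝ) :
    tr0 (2 * p) (P.fF B L dlf nil) = 0 := by
  have h1 : P.Rf B nil = (P.QB B nil)⁻¹ := by
    unfold Stp.Rf
    have h2 : (fun w : ↥B => P.aw nil (w : T)) = fun _ => 0 := by
      funext w
      unfold Stp.aw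
      exact sub_self _
    rw [h2, diagonal_zero, add_zero]
  have h3 : P.fR B L dlf nil = 0 := by
    unfold Stp.fR
    rw [h1, sub_self, Matrix.mul_zero, Matrix.zero_mul, smul_zero]
  have h4 : P.fF B L dlf nil = 0 := by
    unfold Stp.fF
    rw [h3]
    ext x y
    simp
  rw [h4]
  unfold tr0
  rw [zero_pow (by omega), Matrix.trace_zero, Complex.zero_re]

theorem formUse (hL : P.Lk X B L) {p : ℕ} (hp : 1 ≤ p) {dlf CR : ℝ} (hd : 0 < dlf)
    (hCR : 1 ≤ CR) (hdl : 2 * CR * dlf ≤ 1) {s : T → Option D} (hRB : P.RB B CR s)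
    (ht : tr0 (2 * p) (P.fF B L dlf s) ≤ 1) : P.FormLe B (2 * CR * dlf) s :=
  h.form_le hL hp hd hCR hdl hRB ht

end Ok

end Stp

end Pool.Agent.ANS
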