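import Mathlib

/-! # ANS FORM ABSN: abstract noise and second order bounds (pure linear algebra)

Index sets `W` (sites), `Θ` (digits), `κ`.  Real matrices; `|v|² = v ⬝ᵥ v`.
`A = C + α φφᵀ`, `C' = A - A F C'`, `J = -A F C' + ε φφᵀ`.
Hypotheses `Hy`: `C` symmetric, `|C v|² ≤ K1² |v|²`; `F` symmetric and for EVERY choice `β : W → Θ`
`∑_w |F_{w,β w} v|² ≤ ν² |v|²`; `|α| ≤ Ka/m_w`, `|ε| ≤ Ke/m_w`, `|φ_w|² ≤ m_w`,
`∑_w (φ_w·v)²/m_w ≤ 2 |v|²`; `2 (K1 + Ka) ν ≤ 1`.  Put `k = K1 + Ka`.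
* `|A v| ≤ k |v|`; `|F_{w,β w} v| ≤ ν |v|` (one term);
* `|F C' v| ≤ |F A v| + |F A F C' v| ≤ |F A v| + ν k |F C' v|`, so `|F C' v| ≤ 2 |F A v|`;
* `|F A v| ≤ |F C v| + |α| |φ·v| |F φ|`, `|Fφ|² ≤ ν² m`, `α² m ≤ Ka²/m`, so
  `∑ |F A v|² ≤ 2 ν² K1² |v|² + 2 ν² Ka² · 2 |v|² ≤ 4 ν² k² |v|²`, `∑ |F C' v|² ≤ 16 ν² k² |v|²`;
* `noise`: `|J v|² ≤ 2 k² |F C' v|² + 2 ε² |φ|² (φ·v)²`:
  `∑ |J v|² ≤ (32 k⁴ ν² + 4 Ke²) |v|²`;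
* `resid`: `J + C F C = -α φφᵀ F A - α C F φφᵀ + A F A F C' + ε φφᵀ`
  (`A F C' = A F A - A F A F C'`, `A F A = C F C + α φφᵀ F A + α C F φφᵀ`), so
  `|∑ v'·(J + C F C) v| ≤ √2 Ka · 2 ν k + √2 Ka ν K1 + 2 ν k · k · 4 ν k + 2 Ke`
  times `|v'| |v|`, and this is `≤ 9 k² ν + 2 Ke`
  (`√2 · 2 ≤ 3`, `8 ν² k³ ≤ 4 k² ν`). -/

set_option autoImplicit false

open Finset Matrix

noncomputable section

namespace Pool.Agent.ANS.Form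

variable {W Θ κ : Type} [Fintype W] [Fintype κ]

/-- the data of one step at one configuration -/
structure Hy (C : Matrix κ κ ℝ) (F C' : W → Θ → Matrix κ κ ℝ) (φ : W → κ → ℝ)
    (α ε : W → Θ → ℝ) (m : W → ℝ) (K1 Ka Ke ν : ℝ) : Prop where
  hK1 : 0 ≤ K1
  hKa : 0 ≤ Ka
  hKe : 0 ≤ Ke
  hν : 0 ≤ ν
  Cs : C.IsSymm
  Cn : ∀ v : κ → ℝ, (C *ᵥ v) ⬝ᵥ (C *ᵥ v) ≤ K1 ^ 2 * (v ⬝ᵥ v)
  Fs : ∀ w b, (F w b).IsSymm
  Fn : ∀ (β : W → Θ) (v : κ → ℝ),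
    ∑ w, (F w (β w) *ᵥ v) ⬝ᵥ (F w (β w) *ᵥ v) ≤ ν ^ 2 * (v ⬝ᵥ v)
  m0 : ∀ w, 0 < m w
  al : ∀ w b, |α w b| ≤ Ka / m w
  ep : ∀ w b, |ε w b| ≤ Ke / m w
  ph : ∀ w, φ w ⬝ᵥ φ w ≤ m w
  phs : ∀ v : κ → ℝ, ∑ w, (φ w ⬝ᵥ v) ^ 2 / m w ≤ 2 * (v ⬝ᵥ v)
  id : ∀ w b, C' w b = (C + α w b • vecMulVec (φ w) (φ w)) -
    (C + α w b • vecMulVec (φ w) (φ w)) * F w b * C' w b
  sm : 2 * (K1 + Ka) * ν ≤ 1

/-- the increment -/
def Jm (C : Matrix κ κ ℝ) (C' : W → Θ → Matrix κ κ ℝ) (φ : W → κ → ℝ) (α ε : W → Θ → ℝ)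
    (w : W) (b : Θ) : Matrix κ κ ℝ :=
  C' w b - C - (α w b - ε w b) • vecMulVec (φ w) (φ w)

variable {C : Matrix κ κ ℝ} {F C' : W → Θ → Matrix κ κ ℝ} {φ : W → κ → ℝ} {α ε : W → Θ → ℝ}
  {m : W → ℝ} {K1 Ka Ke ν : ℝ}

/-- Euclidean norm -/
private def nn (v : κ → ℝ) : ℝ := Real.sqrt (v ⬝ᵥ v)

private lemma dot_self_nonneg (v : κ → ℝ) : 0 ≤ v ⬝ᵥ v :=
  Finset.sum_nonneg fun i _ => mul_self_nonneg (v i)

private lemma nn_nonneg (v : κ → ℝ) : 0 ≤ nn v := Real.sqrt_nonneg _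

private lemma nn_sq (v : κ → ℝ) : nn v ^ 2 = v ⬝ᵥ v := Real.sq_sqrt (dot_self_nonneg v)

private lemma nn_eq (v : κ → ℝ) : nn v = ‖(WithLp.toLp 2 v : EuclideanSpace ℝ κ)‖ := by
  rw [EuclideanSpace.norm_eq]
  unfold nn dotProduct
  congr 1
  refine Finset.sum_congr rfl fun i _ => ?_
  rw [Real.norm_eq_abs, sq_abs, sq]

private lemma nn_add (u v : κ → ℝ) : nn (u + v) ≤ nn u + nn v := by
  rw [nn_eq, nn_eq, nn_eq, WithLp.toLp_add]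
  exact norm_add_le _ _

private lemma nn_sub (u v : κ → ℝ) : nn (u - v) ≤ nn u + nn v := by
  rw [nn_eq, nn_eq, nn_eq, WithLp.toLp_sub]
  exact norm_sub_le _ _

private lemma nn_smul (c : ℝ) (v : κ → ℝ) : nn (c • v) = |c| * nn v := by
  rw [nn_eq, nn_eq, WithLp.toLp_smul, norm_smul, Real.norm_eq_abs]

private lemma dot_le (u v : κ → ℝ) : |u ⬝ᵥ v| ≤ nn u * nn v := by
  have h1 : (u ⬝ᵥ v) ^ 2 ≤ (nn u * nn v) ^ 2 := by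
    rw [mul_pow, nn_sq, nn_sq]
    have := Finset.sum_mul_sq_le_sq_mul_sq Finset.univ u v
    unfold dotProduct
    simpa only [sq] using this
  exact abs_le_of_sq_le_sq h1 (mul_nonneg (nn_nonneg _) (nn_nonneg _))

private lemma nn_le_of {u : κ → ℝ} {a : ℝ} (ha : 0 ≤ a) (h : u ⬝ᵥ u ≤ a ^ 2) : nn u ≤ a := by
  rw [← nn_sq] at h
  exact (pow_le_pow_iff_left₀ (nn_nonneg _) ha two_ne_zero).1 h

private lemma cs {a b : W → ℝ} {A B : ℝ} (hA : 0 ≤ A) (hB : 0 ≤ B)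
    (h1 : ∑ w, a w ^ 2 ≤ A ^ 2) (h2 : ∑ w, b w ^ 2 ≤ B ^ 2) : ∑ w, a w * b w ≤ A * B := by
  refine (Real.sum_mul_le_sqrt_mul_sqrt _ _ _).trans ?_
  refine mul_le_mul ?_ ?_ (Real.sqrt_nonneg _) hA
  · exact Real.sqrt_le_iff.2 ⟨hA, h1⟩
  · exact Real.sqrt_le_iff.2 ⟨hB, h2⟩

/-- the matrix `A` -/
private def Am (C : Matrix κ κ ℝ) (φ : W → κ → ℝ) (α : W → Θ → ℝ) (w : W) (b : Θ) :
    Matrix κ κ ℝ := C + α w b • vecMulVec (φ w) (φ w)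

private lemma vmv (p v : κ → ℝ) : vecMulVec p p *ᵥ v = (p ⬝ᵥ v) • p := by
  ext i
  simp only [mulVec, dotProduct, vecMulVec_apply, Pi.smul_apply, smul_eq_mul, Finset.sum_mul]
  exact Finset.sum_congr rfl fun j _ => by ring

private lemma Am_v (w : W) (b : Θ) (v : κ → ℝ) :
    Am C φ α w b *ᵥ v = C *ᵥ v + (α w b * (φ w ⬝ᵥ v)) • φ w := by
  unfold Am
  rw [add_mulVec, smul_mulVec, vmv, smul_smul]

private lemma sdot {M : Matrix κ κ ℝ} (hM : M.IsSymm) (u v : κ → ℝ) :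
    u ⬝ᵥ (M *ᵥ v) = (M *ᵥ u) ⬝ᵥ v := by
  rw [dotProduct_mulVec, ← mulVec_transpose, hM.eq]

namespace Hy

variable (h : Hy C F C' φ α ε m K1 Ka Ke ν)

include h

private lemma k0 : 0 ≤ K1 + Ka := add_nonneg h.hK1 h.hKa

private lemma nC (v : κ → ℝ) : nn (C *ᵥ v) ≤ K1 * nn v := by
  refine nn_le_of (mul_nonneg h.hK1 (nn_nonneg _)) ?_
  rw [mul_pow, nn_sq]
  exact h.Cn v

private lemma nφ (w : W) : nn (φ w) ≤ Real.sqrt (m w) := Real.sqrt_le_sqrt (h.ph w)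

/-- `|c| |φ| ≤ K / √m` -/
private lemma coef {c K : ℝ} (hK : 0 ≤ K) (w : W) (hc : |c| ≤ K / m w) :
    |c| * nn (φ w) ≤ K / Real.sqrt (m w) := by
  have hm := h.m0 w
  have hs : 0 < Real.sqrt (m w) := Real.sqrt_pos.2 hm
  have h1 : |c| * nn (φ w) ≤ K / m w * Real.sqrt (m w) :=
    mul_le_mul hc (h.nφ w) (nn_nonneg _) (div_nonneg hK hm.le)
  refine h1.trans (le_of_eq ?_)
  rw [div_mul_eq_mul_div, div_eq_div_iff hm.ne' hs.ne', mul_assoc, Real.mul_self_sqrt hm.le]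

private lemma one {c K : ℝ} (hK : 0 ≤ K) (w : W) (hc : |c| ≤ K / m w) (v : κ → ℝ) :
    |c| * nn (φ w) * |φ w ⬝ᵥ v| ≤ K * nn v := by
  have hm := h.m0 w
  have hs : 0 < Real.sqrt (m w) := Real.sqrt_pos.2 hm
  have h1 := h.coef hK w hc
  have h2 : |φ w ⬝ᵥ v| ≤ Real.sqrt (m w) * nn v :=
    (dot_le _ _).trans (mul_le_mul_of_nonneg_right (h.nφ w) (nn_nonneg _))
  calc |c| * nn (φ w) * |φ w ⬝ᵥ v| ≤ K / Real.sqrt (m w) * (Real.sqrt (m w) * nn v) :=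
        mul_le_mul h1 h2 (abs_nonneg _) (div_nonneg hK hs.le)
    _ = K * nn v := by field_simp

private lemma nA (w : W) (b : Θ) (v : κ → ℝ) : nn (Am C φ α w b *ᵥ v) ≤ (K1 + Ka) * nn v := by
  rw [Am_v]
  refine (nn_add _ _).trans ?_
  rw [nn_smul, abs_mul, add_mul]
  refine add_le_add (h.nC v) ?_
  have := h.one h.hKa w (h.al w b) v
  calc |α w b| * |φ w ⬝ᵥ v| * nn (φ w) = |α w b| * nn (φ w) * |φ w ⬝ᵥ v| := by ring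
    _ ≤ _ := this

private lemma nF (w : W) (b : Θ) (v : κ → ℝ) : nn (F w b *ᵥ v) ≤ ν * nn v := by
  refine nn_le_of (mul_nonneg h.hν (nn_nonneg _)) ?_
  rw [mul_pow, nn_sq]
  refine le_trans ?_ (h.Fn (fun _ => b) v)
  exact Finset.single_le_sum (f := fun w => (F w b *ᵥ v) ⬝ᵥ (F w b *ᵥ v))
    (fun w _ => dot_self_nonneg _) (Finset.mem_univ w)

private lemma C'_v (w : W) (b : Θ) (v : κ → ℝ) :
    C' w b *ᵥ v = Am C φ α w b *ᵥ v - Am C φ α w b *ᵥ (F w b *ᵥ (C' w b *ᵥ v)) := by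
  conv_lhs => rw [h.id w b]
  rw [sub_mulVec, ← mulVec_mulVec, ← mulVec_mulVec]
  rfl

private lemma nFC' (w : W) (b : Θ) (v : κ → ℝ) :
    nn (F w b *ᵥ (C' w b *ᵥ v)) ≤ 2 * nn (F w b *ᵥ (Am C φ α w b *ᵥ v)) := by
  have h1 : F w b *ᵥ (C' w b *ᵥ v) = F w b *ᵥ (Am C φ α w b *ᵥ v) -
      F w b *ᵥ (Am C φ α w b *ᵥ (F w b *ᵥ (C' w b *ᵥ v))) := by
    conv_lhs => rw [h.C'_v w b v]
    rw [mulVec_sub]
  have h2 := nn_sub (F w b *ᵥ (Am C φ α w b *ᵥ v))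
    (F w b *ᵥ (Am C φ α w b *ᵥ (F w b *ᵥ (C' w b *ᵥ v))))
  rw [← h1] at h2
  have h3 := h.nF w b (Am C φ α w b *ᵥ (F w b *ᵥ (C' w b *ᵥ v)))
  have h4 := h.nA w b (F w b *ᵥ (C' w b *ᵥ v))
  have h5 := nn_nonneg (F w b *ᵥ (C' w b *ᵥ v))
  have h6 : nn (F w b *ᵥ (Am C φ α w b *ᵥ (F w b *ᵥ (C' w b *ᵥ v)))) ≤
      (K1 + Ka) * ν * nn (F w b *ᵥ (C' w b *ᵥ v)) := by
    refine h3.trans ((mul_le_mul_of_nonneg_left h4 h.hν).trans (le_of_eq ?_))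
    ring
  have h7 : (K1 + Ka) * ν * nn (F w b *ᵥ (C' w b *ᵥ v)) ≤
      1 / 2 * nn (F w b *ᵥ (C' w b *ᵥ v)) := by
    refine mul_le_mul_of_nonneg_right ?_ h5
    have := h.sm
    linarith
  linarith

private lemma sφ (v : κ → ℝ) :
    ∑ w, (|φ w ⬝ᵥ v| / Real.sqrt (m w)) ^ 2 ≤ 2 * nn v ^ 2 := by
  rw [nn_sq]
  refine le_trans (le_of_eq ?_) (h.phs v)
  refine Finset.sum_congr rfl fun w _ => ?_
  rw [div_pow, sq_abs, Real.sq_sqrt (h.m0 w).le]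

private lemma sφ' (v : κ → ℝ) :
    ∑ w, (|φ w ⬝ᵥ v| / Real.sqrt (m w)) ^ 2 ≤ (Real.sqrt 2 * nn v) ^ 2 := by
  rw [mul_pow, Real.sq_sqrt (by norm_num : (0:ℝ) ≤ 2)]
  exact h.sφ v

private lemma sFC (β : W → Θ) (v : κ → ℝ) :
    ∑ w, nn (F w (β w) *ᵥ (C *ᵥ v)) ^ 2 ≤ (ν * K1 * nn v) ^ 2 := by
  have h1 := h.Fn β (C *ᵥ v)
  have h2 : ∑ w, nn (F w (β w) *ᵥ (C *ᵥ v)) ^ 2 =
      ∑ w, (F w (β w) *ᵥ (C *ᵥ v)) ⬝ᵥ (F w (β w) *ᵥ (C *ᵥ v)) :=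
    Finset.sum_congr rfl fun w _ => nn_sq _
  rw [h2]
  refine h1.trans ?_
  have h3 := h.Cn v
  calc ν ^ 2 * ((C *ᵥ v) ⬝ᵥ (C *ᵥ v)) ≤ ν ^ 2 * (K1 ^ 2 * (v ⬝ᵥ v)) :=
        mul_le_mul_of_nonneg_left h3 (sq_nonneg _)
    _ = (ν * K1 * nn v) ^ 2 := by rw [← nn_sq]; ring

private lemma nFA (w : W) (b : Θ) (v : κ → ℝ) :
    nn (F w b *ᵥ (Am C φ α w b *ᵥ v)) ≤ nn (F w b *ᵥ (C *ᵥ v)) +
      Ka * ν * (|φ w ⬝ᵥ v| / Real.sqrt (m w)) := by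
  rw [Am_v, mulVec_add, mulVec_smul]
  refine (nn_add _ _).trans (add_le_add le_rfl ?_)
  rw [nn_smul, abs_mul]
  have h1 := h.nF w b (φ w)
  have h2 := h.coef h.hKa w (h.al w b)
  calc |α w b| * |φ w ⬝ᵥ v| * nn (F w b *ᵥ φ w) ≤ |α w b| * |φ w ⬝ᵥ v| * (ν * nn (φ w)) :=
        mul_le_mul_of_nonneg_left h1 (mul_nonneg (abs_nonneg _) (abs_nonneg _))
    _ = (|α w b| * nn (φ w)) * (ν * |φ w ⬝ᵥ v|) := by ring
    _ ≤ (Ka / Real.sqrt (m w)) * (ν * |φ w ⬝ᵥ v|) :=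
        mul_le_mul_of_nonneg_right h2 (mul_nonneg h.hν (abs_nonneg _))
    _ = Ka * ν * (|φ w ⬝ᵥ v| / Real.sqrt (m w)) := by ring

private lemma sFA (β : W → Θ) (v : κ → ℝ) :
    ∑ w, nn (F w (β w) *ᵥ (Am C φ α w (β w) *ᵥ v)) ^ 2 ≤ (2 * ν * (K1 + Ka) * nn v) ^ 2 := by
  have h1 : ∀ w, nn (F w (β w) *ᵥ (Am C φ α w (β w) *ᵥ v)) ^ 2 ≤
      2 * nn (F w (β w) *ᵥ (C *ᵥ v)) ^ 2 +
        2 * (Ka * ν) ^ 2 * (|φ w ⬝ᵥ v| / Real.sqrt (m w)) ^ 2 := by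
    intro w
    have h2 := h.nFA w (β w) v
    have h3 := nn_nonneg (F w (β w) *ᵥ (Am C φ α w (β w) *ᵥ v))
    have h4 : nn (F w (β w) *ᵥ (Am C φ α w (β w) *ᵥ v)) ^ 2 ≤
        (nn (F w (β w) *ᵥ (C *ᵥ v)) + Ka * ν * (|φ w ⬝ᵥ v| / Real.sqrt (m w))) ^ 2 :=
      pow_le_pow_left₀ h3 h2 2
    nlinarith [sq_nonneg (nn (F w (β w) *ᵥ (C *ᵥ v)) - Ka * ν * (|φ w ⬝ᵥ v| / Real.sqrt (m w)))]
  refine (Finset.sum_le_sum fun w _ => h1 w).trans ?_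
  rw [Finset.sum_add_distrib, ← Finset.mul_sum, ← Finset.mul_sum]
  have h5 := h.sFC β v
  have h6 := h.sφ v
  have h7 : 2 * (Ka * ν) ^ 2 * ∑ w, (|φ w ⬝ᵥ v| / Real.sqrt (m w)) ^ 2 ≤
      2 * (Ka * ν) ^ 2 * (2 * nn v ^ 2) :=
    mul_le_mul_of_nonneg_left h6 (by positivity)
  have h8 : (2 * ν * (K1 + Ka) * nn v) ^ 2 =
      2 * (ν * K1 * nn v) ^ 2 + 2 * (Ka * ν) ^ 2 * (2 * nn v ^ 2) +
        ν ^ 2 * nn v ^ 2 * (2 * K1 ^ 2 + 8 * (K1 * Ka)) := by ring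
  have h9 : 0 ≤ ν ^ 2 * nn v ^ 2 * (2 * K1 ^ 2 + 8 * (K1 * Ka)) := by
    have := mul_nonneg h.hK1 h.hKa
    positivity
  linarith

private lemma sFC' (β : W → Θ) (v : κ → ℝ) :
    ∑ w, nn (F w (β w) *ᵥ (C' w (β w) *ᵥ v)) ^ 2 ≤ (4 * ν * (K1 + Ka) * nn v) ^ 2 := by
  have h1 : ∀ w, nn (F w (β w) *ᵥ (C' w (β w) *ᵥ v)) ^ 2 ≤
      4 * nn (F w (β w) *ᵥ (Am C φ α w (β w) *ᵥ v)) ^ 2 := by
    intro w
    have h2 := pow_le_pow_left₀ (nn_nonneg _) (h.nFC' w (β w) v) 2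
    refine h2.trans (le_of_eq ?_)
    ring
  refine (Finset.sum_le_sum fun w _ => h1 w).trans ?_
  rw [← Finset.mul_sum]
  have h3 := h.sFA β v
  have h4 : (4 * ν * (K1 + Ka) * nn v) ^ 2 = 4 * (2 * ν * (K1 + Ka) * nn v) ^ 2 := by ring
  linarith

private lemma J_v (w : W) (b : Θ) (v : κ → ℝ) :
    Jm C C' φ α ε w b *ᵥ v = (ε w b * (φ w ⬝ᵥ v)) • φ w -
      Am C φ α w b *ᵥ (F w b *ᵥ (C' w b *ᵥ v)) := by
  unfold Jm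
  rw [sub_mulVec, sub_mulVec, smul_mulVec, vmv, smul_smul]
  have e := h.C'_v w b v
  have e2 := Am_v (C := C) (φ := φ) (α := α) w b v
  obtain ⟨y, hy⟩ : ∃ y, y = Am C φ α w b *ᵥ (F w b *ᵥ (C' w b *ᵥ v)) := ⟨_, rfl⟩
  rw [← hy] at e ⊢
  rw [e, e2, sub_mul, sub_smul]
  abel

end Hy

theorem Hy.noise (h : Hy C F C' φ α ε m K1 Ka Ke ν) (β : W → Θ) (v : κ → ℝ) :
    ∑ w, (Jm C C' φ α ε w (β w) *ᵥ v) ⬝ᵥ (Jm C C' φ α ε w (β w) *ᵥ v) ≤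
      (32 * (K1 + Ka) ^ 4 * ν ^ 2 + 4 * Ke ^ 2) * (v ⬝ᵥ v) := by
  have h1 : ∀ w, (Jm C C' φ α ε w (β w) *ᵥ v) ⬝ᵥ (Jm C C' φ α ε w (β w) *ᵥ v) ≤
      2 * Ke ^ 2 * (|φ w ⬝ᵥ v| / Real.sqrt (m w)) ^ 2 +
        2 * (K1 + Ka) ^ 2 * nn (F w (β w) *ᵥ (C' w (β w) *ᵥ v)) ^ 2 := by
    intro w
    rw [← nn_sq, h.J_v]
    have h2 : nn ((ε w (β w) * (φ w ⬝ᵥ v)) • φ w -
        Am C φ α w (β w) *ᵥ (F w (β w) *ᵥ (C' w (β w) *ᵥ v))) ≤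
        Ke * (|φ w ⬝ᵥ v| / Real.sqrt (m w)) +
          (K1 + Ka) * nn (F w (β w) *ᵥ (C' w (β w) *ᵥ v)) := by
      refine (nn_sub _ _).trans (add_le_add ?_ (h.nA w (β w) _))
      rw [nn_smul, abs_mul]
      have h3 := h.coef h.hKe w (h.ep w (β w))
      calc |ε w (β w)| * |φ w ⬝ᵥ v| * nn (φ w) = (|ε w (β w)| * nn (φ w)) * |φ w ⬝ᵥ v| := by ring
        _ ≤ (Ke / Real.sqrt (m w)) * |φ w ⬝ᵥ v| := mul_le_mul_of_nonneg_right h3 (abs_nonneg _)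
        _ = Ke * (|φ w ⬝ᵥ v| / Real.sqrt (m w)) := by ring
    have h4 := pow_le_pow_left₀ (nn_nonneg _) h2 2
    refine h4.trans ?_
    nlinarith [sq_nonneg (Ke * (|φ w ⬝ᵥ v| / Real.sqrt (m w)) -
      (K1 + Ka) * nn (F w (β w) *ᵥ (C' w (β w) *ᵥ v)))]
  refine (Finset.sum_le_sum fun w _ => h1 w).trans ?_
  rw [Finset.sum_add_distrib, ← Finset.mul_sum, ← Finset.mul_sum]
  have h5 : 2 * Ke ^ 2 * ∑ w, (|φ w ⬝ᵥ v| / Real.sqrt (m w)) ^ 2 ≤ 2 * Ke ^ 2 * (2 * nn v ^ 2) :=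
    mul_le_mul_of_nonneg_left (h.sφ v) (by positivity)
  have h6 : 2 * (K1 + Ka) ^ 2 * ∑ w, nn (F w (β w) *ᵥ (C' w (β w) *ᵥ v)) ^ 2 ≤
      2 * (K1 + Ka) ^ 2 * (4 * ν * (K1 + Ka) * nn v) ^ 2 :=
    mul_le_mul_of_nonneg_left (h.sFC' β v) (by positivity)
  rw [← nn_sq]
  have h7 : (32 * (K1 + Ka) ^ 4 * ν ^ 2 + 4 * Ke ^ 2) * nn v ^ 2 =
      2 * Ke ^ 2 * (2 * nn v ^ 2) + 2 * (K1 + Ka) ^ 2 * (4 * ν * (K1 + Ka) * nn v) ^ 2 := by ring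
  linarith

private lemma Am_symm (hC : C.IsSymm) (w : W) (b : Θ) : (Am C φ α w b).IsSymm := by
  unfold Am
  refine Matrix.IsSymm.add hC (Matrix.IsSymm.smul ?_ _)
  ext i j
  simp only [transpose_apply, vecMulVec_apply]
  ring

theorem Hy.resid (h : Hy C F C' φ α ε m K1 Ka Ke ν) (β : W → Θ) (v' v : κ → ℝ) :
    |∑ w, v' ⬝ᵥ ((Jm C C' φ α ε w (β w) + C * F w (β w) * C) *ᵥ v)| ≤
      (9 * (K1 + Ka) ^ 2 * ν + 2 * Ke) * (Real.sqrt (v' ⬝ᵥ v') * Real.sqrt (v ⬝ᵥ v)) := by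
  have hk := h.k0
  set k := K1 + Ka with hkdef
  -- abbreviations
  let q : (κ → ℝ) → W → ℝ := fun u w => |φ w ⬝ᵥ u| / Real.sqrt (m w)
  let fA : (κ → ℝ) → W → ℝ := fun u w => nn (F w (β w) *ᵥ (Am C φ α w (β w) *ᵥ u))
  let fC : (κ → ℝ) → W → ℝ := fun u w => nn (F w (β w) *ᵥ (C *ᵥ u))
  let fC' : (κ → ℝ) → W → ℝ := fun u w => nn (F w (β w) *ᵥ (C' w (β w) *ᵥ u))
  have key : ∀ w, |v' ⬝ᵥ ((Jm C C' φ α ε w (β w) + C * F w (β w) * C) *ᵥ v)| ≤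
      Ka * (q v' w * fA v w) + Ka * (fC v' w * q v w) + k * (fA v' w * fC' v w) +
        Ke * (q v' w * q v w) := by
    intro w
    set b := β w with hb
    set A := Am C φ α w b with hA
    have hs : 0 < Real.sqrt (m w) := Real.sqrt_pos.2 (h.m0 w)
    have hAs : A.IsSymm := Am_symm h.Cs w b
    -- the vector identity
    have e1 : (Jm C C' φ α ε w b + C * F w b * C) *ᵥ v =
        A *ᵥ (F w b *ᵥ (A *ᵥ (F w b *ᵥ (C' w b *ᵥ v)))) -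
          (α w b * (φ w ⬝ᵥ (F w b *ᵥ (A *ᵥ v)))) • φ w -
          (α w b * (φ w ⬝ᵥ v)) • (C *ᵥ (F w b *ᵥ φ w)) + (ε w b * (φ w ⬝ᵥ v)) • φ w := by
      rw [add_mulVec, h.J_v, ← mulVec_mulVec, ← mulVec_mulVec]
      have e2 : F w b *ᵥ (C' w b *ᵥ v) =
          F w b *ᵥ (A *ᵥ v) - F w b *ᵥ (A *ᵥ (F w b *ᵥ (C' w b *ᵥ v))) := by
        conv_lhs => rw [h.C'_v w b v]
        rw [mulVec_sub]
      have e3 : A *ᵥ (F w b *ᵥ (C' w b *ᵥ v)) = A *ᵥ (F w b *ᵥ (A *ᵥ v)) -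
          A *ᵥ (F w b *ᵥ (A *ᵥ (F w b *ᵥ (C' w b *ᵥ v)))) := by
        conv_lhs => rw [e2]
        rw [mulVec_sub]
      have e4 : A *ᵥ (F w b *ᵥ (A *ᵥ v)) = C *ᵥ (F w b *ᵥ (A *ᵥ v)) +
          (α w b * (φ w ⬝ᵥ (F w b *ᵥ (A *ᵥ v)))) • φ w := Am_v w b _
      have e5 : C *ᵥ (F w b *ᵥ (A *ᵥ v)) = C *ᵥ (F w b *ᵥ (C *ᵥ v)) +
          (α w b * (φ w ⬝ᵥ v)) • (C *ᵥ (F w b *ᵥ φ w)) := by
        rw [hA, Am_v, mulVec_add, mulVec_add, mulVec_smul, mulVec_smul]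
      rw [← hA]
      obtain ⟨y, hy⟩ : ∃ y, y = A *ᵥ (F w b *ᵥ (A *ᵥ (F w b *ᵥ (C' w b *ᵥ v)))) := ⟨_, rfl⟩
      rw [← hy] at e3 ⊢
      rw [e3, e4, e5]
      abel
    rw [e1, dotProduct_add, dotProduct_sub, dotProduct_sub, dotProduct_smul, dotProduct_smul,
      dotProduct_smul]
    simp only [smul_eq_mul]
    have t1 : |v' ⬝ᵥ (A *ᵥ (F w b *ᵥ (A *ᵥ (F w b *ᵥ (C' w b *ᵥ v)))))| ≤
        k * (fA v' w * fC' v w) := by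
      rw [sdot hAs, sdot (h.Fs w b)]
      refine (dot_le _ _).trans ?_
      have := h.nA w b (F w b *ᵥ (C' w b *ᵥ v))
      calc nn (F w b *ᵥ (A *ᵥ v')) * nn (A *ᵥ (F w b *ᵥ (C' w b *ᵥ v))) ≤
          nn (F w b *ᵥ (A *ᵥ v')) * (k * nn (F w b *ᵥ (C' w b *ᵥ v))) :=
            mul_le_mul_of_nonneg_left this (nn_nonneg _)
        _ = k * (fA v' w * fC' v w) := by
            show _ = k * (nn (F w (β w) *ᵥ (Am C φ α w (β w) *ᵥ v')) *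
              nn (F w (β w) *ᵥ (C' w (β w) *ᵥ v)))
            rw [← hb, ← hA]
            ring
    have t2 : |α w b * (φ w ⬝ᵥ (F w b *ᵥ (A *ᵥ v))) * (v' ⬝ᵥ φ w)| ≤
        Ka * (q v' w * fA v w) := by
      rw [abs_mul, abs_mul, dotProduct_comm v' (φ w)]
      have h1 := dot_le (φ w) (F w b *ᵥ (A *ᵥ v))
      have h2 := h.coef h.hKa w (h.al w b)
      calc |α w b| * |φ w ⬝ᵥ (F w b *ᵥ (A *ᵥ v))| * |φ w ⬝ᵥ v'| ≤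
          |α w b| * (nn (φ w) * nn (F w b *ᵥ (A *ᵥ v))) * |φ w ⬝ᵥ v'| :=
            mul_le_mul_of_nonneg_right (mul_le_mul_of_nonneg_left h1 (abs_nonneg _)) (abs_nonneg _)
        _ = (|α w b| * nn (φ w)) * (nn (F w b *ᵥ (A *ᵥ v)) * |φ w ⬝ᵥ v'|) := by ring
        _ ≤ (Ka / Real.sqrt (m w)) * (nn (F w b *ᵥ (A *ᵥ v)) * |φ w ⬝ᵥ v'|) :=
            mul_le_mul_of_nonneg_right h2 (mul_nonneg (nn_nonneg _) (abs_nonneg _))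
        _ = Ka * (q v' w * fA v w) := by
            show _ = Ka * (|φ w ⬝ᵥ v'| / Real.sqrt (m w) *
              nn (F w (β w) *ᵥ (Am C φ α w (β w) *ᵥ v)))
            rw [← hb, ← hA]
            ring
    have t3 : |α w b * (φ w ⬝ᵥ v) * (v' ⬝ᵥ (C *ᵥ (F w b *ᵥ φ w)))| ≤
        Ka * (fC v' w * q v w) := by
      rw [abs_mul, abs_mul, sdot h.Cs, sdot (h.Fs w b)]
      have h1 := dot_le (F w b *ᵥ (C *ᵥ v')) (φ w)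
      have h2 := h.coef h.hKa w (h.al w b)
      calc |α w b| * |φ w ⬝ᵥ v| * |(F w b *ᵥ (C *ᵥ v')) ⬝ᵥ φ w| ≤
          |α w b| * |φ w ⬝ᵥ v| * (nn (F w b *ᵥ (C *ᵥ v')) * nn (φ w)) :=
            mul_le_mul_of_nonneg_left h1 (mul_nonneg (abs_nonneg _) (abs_nonneg _))
        _ = (|α w b| * nn (φ w)) * (nn (F w b *ᵥ (C *ᵥ v')) * |φ w ⬝ᵥ v|) := by ring
        _ ≤ (Ka / Real.sqrt (m w)) * (nn (F w b *ᵥ (C *ᵥ v')) * |φ w ⬝ᵥ v|) :=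
            mul_le_mul_of_nonneg_right h2 (mul_nonneg (nn_nonneg _) (abs_nonneg _))
        _ = Ka * (fC v' w * q v w) := by
            show _ = Ka * (nn (F w (β w) *ᵥ (C *ᵥ v')) * (|φ w ⬝ᵥ v| / Real.sqrt (m w)))
            rw [← hb]
            ring
    have t4 : |ε w b * (φ w ⬝ᵥ v) * (v' ⬝ᵥ φ w)| ≤ Ke * (q v' w * q v w) := by
      rw [abs_mul, abs_mul, dotProduct_comm v' (φ w)]
      have h1 := h.ep w b
      have hm := h.m0 w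
      calc |ε w b| * |φ w ⬝ᵥ v| * |φ w ⬝ᵥ v'| ≤ Ke / m w * |φ w ⬝ᵥ v| * |φ w ⬝ᵥ v'| :=
            mul_le_mul_of_nonneg_right (mul_le_mul_of_nonneg_right h1 (abs_nonneg _))
              (abs_nonneg _)
        _ = Ke * (q v' w * q v w) := by
            show _ = Ke * (|φ w ⬝ᵥ v'| / Real.sqrt (m w) * (|φ w ⬝ᵥ v| / Real.sqrt (m w)))
            rw [div_mul_div_comm, Real.mul_self_sqrt hm.le]
            ring
    have a1 := abs_le.1 t1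
    have a2 := abs_le.1 t2
    have a3 := abs_le.1 t3
    have a4 := abs_le.1 t4
    rw [abs_le]
    constructor <;> linarith [a1.1, a1.2, a2.1, a2.2, a3.1, a3.2, a4.1, a4.2]
  have hv' := nn_nonneg v'
  have hv := nn_nonneg v
  have s2 : 0 ≤ Real.sqrt 2 := Real.sqrt_nonneg _
  have s22 : Real.sqrt 2 * Real.sqrt 2 = 2 := Real.mul_self_sqrt (by norm_num)
  have s15 : Real.sqrt 2 ≤ 3 / 2 := by
    rw [Real.sqrt_le_left (by norm_num)]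
    norm_num
  have c1 : ∑ w, q v' w * fA v w ≤ (Real.sqrt 2 * nn v') * (2 * ν * k * nn v) :=
    cs (mul_nonneg s2 hv') (mul_nonneg (mul_nonneg (mul_nonneg (by norm_num) h.hν) hk) hv)
      (h.sφ' v') (h.sFA β v)
  have c2 : ∑ w, fC v' w * q v w ≤ (ν * K1 * nn v') * (Real.sqrt 2 * nn v) :=
    cs (mul_nonneg (mul_nonneg h.hν h.hK1) hv') (mul_nonneg s2 hv) (h.sFC β v') (h.sφ' v)
  have c3 : ∑ w, fA v' w * fC' v w ≤ (2 * ν * k * nn v') * (4 * ν * k * nn v) :=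
    cs (mul_nonneg (mul_nonneg (mul_nonneg (by norm_num) h.hν) hk) hv')
      (mul_nonneg (mul_nonneg (mul_nonneg (by norm_num) h.hν) hk) hv) (h.sFA β v') (h.sFC' β v)
  have c4 : ∑ w, q v' w * q v w ≤ (Real.sqrt 2 * nn v') * (Real.sqrt 2 * nn v) :=
    cs (mul_nonneg s2 hv') (mul_nonneg s2 hv) (h.sφ' v') (h.sφ' v)
  refine (Finset.abs_sum_le_sum_abs _ _).trans ((Finset.sum_le_sum fun w _ => key w).trans ?_)
  rw [Finset.sum_add_distrib, Finset.sum_add_distrib, Finset.sum_add_distrib,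
    ← Finset.mul_sum, ← Finset.mul_sum, ← Finset.mul_sum, ← Finset.mul_sum]
  show _ ≤ (9 * k ^ 2 * ν + 2 * Ke) * (nn v' * nn v)
  have hvv : 0 ≤ nn v' * nn v := mul_nonneg hv' hv
  have d1 := mul_le_mul_of_nonneg_left c1 h.hKa
  have d2 := mul_le_mul_of_nonneg_left c2 h.hKa
  have d3 := mul_le_mul_of_nonneg_left c3 hk
  have d4 := mul_le_mul_of_nonneg_left c4 h.hKe
  have f1 : Ka * (Real.sqrt 2 * nn v' * (2 * ν * k * nn v)) ≤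
      (3 * k ^ 2 * ν) * (nn v' * nn v) := by
    have g1 : Ka * (Real.sqrt 2 * (2 * ν * k)) ≤ 3 * k ^ 2 * ν := by
      have g2 : Ka ≤ k := by have := h.hK1; linarith
      have g3 : Real.sqrt 2 * (2 * ν * k) ≤ 3 / 2 * (2 * ν * k) :=
        mul_le_mul_of_nonneg_right s15 (mul_nonneg (mul_nonneg (by norm_num) h.hν) hk)
      calc Ka * (Real.sqrt 2 * (2 * ν * k)) ≤ k * (3 / 2 * (2 * ν * k)) :=
            mul_le_mul g2 g3 (mul_nonneg s2 (mul_nonneg (mul_nonneg (by norm_num) h.hν) hk)) hk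
        _ = 3 * k ^ 2 * ν := by ring
    calc Ka * (Real.sqrt 2 * nn v' * (2 * ν * k * nn v)) =
        Ka * (Real.sqrt 2 * (2 * ν * k)) * (nn v' * nn v) := by ring
      _ ≤ _ := mul_le_mul_of_nonneg_right g1 hvv
  have f2 : Ka * (ν * K1 * nn v' * (Real.sqrt 2 * nn v)) ≤
      (3 / 2 * k ^ 2 * ν) * (nn v' * nn v) := by
    have g1 : Ka * (ν * K1 * Real.sqrt 2) ≤ 3 / 2 * k ^ 2 * ν := by
      have g2 : Ka ≤ k := by have := h.hK1; linarith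
      have g4 : K1 ≤ k := by have := h.hKa; linarith
      have g3 : ν * K1 * Real.sqrt 2 ≤ ν * k * (3 / 2) :=
        mul_le_mul (mul_le_mul_of_nonneg_left g4 h.hν) s15 s2 (mul_nonneg h.hν hk)
      calc Ka * (ν * K1 * Real.sqrt 2) ≤ k * (ν * k * (3 / 2)) :=
            mul_le_mul g2 g3 (mul_nonneg (mul_nonneg h.hν h.hK1) s2) hk
        _ = 3 / 2 * k ^ 2 * ν := by ring
    calc Ka * (ν * K1 * nn v' * (Real.sqrt 2 * nn v)) =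
        Ka * (ν * K1 * Real.sqrt 2) * (nn v' * nn v) := by ring
      _ ≤ _ := mul_le_mul_of_nonneg_right g1 hvv
  have f3 : k * (2 * ν * k * nn v' * (4 * ν * k * nn v)) ≤ (4 * k ^ 2 * ν) * (nn v' * nn v) := by
    have g1 : k * (2 * ν * k * (4 * ν * k)) ≤ 4 * k ^ 2 * ν := by
      have g2 : k * (2 * ν * k * (4 * ν * k)) = (4 * k ^ 2 * ν) * (2 * k * ν) := by ring
      rw [g2]
      exact mul_le_of_le_one_right (mul_nonneg (by positivity) h.hν) h.sm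
    calc k * (2 * ν * k * nn v' * (4 * ν * k * nn v)) =
        k * (2 * ν * k * (4 * ν * k)) * (nn v' * nn v) := by ring
      _ ≤ _ := mul_le_mul_of_nonneg_right g1 hvv
  have f4 : Ke * (Real.sqrt 2 * nn v' * (Real.sqrt 2 * nn v)) = 2 * Ke * (nn v' * nn v) := by
    calc Ke * (Real.sqrt 2 * nn v' * (Real.sqrt 2 * nn v)) =
        Ke * (Real.sqrt 2 * Real.sqrt 2) * (nn v' * nn v) := by ring
      _ = _ := by rw [s22]; ring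
  have f5 : 0 ≤ (1 / 2 * k ^ 2 * ν) * (nn v' * nn v) :=
    mul_nonneg (mul_nonneg (by positivity) h.hν) hvv
  have f6 : (9 * k ^ 2 * ν + 2 * Ke) * (nn v' * nn v) = (3 * k ^ 2 * ν) * (nn v' * nn v) +
      (3 / 2 * k ^ 2 * ν) * (nn v' * nn v) + (4 * k ^ 2 * ν) * (nn v' * nn v) +
      2 * Ke * (nn v' * nn v) + (1 / 2 * k ^ 2 * ν) * (nn v' * nn v) := by ring
  linarith

end Pool.Agent.ANS.Form
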