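import Pool.Agent.ANS.Form.Defs

/-! # ANS FORM ALG: exact change of the forms when one site is replaced

`G'_xy = G_xy - u G_xw G_wy`, `η' = η + δ 1_w`, `ρ = 1 - u G_ww`, `G` symmetric.  Everything is a
finite computation.
* `|G'_xy|² = |G_xy|² - 2 Re(u G_xw G_wy conj G_xy) + |u|² |G_xw|² |G_yw|²`.
* `G'_xw = ρ G_xw`, `G'_wy = ρ G_wy`, hence the rows `x = w`, `y = w` of `|G'|²` are `|ρ|² |G_xw|²`.
* `η'_x η'_y (..)(a_x-a_y)(b_x-b_y)`: `η'_x η'_y = η_x η_y + δ (1_{x=w} η_y + η_x 1_{y=w}) + δ² 1_{x=w} 1_{y=w}`;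
  the last term is killed by `a_x - a_y = 0`, the two middle ones give the same sum (symmetry) and
  cancel the `1/2`.
* `bf_eq`: `(1/2) ∑ p_x p_y (a_x-a_y)(b_x-b_y) = (∑ p)(∑ p a' b') - (∑ p a')(∑ p b')` with
  `a' = a - a_w`, `p_x = η_x |G_xw|²`, and `∑ p = Im G_ww` by Ward and symmetry. -/

set_option autoImplicit false

open Finset Matrix

noncomputable section

namespace Pool.Agent.ANS.Form

variable {T : Type} [Fintype T] [DecidableEq T] {G G' : Matrix T T ℂ} {η η' : T → ℝ} {w : T}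
  {u : ℂ} {δ : ℝ}

omit [Fintype T] [DecidableEq T] in
private theorem fa_exp (z a b u : ℂ) : ‖z - u * a * b‖ ^ 2 =
    ‖z‖ ^ 2 - 2 * (u * (a * b * (starRingEnd ℂ) z)).re + ‖u‖ ^ 2 * (‖a‖ ^ 2 * ‖b‖ ^ 2) := by
  have e1 : ∀ v : ℂ, ‖v‖ ^ 2 = v.re * v.re + v.im * v.im := by
    intro v
    rw [← Complex.normSq_eq_norm_sq, Complex.normSq_apply]
  rw [e1, e1, e1, e1, e1]
  simp only [Complex.sub_re, Complex.sub_im, Complex.mul_re, Complex.mul_im, Complex.conj_re,
    Complex.conj_im]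
  ring

theorem qf_upd (hs : ∀ x y, G x y = G y x) (h : Upd G G' η η' w u δ) (a b : T → ℝ) :
    Qf G' η' a b = Qf G η a b - 2 * (u * Tf G η w a b).re + ‖u‖ ^ 2 * Bf G η w a b +
      δ * ‖1 - u * G w w‖ ^ 2 * Gf G η w a b := by
  have hrow : ∀ y, ‖G' w y‖ ^ 2 = ‖1 - u * G w w‖ ^ 2 * ‖G y w‖ ^ 2 := by
    intro y
    rw [h.G, ← mul_pow, ← norm_mul, hs y w]
    congr 2
    ring
  have hcol : ∀ x, ‖G' x w‖ ^ 2 = ‖1 - u * G w w‖ ^ 2 * ‖G x w‖ ^ 2 := by
    intro x
    rw [h.G, ← mul_pow, ← norm_mul]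
    congr 2
    ring
  have hpt : ∀ x y, η' x * η' y * ‖G' x y‖ ^ 2 * ((a x - a y) * (b x - b y)) =
      (η x * η y * ‖G x y‖ ^ 2 * ((a x - a y) * (b x - b y)) -
        2 * (η x * η y * ((a x - a y) * (b x - b y)) *
          (u * (G x w * G w y * (starRingEnd ℂ) (G x y))).re) +
        ‖u‖ ^ 2 * (η x * ‖G x w‖ ^ 2 * (η y * ‖G y w‖ ^ 2) * ((a x - a y) * (b x - b y)))) +
      ((if x = w then δ * ‖1 - u * G w w‖ ^ 2 *
          (η y * ‖G y w‖ ^ 2 * ((a y - a w) * (b y - b w))) else 0) +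
        (if y = w then δ * ‖1 - u * G w w‖ ^ 2 *
          (η x * ‖G x w‖ ^ 2 * ((a x - a w) * (b x - b w))) else 0)) := by
    intro x y
    have he : ‖G' x y‖ ^ 2 = ‖G x y‖ ^ 2 -
        2 * (u * (G x w * G w y * (starRingEnd ℂ) (G x y))).re +
        ‖u‖ ^ 2 * (‖G x w‖ ^ 2 * ‖G y w‖ ^ 2) := by
      rw [h.G, fa_exp, hs y w]
    rw [h.eta, h.eta]
    by_cases hx : x = w
    · subst hx
      by_cases hy : y = x
      · subst hy
        simp
      · rw [if_pos rfl, if_neg hy, if_pos rfl, if_neg hy]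
        have e1 : (η x + δ) * (η y + 0) * ‖G' x y‖ ^ 2 * ((a x - a y) * (b x - b y)) =
            η x * η y * ‖G' x y‖ ^ 2 * ((a x - a y) * (b x - b y)) +
            δ * (η y * ‖G' x y‖ ^ 2 * ((a x - a y) * (b x - b y))) := by ring
        rw [e1]
        nth_rewrite 1 [he]
        rw [hrow]
        ring
    · by_cases hy : y = w
      · subst hy
        rw [if_neg hx, if_pos rfl, if_neg hx, if_pos rfl]
        have e1 : (η x + 0) * (η y + δ) * ‖G' x y‖ ^ 2 * ((a x - a y) * (b x - b y)) =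
            η x * η y * ‖G' x y‖ ^ 2 * ((a x - a y) * (b x - b y)) +
            δ * (η x * ‖G' x y‖ ^ 2 * ((a x - a y) * (b x - b y))) := by ring
        rw [e1]
        nth_rewrite 1 [he]
        rw [hcol]
        ring
      · rw [if_neg hx, if_neg hy, if_neg hx, if_neg hy, he]
        ring
  have hT : (u * Tf G η w a b).re = 1 / 2 * ∑ x, ∑ y, η x * η y * ((a x - a y) * (b x - b y)) *
      (u * (G x w * G w y * (starRingEnd ℂ) (G x y))).re := by
    unfold Tf
    have e1 : u * (1 / 2 * ∑ x, ∑ y, ((η x * η y * ((a x - a y) * (b x - b y)) : ℝ) : ℂ) *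
        (G x w * G w y * (starRingEnd ℂ) (G x y))) =
        (((1 / 2 : ℝ)) : ℂ) * ∑ x, ∑ y, ((η x * η y * ((a x - a y) * (b x - b y)) : ℝ) : ℂ) *
        (u * (G x w * G w y * (starRingEnd ℂ) (G x y))) := by
      rw [mul_left_comm, Finset.mul_sum]
      congr 1
      · push_cast
        ring
      · refine Finset.sum_congr rfl fun x _ => ?_
        rw [Finset.mul_sum]
        refine Finset.sum_congr rfl fun y _ => ?_
        ring
    rw [e1, Complex.re_ofReal_mul, Complex.re_sum]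
    congr 1
    refine Finset.sum_congr rfl fun x _ => ?_
    rw [Complex.re_sum]
    refine Finset.sum_congr rfl fun y _ => ?_
    rw [Complex.re_ofReal_mul]
  rw [hT]
  unfold Qf Bf Gf
  simp only [hpt, Finset.sum_add_distrib, Finset.sum_sub_distrib]
  have e1 : ∑ x, ∑ y, (if x = w then δ * ‖1 - u * G w w‖ ^ 2 *
      (η y * ‖G y w‖ ^ 2 * ((a y - a w) * (b y - b w))) else 0) =
      ∑ y, δ * ‖1 - u * G w w‖ ^ 2 * (η y * ‖G y w‖ ^ 2 * ((a y - a w) * (b y - b w))) := by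
    rw [Finset.sum_comm]
    refine Finset.sum_congr rfl fun y _ => ?_
    rw [Finset.sum_ite_eq' Finset.univ w (fun _ => δ * ‖1 - u * G w w‖ ^ 2 *
      (η y * ‖G y w‖ ^ 2 * ((a y - a w) * (b y - b w)))), if_pos (Finset.mem_univ w)]
  have e2 : ∑ x, ∑ y, (if y = w then δ * ‖1 - u * G w w‖ ^ 2 *
      (η x * ‖G x w‖ ^ 2 * ((a x - a w) * (b x - b w))) else 0) =
      ∑ x, δ * ‖1 - u * G w w‖ ^ 2 * (η x * ‖G x w‖ ^ 2 * ((a x - a w) * (b x - b w))) := by
    refine Finset.sum_congr rfl fun x _ => ?_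
    rw [Finset.sum_ite_eq' Finset.univ w (fun _ => δ * ‖1 - u * G w w‖ ^ 2 *
      (η x * ‖G x w‖ ^ 2 * ((a x - a w) * (b x - b w)))), if_pos (Finset.mem_univ w)]
  rw [e1, e2]
  simp only [← Finset.mul_sum]
  ring

theorem bf_eq (hm : Gm G η) (a b : T → ℝ) :
    Bf G η w a b = (G w w).im * Gf G η w a b - qw G η w a * qw G η w b := by
  have hw : (G w w).im = ∑ x, η x * ‖G x w‖ ^ 2 := by
    rw [hm.ward]
    refine Finset.sum_congr rfl fun x _ => ?_
    rw [hm.sym]
  unfold Bf Gf qw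
  rw [hw]
  obtain ⟨p, hp⟩ : ∃ p : T → ℝ, p = fun x => η x * ‖G x w‖ ^ 2 := ⟨_, rfl⟩
  have hp' : ∀ x, η x * ‖G x w‖ ^ 2 = p x := fun x => by rw [hp]
  simp only [hp']
  have h1 : ∀ x y, p x * p y * ((a x - a y) * (b x - b y)) =
      (p x * ((a x - a w) * (b x - b w))) * p y + p x * (p y * ((a y - a w) * (b y - b w))) -
        (p x * (a w - a x)) * (p y * (b w - b y)) - (p x * (b w - b x)) * (p y * (a w - a y)) := by
    intro x y
    ring
  simp only [h1, Finset.sum_add_distrib, Finset.sum_sub_distrib, ← Finset.mul_sum,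
    ← Finset.sum_mul]
  ring

/-- constants are in the kernel -/
theorem qf_const (a b : T → ℝ) (c : ℝ) : Qf G η (fun x => a x + c) b = Qf G η a b := by
  unfold Qf
  simp only [add_sub_add_right_eq_sub]

theorem tf_const (a b : T → ℝ) (c : ℝ) : Tf G η w (fun x => a x + c) b = Tf G η w a b := by
  unfold Tf
  simp only [add_sub_add_right_eq_sub]

theorem bf_const (a b : T → ℝ) (c : ℝ) : Bf G η w (fun x => a x + c) b = Bf G η w a b := by
  unfold Bf
  simp only [add_sub_add_right_eq_sub]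

theorem gf_const (a b : T → ℝ) (c : ℝ) : Gf G η w (fun x => a x + c) b = Gf G η w a b := by
  unfold Gf
  simp only [add_sub_add_right_eq_sub]

/-- additivity in the first argument -/
theorem tf_add (a a' b : T → ℝ) :
    Tf G η w (fun x => a x + a' x) b = Tf G η w a b + Tf G η w a' b := by
  unfold Tf
  rw [← mul_add, ← Finset.sum_add_distrib]
  congr 1
  refine Finset.sum_congr rfl fun x _ => ?_
  rw [← Finset.sum_add_distrib]
  refine Finset.sum_congr rfl fun y _ => ?_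
  rw [← add_mul, ← Complex.ofReal_add]
  congr 2
  ring

theorem qf_comm (a b : T → ℝ) : Qf G η a b = Qf G η b a := by
  unfold Qf
  congr 1
  refine Finset.sum_congr rfl fun x _ => Finset.sum_congr rfl fun y _ => ?_
  rw [mul_comm (a x - a y)]

theorem tf_comm (a b : T → ℝ) : Tf G η w a b = Tf G η w b a := by
  unfold Tf
  congr 1
  refine Finset.sum_congr rfl fun x _ => Finset.sum_congr rfl fun y _ => ?_
  rw [mul_comm (a x - a y)]

theorem bf_comm (a b : T → ℝ) : Bf G η w a b = Bf G η w b a := by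
  unfold Bf
  congr 1
  refine Finset.sum_congr rfl fun x _ => Finset.sum_congr rfl fun y _ => ?_
  rw [mul_comm (a x - a y)]

theorem gf_comm (a b : T → ℝ) : Gf G η w a b = Gf G η w b a := by
  unfold Gf
  refine Finset.sum_congr rfl fun x _ => ?_
  rw [mul_comm (a x - a w)]

end Pool.Agent.ANS.Form
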