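import Pool.Agent.ANS.Form.Alg

/-! # ANS FORM BD: elementary bounds for the forms of one configuration

`hm : Gm G η`.  `p_x = η_x |G_xw|² ≥ 0`, `∑ p = Im G_ww` (Ward + symmetry).
* `gf_sum`: `∑_w η_w Γ_w(a,b) = 2 Q(a,b)` (definition, exchange the sums; `‖G x w‖ = ‖G w x‖`).
* `bf_le`: `bf_eq` with `a = b`: `B = Im G_ww Γ - q²`.
* `bf_var`: `B_w(a,a) ≤ Im G_ww ∑ η_x |G_xw|² a_x²` and then `|G_xw|² ≤ S` where `η_x ≠ 0`:
  `(1/2) ∑ p_x p_y (a_x-a_y)² = (∑ p)(∑ p a²) - (∑ p a)²`.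
* `gf_sup`: `(a_x-a_w)² ≤ 4 m²`, `∑ p = Im G_ww`.
* Cauchy-Schwarz `cs_q`, `cs_b`, `cs_g`: sums with nonnegative weights
  (`Finset.sum_mul_sq_le_sq_mul_sq` with weights, or `inner_mul_le_norm_mul_norm`).
* `gf_lin`: `|∑ r_w Γ_w(a,b)| ≤ ∑ |r_w| (Γ_w(a,a) Γ_w(b,b))^(1/2) ≤ R ∑ η_w (..)^(1/2)
  ≤ R (∑ η Γ(a,a))^(1/2) (∑ η Γ(b,b))^(1/2) = 2 R (Q(a,a) Q(b,b))^(1/2)`.
* `bf_lin`: the same with `B ≤ Im G_ww Γ`. -/

set_option autoImplicit false
set_option linter.unusedSectionVars false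
set_option linter.unusedVariables false

open Finset Matrix

noncomputable section

namespace Pool.Agent.ANS.Form

variable {T : Type} [Fintype T] [DecidableEq T] {G : Matrix T T ℂ} {η : T → ℝ} {w : T}

/-- Cauchy-Schwarz with weights -/
theorem cs_wt {κ : Type} [Fintype κ] (W A B : κ → ℝ) (hW : ∀ i, 0 ≤ W i) :
    (∑ i, W i * (A i * B i)) ^ 2 ≤ (∑ i, W i * (A i * A i)) * ∑ i, W i * (B i * B i) := by
  have h1 := Finset.sum_mul_sq_le_sq_mul_sq Finset.univ (fun i => Real.sqrt (W i) * A i)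
    (fun i => Real.sqrt (W i) * B i)
  have h2 : ∀ i, Real.sqrt (W i) * A i * (Real.sqrt (W i) * B i) = W i * (A i * B i) := by
    intro i
    have h3 := Real.mul_self_sqrt (hW i)
    linear_combination (A i * B i) * h3
  have h4 : ∀ i, (Real.sqrt (W i) * A i) ^ 2 = W i * (A i * A i) := by
    intro i
    have h3 := Real.mul_self_sqrt (hW i)
    linear_combination (A i * A i) * h3
  have h5 : ∀ i, (Real.sqrt (W i) * B i) ^ 2 = W i * (B i * B i) := by
    intro i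
    have h3 := Real.mul_self_sqrt (hW i)
    linear_combination (B i * B i) * h3
  simp only [h2, h4, h5] at h1
  exact h1

theorem qf_nonneg (hm : Gm G η) (a : T → ℝ) : 0 ≤ Qf G η a a := by
  unfold Qf
  have h1 : 0 ≤ ∑ x, ∑ y, η x * η y * ‖G x y‖ ^ 2 * ((a x - a y) * (a x - a y)) :=
    Finset.sum_nonneg fun x _ => Finset.sum_nonneg fun y _ =>
      mul_nonneg (mul_nonneg (mul_nonneg (hm.eta0 x) (hm.eta0 y)) (sq_nonneg _))
        (mul_self_nonneg _)
  linarith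

theorem gf_nonneg (hm : Gm G η) (w : T) (a : T → ℝ) : 0 ≤ Gf G η w a a := by
  unfold Gf
  exact Finset.sum_nonneg fun x _ => mul_nonneg (mul_nonneg (hm.eta0 x) (sq_nonneg _))
    (mul_self_nonneg _)

theorem bf_nonneg (hm : Gm G η) (w : T) (a : T → ℝ) : 0 ≤ Bf G η w a a := by
  unfold Bf
  have h1 : 0 ≤ ∑ x, ∑ y, η x * ‖G x w‖ ^ 2 * (η y * ‖G y w‖ ^ 2) *
      ((a x - a y) * (a x - a y)) :=
    Finset.sum_nonneg fun x _ => Finset.sum_nonneg fun y _ =>
      mul_nonneg (mul_nonneg (mul_nonneg (hm.eta0 x) (sq_nonneg _))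
        (mul_nonneg (hm.eta0 y) (sq_nonneg _))) (mul_self_nonneg _)
  linarith

theorem io_nonneg (hm : Gm G η) (w : T) : 0 ≤ (G w w).im := by
  rw [hm.ward]
  exact Finset.sum_nonneg fun y _ => mul_nonneg (hm.eta0 y) (sq_nonneg _)

/-- the mass of the row -/
theorem io_col (hm : Gm G η) (w : T) : (G w w).im = ∑ x, η x * ‖G x w‖ ^ 2 := by
  rw [hm.ward]
  refine Finset.sum_congr rfl fun x _ => ?_
  rw [hm.sym]

theorem gf_sum (hm : Gm G η) (a b : T → ℝ) : ∑ w, η w * Gf G η w a b = 2 * Qf G η a b := by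
  unfold Gf Qf
  have h1 : ∑ w, η w * ∑ x, η x * ‖G x w‖ ^ 2 * ((a x - a w) * (b x - b w)) =
      ∑ x, ∑ y, η x * η y * ‖G x y‖ ^ 2 * ((a x - a y) * (b x - b y)) := by
    simp only [Finset.mul_sum]
    rw [Finset.sum_comm]
    refine Finset.sum_congr rfl fun x _ => Finset.sum_congr rfl fun y _ => ?_
    ring
  rw [h1]
  ring

/-- one term of `gf_sum` -/
theorem gf_one (hm : Gm G η) (w : T) (a : T → ℝ) : η w * Gf G η w a a ≤ 2 * Qf G η a a := by
  rw [← gf_sum hm]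
  exact Finset.single_le_sum (f := fun w => η w * Gf G η w a a)
    (fun w _ => mul_nonneg (hm.eta0 w) (gf_nonneg hm w a)) (Finset.mem_univ w)

theorem bf_le (hm : Gm G η) (w : T) (a : T → ℝ) :
    Bf G η w a a ≤ (G w w).im * Gf G η w a a := by
  rw [bf_eq hm]
  have := mul_self_nonneg (qw G η w a)
  linarith

theorem bf_var (hm : Gm G η) (w : T) (a : T → ℝ) {S : ℝ} (hS : ∀ x, η x ≠ 0 → ‖G x w‖ ^ 2 ≤ S) :
    Bf G η w a a ≤ (G w w).im * (S * ∑ x, η x * a x ^ 2) := by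
  obtain ⟨p, hp⟩ : ∃ p : T → ℝ, ∀ x, p x = η x * ‖G x w‖ ^ 2 := ⟨_, fun _ => rfl⟩
  have h1 : Bf G η w a a = (∑ x, p x) * (∑ x, p x * a x ^ 2) - (∑ x, p x * a x) ^ 2 := by
    unfold Bf
    simp only [← hp]
    have e1 : ∑ x, ∑ y, p x * p y * ((a x - a y) * (a x - a y)) =
        ∑ x, ∑ y, (p x * a x ^ 2) * p y - 2 * ∑ x, ∑ y, (p x * a x) * (p y * a y) +
          ∑ x, ∑ y, p x * (p y * a y ^ 2) := by
      rw [Finset.mul_sum, ← Finset.sum_sub_distrib, ← Finset.sum_add_distrib]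
      refine Finset.sum_congr rfl fun x _ => ?_
      rw [Finset.mul_sum, ← Finset.sum_sub_distrib, ← Finset.sum_add_distrib]
      refine Finset.sum_congr rfl fun y _ => ?_
      ring
    rw [e1, ← Finset.sum_mul_sum, ← Finset.sum_mul_sum, ← Finset.sum_mul_sum]
    ring
  rw [h1, io_col hm]
  have h2 : ∑ x, p x * a x ^ 2 ≤ S * ∑ x, η x * a x ^ 2 := by
    rw [Finset.mul_sum]
    refine Finset.sum_le_sum fun x _ => ?_
    rw [hp]
    by_cases hx : η x = 0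
    · rw [hx]
      simp
    · have h3 := hS x hx
      have h4 := mul_nonneg (hm.eta0 x) (sq_nonneg (a x))
      calc η x * ‖G x w‖ ^ 2 * a x ^ 2 = ‖G x w‖ ^ 2 * (η x * a x ^ 2) := by ring
        _ ≤ S * (η x * a x ^ 2) := mul_le_mul_of_nonneg_right h3 h4
  have h3 : 0 ≤ ∑ x, p x := Finset.sum_nonneg fun x _ => by
    rw [hp]
    exact mul_nonneg (hm.eta0 x) (sq_nonneg _)
  have h4 : ∑ x, η x * ‖G x w‖ ^ 2 = ∑ x, p x := Finset.sum_congr rfl fun x _ => (hp x).symm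
  rw [h4]
  have h5 := mul_le_mul_of_nonneg_left h2 h3
  have h6 := sq_nonneg (∑ x, p x * a x)
  linarith

theorem gf_sup (hm : Gm G η) (w : T) (a : T → ℝ) {m : ℝ} (hw : |a w| ≤ m)
    (ha : ∀ x, η x ≠ 0 → |a x| ≤ m) : Gf G η w a a ≤ 4 * m ^ 2 * (G w w).im := by
  rw [io_col hm, Finset.mul_sum]
  unfold Gf
  refine Finset.sum_le_sum fun x _ => ?_
  by_cases hx : η x = 0
  · rw [hx]
    simp
  · have h1 : |a x - a w| ≤ 2 * m := (abs_sub _ _).trans (by linarith [ha x hx])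
    have h2 : (a x - a w) * (a x - a w) ≤ 4 * m ^ 2 := by
      have h3 : (a x - a w) ^ 2 ≤ (2 * m) ^ 2 := sq_le_sq' (by linarith [neg_le_of_abs_le h1])
        ((le_abs_self _).trans h1)
      nlinarith
    have h4 : 0 ≤ η x * ‖G x w‖ ^ 2 := mul_nonneg (hm.eta0 x) (sq_nonneg _)
    calc η x * ‖G x w‖ ^ 2 * ((a x - a w) * (a x - a w)) ≤
          η x * ‖G x w‖ ^ 2 * (4 * m ^ 2) := mul_le_mul_of_nonneg_left h2 h4
      _ = _ := by ring

theorem cs_q (hm : Gm G η) (a b : T → ℝ) : Qf G η a b ^ 2 ≤ Qf G η a a * Qf G η b b := by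
  have h1 := cs_wt (κ := T × T) (fun i => η i.1 * η i.2 * ‖G i.1 i.2‖ ^ 2)
    (fun i => a i.1 - a i.2) (fun i => b i.1 - b i.2)
    (fun i => mul_nonneg (mul_nonneg (hm.eta0 _) (hm.eta0 _)) (sq_nonneg _))
  simp only [Fintype.sum_prod_type] at h1
  unfold Qf
  nlinarith

theorem cs_b (hm : Gm G η) (w : T) (a b : T → ℝ) :
    Bf G η w a b ^ 2 ≤ Bf G η w a a * Bf G η w b b := by
  have h1 := cs_wt (κ := T × T) (fun i => η i.1 * ‖G i.1 w‖ ^ 2 * (η i.2 * ‖G i.2 w‖ ^ 2))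
    (fun i => a i.1 - a i.2) (fun i => b i.1 - b i.2)
    (fun i => mul_nonneg (mul_nonneg (hm.eta0 _) (sq_nonneg _))
      (mul_nonneg (hm.eta0 _) (sq_nonneg _)))
  simp only [Fintype.sum_prod_type] at h1
  unfold Bf
  nlinarith

theorem cs_g (hm : Gm G η) (w : T) (a b : T → ℝ) :
    Gf G η w a b ^ 2 ≤ Gf G η w a a * Gf G η w b b :=
  cs_wt (fun x => η x * ‖G x w‖ ^ 2) (fun x => a x - a w) (fun x => b x - b w)
    (fun x => mul_nonneg (hm.eta0 _) (sq_nonneg _))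

/-- `B_w(a + a', a + a') ≤ 2 B_w(a,a) + 2 B_w(a',a')` -/
theorem bf_add_le (hm : Gm G η) (w : T) (a a' : T → ℝ) :
    Bf G η w (fun x => a x + a' x) (fun x => a x + a' x) ≤
      2 * Bf G η w a a + 2 * Bf G η w a' a' := by
  have h1 : ∑ x, ∑ y, η x * ‖G x w‖ ^ 2 * (η y * ‖G y w‖ ^ 2) *
      ((a x + a' x - (a y + a' y)) * (a x + a' x - (a y + a' y))) ≤
      2 * (∑ x, ∑ y, η x * ‖G x w‖ ^ 2 * (η y * ‖G y w‖ ^ 2) *
        ((a x - a y) * (a x - a y))) +
      2 * ∑ x, ∑ y, η x * ‖G x w‖ ^ 2 * (η y * ‖G y w‖ ^ 2) *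
        ((a' x - a' y) * (a' x - a' y)) := by
    rw [Finset.mul_sum, Finset.mul_sum, ← Finset.sum_add_distrib]
    refine Finset.sum_le_sum fun x _ => ?_
    rw [Finset.mul_sum, Finset.mul_sum, ← Finset.sum_add_distrib]
    refine Finset.sum_le_sum fun y _ => ?_
    have hW : 0 ≤ η x * ‖G x w‖ ^ 2 * (η y * ‖G y w‖ ^ 2) :=
      mul_nonneg (mul_nonneg (hm.eta0 _) (sq_nonneg _)) (mul_nonneg (hm.eta0 _) (sq_nonneg _))
    have h2 : (a x + a' x - (a y + a' y)) * (a x + a' x - (a y + a' y)) ≤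
        2 * ((a x - a y) * (a x - a y)) + 2 * ((a' x - a' y) * (a' x - a' y)) := by
      nlinarith [sq_nonneg ((a x - a y) - (a' x - a' y))]
    have h3 := mul_le_mul_of_nonneg_left h2 hW
    linarith
  unfold Bf
  linarith

/-- square root form -/
theorem abs_le_sqrt' {t A B : ℝ} (h : t ^ 2 ≤ A * B) (hA : 0 ≤ A) :
    |t| ≤ Real.sqrt A * Real.sqrt B := by
  rw [← Real.sqrt_mul hA]
  exact Real.abs_le_sqrt h

theorem sum_sqrt (hm : Gm G η) (a b : T → ℝ) :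
    ∑ w, η w * (Real.sqrt (Gf G η w a a) * Real.sqrt (Gf G η w b b)) ≤
      2 * Real.sqrt (Qf G η a a * Qf G η b b) := by
  have h1 := cs_wt η (fun w => Real.sqrt (Gf G η w a a)) (fun w => Real.sqrt (Gf G η w b b))
    hm.eta0
  have h2 : ∀ c : T → ℝ, ∑ w, η w * (Real.sqrt (Gf G η w c c) * Real.sqrt (Gf G η w c c)) =
      2 * Qf G η c c := by
    intro c
    rw [← gf_sum hm]
    exact Finset.sum_congr rfl fun w _ => by rw [Real.mul_self_sqrt (gf_nonneg hm w c)]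
  rw [h2, h2] at h1
  have h3 := Real.abs_le_sqrt h1
  have h4 : 2 * Qf G η a a * (2 * Qf G η b b) = 2 ^ 2 * (Qf G η a a * Qf G η b b) := by ring
  rw [h4, Real.sqrt_mul (by norm_num), Real.sqrt_sq (by norm_num)] at h3
  exact (le_abs_self _).trans h3

theorem gf_lin (hm : Gm G η) (r : T → ℝ) {R : ℝ} (hr : ∀ w, |r w| ≤ R * η w) (a b : T → ℝ) :
    |∑ w, r w * Gf G η w a b| ≤ 2 * R * Real.sqrt (Qf G η a a * Qf G η b b) := by
  have h1 : |∑ w, r w * Gf G η w a b| ≤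
      ∑ w, R * (η w * (Real.sqrt (Gf G η w a a) * Real.sqrt (Gf G η w b b))) := by
    refine (Finset.abs_sum_le_sum_abs _ _).trans (Finset.sum_le_sum fun w _ => ?_)
    rw [abs_mul, ← mul_assoc]
    exact mul_le_mul (hr w) (abs_le_sqrt' (cs_g hm w a b) (gf_nonneg hm w a)) (abs_nonneg _)
      ((abs_nonneg _).trans (hr w))
  rw [← Finset.mul_sum] at h1
  have h2 := sum_sqrt hm a b
  rcases le_or_gt 0 R with hR | hR
  · have h3 := mul_le_mul_of_nonneg_left h2 hR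
    linarith
  · have h3 : ∀ w, η w = 0 := by
      intro w
      have h4 := (abs_nonneg _).trans (hr w)
      have h5 := hm.eta0 w
      nlinarith
    have h6 : Qf G η a a = 0 := by
      unfold Qf
      simp [h3]
    rw [h6, zero_mul, Real.sqrt_zero, mul_zero]
    have h7 : ∑ w, η w * (Real.sqrt (Gf G η w a a) * Real.sqrt (Gf G η w b b)) = 0 := by
      simp [h3]
    rw [h7, mul_zero] at h1
    exact h1

theorem bf_lin (hm : Gm G η) (r : T → ℝ) {R : ℝ} (hr : ∀ w, |r w| * (G w w).im ≤ R * η w)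
    (a b : T → ℝ) :
    |∑ w, r w * Bf G η w a b| ≤ 2 * R * Real.sqrt (Qf G η a a * Qf G η b b) := by
  have hB : ∀ w, |Bf G η w a b| ≤
      (G w w).im * (Real.sqrt (Gf G η w a a) * Real.sqrt (Gf G η w b b)) := by
    intro w
    have h1 := abs_le_sqrt' (cs_b hm w a b) (bf_nonneg hm w a)
    have h2 := Real.sqrt_le_sqrt (bf_le hm w a)
    have h3 := Real.sqrt_le_sqrt (bf_le hm w b)
    have hi := io_nonneg hm w
    rw [Real.sqrt_mul hi] at h2 h3
    refine h1.trans ((mul_le_mul h2 h3 (Real.sqrt_nonneg _) (by positivity)).trans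
      (le_of_eq ?_))
    have h4 := Real.mul_self_sqrt hi
    linear_combination (Real.sqrt (Gf G η w a a) * Real.sqrt (Gf G η w b b)) * h4
  have h1 : |∑ w, r w * Bf G η w a b| ≤
      ∑ w, R * (η w * (Real.sqrt (Gf G η w a a) * Real.sqrt (Gf G η w b b))) := by
    refine (Finset.abs_sum_le_sum_abs _ _).trans (Finset.sum_le_sum fun w _ => ?_)
    rw [abs_mul]
    calc |r w| * |Bf G η w a b| ≤
          |r w| * ((G w w).im * (Real.sqrt (Gf G η w a a) * Real.sqrt (Gf G η w b b))) :=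
          mul_le_mul_of_nonneg_left (hB w) (abs_nonneg _)
      _ = |r w| * (G w w).im * (Real.sqrt (Gf G η w a a) * Real.sqrt (Gf G η w b b)) := by ring
      _ ≤ R * η w * (Real.sqrt (Gf G η w a a) * Real.sqrt (Gf G η w b b)) :=
          mul_le_mul_of_nonneg_right (hr w) (by positivity)
      _ = _ := by ring
  rw [← Finset.mul_sum] at h1
  have h2 := sum_sqrt hm a b
  rcases le_or_gt 0 R with hR | hR
  · have h3 := mul_le_mul_of_nonneg_left h2 hR
    linarith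
  · have h3 : ∀ w, η w = 0 := by
      intro w
      have h4 := (mul_nonneg (abs_nonneg (r w)) (io_nonneg hm w)).trans (hr w)
      have h5 := hm.eta0 w
      nlinarith
    have h6 : Qf G η a a = 0 := by
      unfold Qf
      simp [h3]
    rw [h6, zero_mul, Real.sqrt_zero, mul_zero]
    have h7 : ∑ w, η w * (Real.sqrt (Gf G η w a a) * Real.sqrt (Gf G η w b b)) = 0 := by
      simp [h3]
    rw [h7, mul_zero] at h1
    exact h1

end Pool.Agent.ANS.Form
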