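import Pool.Agent.ANS.St

/-! # ANS FORM DEFS: the forms of one configuration (owner helper39)

`G` symmetric complex matrix on the finite set `T` (all sites, holes included), `η ≥ 0` (zero on the
holes), `Im G_xx = ∑_y η_y |G_xy|²` (Ward).  Real functions `a, b : T → ℝ`.

* `Qf`: `Q(a,b) = (1/2) ∑ η_x η_y |G_xy|² (a_x-a_y)(b_x-b_y)`.
* `Tf`: `T_w(a,b) = (1/2) ∑ η_x η_y G_xw G_wy conj(G_xy) (a_x-a_y)(b_x-b_y)`  (complex).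
* `Bf`: `B_w(a,b) = (1/2) ∑ (η_x |G_xw|²)(η_y |G_yw|²) (a_x-a_y)(b_x-b_y)`.
* `Gf`: `Γ_w(a,b) = ∑_x η_x |G_xw|² (a_x-a_w)(b_x-b_w)`.
* `qw`: `q_w(a) = ∑_x η_x |G_xw|² (a_w-a_x)`  `= (Q a)_w / η_w`.
* `Upd`: `G' = G - u G e_w e_wᵀ G`, `η' = η + δ 1_w`.
* `Gm`: symmetry, `η ≥ 0`, Ward, contraction `|η^(1/2) G η^(1/2)| ≤ 1`. -/

set_option autoImplicit false

open Finset Matrix

noncomputable section

namespace Pool.Agent.ANS.Form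

variable {T : Type} [Fintype T] [DecidableEq T]

/-- the form `Q` -/
def Qf (G : Matrix T T ℂ) (η : T → ℝ) (a b : T → ℝ) : ℝ :=
  1 / 2 * ∑ x, ∑ y, η x * η y * ‖G x y‖ ^ 2 * ((a x - a y) * (b x - b y))

/-- the form `T_w` -/
def Tf (G : Matrix T T ℂ) (η : T → ℝ) (w : T) (a b : T → ℝ) : ℂ :=
  1 / 2 * ∑ x, ∑ y, ((η x * η y * ((a x - a y) * (b x - b y)) : ℝ) : ℂ) *
    (G x w * G w y * (starRingEnd ℂ) (G x y))

/-- the form `B_w` -/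
def Bf (G : Matrix T T ℂ) (η : T → ℝ) (w : T) (a b : T → ℝ) : ℝ :=
  1 / 2 * ∑ x, ∑ y, η x * ‖G x w‖ ^ 2 * (η y * ‖G y w‖ ^ 2) * ((a x - a y) * (b x - b y))

/-- the form `Γ_w` -/
def Gf (G : Matrix T T ℂ) (η : T → ℝ) (w : T) (a b : T → ℝ) : ℝ :=
  ∑ x, η x * ‖G x w‖ ^ 2 * ((a x - a w) * (b x - b w))

/-- the linear form `q_w` -/
def qw (G : Matrix T T ℂ) (η : T → ℝ) (w : T) (a : T → ℝ) : ℝ :=
  ∑ x, η x * ‖G x w‖ ^ 2 * (a w - a x)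

/-- `G' = G - u G e_w e_wᵀ G`, `η' = η + δ 1_w` -/
structure Upd (G G' : Matrix T T ℂ) (η η' : T → ℝ) (w : T) (u : ℂ) (δ : ℝ) : Prop where
  G : ∀ x y, G' x y = G x y - u * G x w * G w y
  eta : ∀ x, η' x = η x + if x = w then δ else 0

/-- symmetric, `η ≥ 0`, Ward, contraction -/
structure Gm (G : Matrix T T ℂ) (η : T → ℝ) : Prop where
  sym : ∀ x y, G x y = G y x
  eta0 : ∀ x, 0 ≤ η x
  ward : ∀ x, (G x x).im = ∑ y, η y * ‖G x y‖ ^ 2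
  contr : ∀ c : T → ℂ, (∀ x, η x = 0 → c x = 0) →
    ∑ w, η w * ‖(G *ᵥ c) w‖ ^ 2 ≤ ∑ x, ‖c x‖ ^ 2 / η x

end Pool.Agent.ANS.Form
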