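import Pool.Agent.ANS.Form.NoiseF

/-! # ANS FORM DRIFTF: the drift of the form component

* `avg_le`: `∑_w ∑_b pr g(w,b) ≤ ∑_w g(w, β w)` with a maximising `β`; the same for `-g`.
* `ef_mean`: `Ef` is linear in `(c1, c2, c3)`:
  `∑_b pr Ef(u_b,θ_b,c3_b) - Ef(none) = Ef(Dl, θ̄, c̄3)`.
* `fl_bil`: `v'·(C F C) v = Ef (ext (L⁻¹)ᵀ C v') (ext (L⁻¹)ᵀ C v)` (`C` symmetric, `eb_form`).
* `drift_bil`: with `R_wb = v'·(J + C F C) v` (`|∑_w R_{w,β w}| ≤ (9 (2CR+16)² nf + 32 C a)|v'||v|`,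
  `Hy.resid` with `Ke = 16 C a`) and `ef_lin` with `R1, R2, R3` of `lin1, lin2, lin3`,
  `4 R1 + 2 R2 + 2 R3 ≤ 16000 C⁶ (a + bm)`, `Q_s ≤ 2 CR |v|²` (`q_cb`):
  `|v'·M v| ≤ dlf⁻¹ (2 (9·324 CR² nf + 32 C a) + 32000 C⁶ CR (a + bm)) |v'||v| ≤ omF |v'||v|`,
  `M = ∑_w (∑_b pr fR(s^{w→b}) - fR(s^{w→none}))`, `dfR`.
* `drift`: `bil_op`, `map_real_one`. -/

set_option autoImplicit false
set_option linter.unusedSectionVars false

open Finset Function Matrix

noncomputable section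

namespace Pool.Agent.ANS

open Pool.Agent.ANS.Form
open Pool.Agent.APS (tr0 OpLe)

variable {T D : Type} [Fintype T] [DecidableEq T]

theorem Form.avg_le {W A : Type} [Fintype W] [Fintype A] {pr : W → A → ℝ}
    (h0 : ∀ w b, 0 ≤ pr w b) (h1 : ∀ w, ∑ b, pr w b = 1) (g : W → Option A → ℝ) {R : ℝ}
    (hg : ∀ β : W → Option A, |∑ w, g w (β w)| ≤ R) :
    |∑ w, (∑ b, pr w b * g w (some b) - g w none)| ≤ 2 * R := by
  have hne : ∀ _ : W, (Finset.univ : Finset A).Nonempty := by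
    intro w
    rw [Finset.univ_nonempty_iff]
    by_contra hA
    rw [not_nonempty_iff] at hA
    have := h1 w
    simp at this
  have hmax : ∀ w, ∃ b, ∀ b', g w (some b') ≤ g w (some b) := by
    intro w
    obtain ⟨b, -, hb⟩ := Finset.exists_max_image Finset.univ (fun b => g w (some b)) (hne w)
    exact ⟨b, fun b' => hb b' (Finset.mem_univ _)⟩
  have hmin : ∀ w, ∃ b, ∀ b', g w (some b) ≤ g w (some b') := by
    intro w
    obtain ⟨b, -, hb⟩ := Finset.exists_min_image Finset.univ (fun b => g w (some b)) (hne w)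
    exact ⟨b, fun b' => hb b' (Finset.mem_univ _)⟩
  choose bp hbp using hmax
  choose bn hbn using hmin
  have e1 : ∑ w, ∑ b, pr w b * g w (some b) ≤ ∑ w, g w (some (bp w)) := by
    refine Finset.sum_le_sum fun w _ => ?_
    calc ∑ b, pr w b * g w (some b) ≤ ∑ b, pr w b * g w (some (bp w)) :=
          Finset.sum_le_sum fun b _ => mul_le_mul_of_nonneg_left (hbp w b) (h0 w b)
      _ = g w (some (bp w)) := by rw [← Finset.sum_mul, h1, one_mul]
  have e2 : ∑ w, g w (some (bn w)) ≤ ∑ w, ∑ b, pr w b * g w (some b) := by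
    refine Finset.sum_le_sum fun w _ => ?_
    calc g w (some (bn w)) = ∑ b, pr w b * g w (some (bn w)) := by
          rw [← Finset.sum_mul, h1, one_mul]
      _ ≤ ∑ b, pr w b * g w (some b) :=
          Finset.sum_le_sum fun b _ => mul_le_mul_of_nonneg_left (hbn w b) (h0 w b)
  have e3 := abs_le.mp (hg fun w => some (bp w))
  have e4 := abs_le.mp (hg fun w => some (bn w))
  have e5 := abs_le.mp (hg fun _ => none)
  rw [Finset.sum_sub_distrib, abs_le]
  constructor <;> linarith [e3.1, e3.2, e4.1, e4.2, e5.1, e5.2]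

theorem Form.ef_mean {A : Type} [Fintype A] (G : Matrix T T ℂ) (η : T → ℝ) (w : T)
    (pr : A → ℝ) (c1 : Option A → ℂ) (c2 c3 : Option A → ℝ) (a b : T → ℝ) :
    ∑ d, pr d * Ef G η w (c1 (some d)) (c2 (some d)) (c3 (some d)) a b -
        Ef G η w (c1 none) (c2 none) (c3 none) a b =
      Ef G η w (∑ d, (pr d : ℂ) * c1 (some d) - c1 none) (∑ d, pr d * c2 (some d) - c2 none)
        (∑ d, pr d * c3 (some d) - c3 none) a b := by
  have h1 : ((∑ d, (pr d : ℂ) * c1 (some d) - c1 none) * Tf G η w a b).re =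
      ∑ d, pr d * (c1 (some d) * Tf G η w a b).re - (c1 none * Tf G η w a b).re := by
    rw [sub_mul, Complex.sub_re, Finset.sum_mul, Complex.re_sum]
    congr 1
    refine Finset.sum_congr rfl fun d _ => ?_
    rw [mul_assoc, Complex.re_ofReal_mul]
  unfold Ef
  rw [h1]
  have h2 : ∀ d, pr d * (-2 * (c1 (some d) * Tf G η w a b).re + c2 (some d) * Bf G η w a b +
      c3 (some d) * Gf G η w a b) = -2 * (pr d * (c1 (some d) * Tf G η w a b).re) +
      (pr d * c2 (some d)) * Bf G η w a b + (pr d * c3 (some d)) * Gf G η w a b :=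
    fun d => by ring
  simp only [h2, Finset.sum_add_distrib, ← Finset.mul_sum, ← Finset.sum_mul]
  ring

variable [Fintype D] {P : Stp T D} {X N B : Finset T}
  {c be e : T → ℝ} {C Lm : ℝ} {L : Matrix ↥B ↥B ℝ}

namespace Stp

namespace Ok

variable (h : P.Ok X N c be e C Lm) {p : ℕ} {dlf a CR bm e1 e2 sig taum nf : ℝ}
  {s : T → Option D} (H : P.FH X N B be C Lm L p dlf a CR bm e1 e2 sig taum nf s)
include h H

theorem fl_bil (w : T) (b : Option D) (v' v : ↥B → ℝ) :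
    v' ⬝ᵥ ((P.CL B L s * P.FL B L s w b * P.CL B L s) *ᵥ v) =
      Ef (P.G s) (P.eta s) w (P.u s w b) (P.th s w b) (P.c3 s w b)
        (ext B ((L⁻¹)ᵀ *ᵥ (P.CL B L s *ᵥ v'))) (ext B ((L⁻¹)ᵀ *ᵥ (P.CL B L s *ᵥ v))) := by
  have hC := (h.cl_symm H.lk s).eq
  rw [← eb_form]
  unfold FL
  have h1 : ∀ (x y : ↥B → ℝ) (M : Matrix ↥B ↥B ℝ), x ⬝ᵥ (M *ᵥ y) = (Mᵀ *ᵥ x) ⬝ᵥ y := by
    intro x y M
    rw [dotProduct_mulVec, ← mulVec_transpose]
  rw [← mulVec_mulVec, ← mulVec_mulVec, h1 v', hC, ← mulVec_mulVec, ← mulVec_mulVec,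
    h1 (P.CL B L s *ᵥ v')]

theorem drift_bil (hbm : 0 ≤ bm) (v' v : ↥B → ℝ) :
    |v' ⬝ᵥ ((∑ w, (∑ b, P.g.P w b • P.fR B L dlf (update s w (some b)) -
      P.fR B L dlf (update s w none))) *ᵥ v)| ≤
      omF C CR nf a bm dlf * (Real.sqrt (v' ⬝ᵥ v') * Real.sqrt (v ⬝ᵥ v)) := by
  have hC1 := h.C1
  have hC0 := h.C0
  have hy := h.hy H
  set S := Real.sqrt (v' ⬝ᵥ v') * Real.sqrt (v ⬝ᵥ v) with hS
  have hS0 : 0 ≤ S := mul_nonneg (Real.sqrt_nonneg _) (Real.sqrt_nonneg _)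
  set J : T → Option D → Matrix ↥B ↥B ℝ := fun w b =>
    Jm (P.CL B L s) (fun w b => P.CL B L (update s w b)) (ph L) (P.al s)
        (fun w b => P.al s w b - (P.aw (update s w b) w - P.aw s w)) w b with hJ
  set R : T → Option D → ℝ := fun w b =>
    v' ⬝ᵥ ((J w b + P.CL B L s * P.FL B L s w b * P.CL B L s) *ᵥ v) with hR
  set E : T → Option D → ℝ := fun w b =>
    Ef (P.G s) (P.eta s) w (P.u s w b) (P.th s w b) (P.c3 s w b)
        (ext B ((L⁻¹)ᵀ *ᵥ (P.CL B L s *ᵥ v'))) (ext B ((L⁻¹)ᵀ *ᵥ (P.CL B L s *ᵥ v))) with hE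
  have hJE : ∀ w b, v' ⬝ᵥ (J w b *ᵥ v) = R w b - E w b := by
    intro w b
    have h1 := h.fl_bil H w b v' v
    simp only [hR, hE]
    rw [← h1, add_mulVec, dotProduct_add]
    ring
  -- rewriting
  have hM : v' ⬝ᵥ ((∑ w, (∑ b, P.g.P w b • P.fR B L dlf (update s w (some b)) -
      P.fR B L dlf (update s w none))) *ᵥ v) = dlf⁻¹ *
      (∑ w, (∑ b, P.g.P w b * R w (some b) - R w none) -
        ∑ w, (∑ b, P.g.P w b * E w (some b) - E w none)) := by
    have h1 : ∀ w b, v' ⬝ᵥ (P.fR B L dlf (update s w b) *ᵥ v) =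
        v' ⬝ᵥ (P.fR B L dlf s *ᵥ v) + dlf⁻¹ * (R w b - E w b) := by
      intro w b
      have h2 := h.dfR H w b
      have h3 : P.fR B L dlf (update s w b) = P.fR B L dlf s + dlf⁻¹ • J w b := by
        rw [← h2]
        abel
      rw [h3, add_mulVec, dotProduct_add, smul_mulVec, dotProduct_smul, hJE, smul_eq_mul]
    rw [sum_mulVec, dotProduct_sum, ← Finset.sum_sub_distrib, Finset.mul_sum]
    refine Finset.sum_congr rfl fun w _ => ?_
    rw [sub_mulVec, dotProduct_sub, sum_mulVec, dotProduct_sum, h1 w none]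
    have h4 : ∀ b, v' ⬝ᵥ ((P.g.P w b • P.fR B L dlf (update s w (some b))) *ᵥ v) =
        P.g.P w b * (v' ⬝ᵥ (P.fR B L dlf s *ᵥ v)) +
          dlf⁻¹ * (P.g.P w b * R w (some b)) - dlf⁻¹ * (P.g.P w b * E w (some b)) := by
      intro b
      rw [smul_mulVec, dotProduct_smul, h1, smul_eq_mul]
      ring
    simp only [h4, Finset.sum_sub_distrib, Finset.sum_add_distrib, ← Finset.mul_sum,
      ← Finset.sum_mul]
    rw [h.dig.P1]
    ring
  -- the residual part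
  have hres : |∑ w, (∑ b, P.g.P w b * R w (some b) - R w none)| ≤
      2 * ((9 * (2 * CR + 16) ^ 2 * nf + 2 * (16 * C * a)) * S) := by
    refine avg_le (fun w b => h.dig.P0 w b) (fun w => h.dig.P1 w) R ?_
    intro β
    exact hy.resid β v' v
  -- the linear part
  have hlin : |∑ w, (∑ b, P.g.P w b * E w (some b) - E w none)| ≤
      16000 * C ^ 6 * (a + bm) * (2 * CR * S) := by
    have h1 : ∀ w, ∑ b, P.g.P w b * E w (some b) - E w none =
        Ef (P.G s) (P.eta s) w (P.Dl s w)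
          (∑ d, P.g.P w d * P.th s w (some d) - P.th s w none)
          (∑ d, P.g.P w d * P.c3 s w (some d) - P.c3 s w none)
          (ext B ((L⁻¹)ᵀ *ᵥ (P.CL B L s *ᵥ v'))) (ext B ((L⁻¹)ᵀ *ᵥ (P.CL B L s *ᵥ v))) := by
      intro w
      simp only [hE]
      rw [ef_mean]
      rfl
    simp only [h1]
    have h2 := ef_lin (h.gm s) (fun w => P.Dl s w)
      (fun w => ∑ d, P.g.P w d * P.th s w (some d) - P.th s w none)
      (fun w => ∑ d, P.g.P w d * P.c3 s w (some d) - P.c3 s w none)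
      (h.lin1 H.a0 H.a2 H.ent H.bmL) (h.lin2 H.a0 H.a2 H.ent H.bmL)
      (h.lin3 H.a0 H.a2 H.ent H.bmL)
      (ext B ((L⁻¹)ᵀ *ᵥ (P.CL B L s *ᵥ v'))) (ext B ((L⁻¹)ᵀ *ᵥ (P.CL B L s *ᵥ v)))
    refine h2.trans ?_
    have hp1 : 1 ≤ p := by
      have := H.p2
      omega
    have h3 := h.q_cb H.lk hp1 H.d0 H.CR1 H.CRd H.rb H.tr v'
    have h4 := h.q_cb H.lk hp1 H.d0 H.CR1 H.CRd H.rb H.tr v
    have hCR0 : 0 ≤ CR := by linarith [H.CR1]
    have h5 : Real.sqrt (Qf (P.G s) (P.eta s) (ext B ((L⁻¹)ᵀ *ᵥ (P.CL B L s *ᵥ v')))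
          (ext B ((L⁻¹)ᵀ *ᵥ (P.CL B L s *ᵥ v'))) *
        Qf (P.G s) (P.eta s) (ext B ((L⁻¹)ᵀ *ᵥ (P.CL B L s *ᵥ v)))
          (ext B ((L⁻¹)ᵀ *ᵥ (P.CL B L s *ᵥ v)))) ≤ 2 * CR * S := by
      have hq0 := qf_nonneg (h.gm s) (ext B ((L⁻¹)ᵀ *ᵥ (P.CL B L s *ᵥ v)))
      have hv0 : 0 ≤ v' ⬝ᵥ v' := by
        simp only [dotProduct]
        exact Finset.sum_nonneg fun i _ => mul_self_nonneg _
      have hw0 : 0 ≤ v ⬝ᵥ v := by
        simp only [dotProduct]
        exact Finset.sum_nonneg fun i _ => mul_self_nonneg _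
      refine Real.sqrt_le_iff.mpr ⟨by positivity, ?_⟩
      have h6 : S ^ 2 = (v' ⬝ᵥ v') * (v ⬝ᵥ v) := by
        rw [hS, mul_pow, Real.sq_sqrt hv0, Real.sq_sqrt hw0]
      calc _ ≤ (2 * CR * (v' ⬝ᵥ v')) * (2 * CR * (v ⬝ᵥ v)) :=
            mul_le_mul h3 h4 hq0 (by positivity)
        _ = (2 * CR * S) ^ 2 := by
            rw [mul_pow, h6]
            ring
    have h7 : 4 * (8 * C * (a + 200 * C ^ 3 * bm)) + 2 * (32 * C ^ 3 * a + 4032 * C ^ 6 * bm) +
        2 * (416 * C ^ 4 * bm) ≤ 16000 * C ^ 6 * (a + bm) := by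
      have ha0 := H.a0
      have e1 : C ≤ C ^ 6 := by
        calc C = C ^ 1 := (pow_one C).symm
          _ ≤ C ^ 6 := pow_le_pow_right₀ hC1 (by norm_num)
      have e3 : C ^ 3 ≤ C ^ 6 := pow_le_pow_right₀ hC1 (by norm_num)
      have e4 : C ^ 4 ≤ C ^ 6 := pow_le_pow_right₀ hC1 (by norm_num)
      have e6 : 0 ≤ C ^ 6 := by positivity
      have f1 : C * a ≤ C ^ 6 * a := mul_le_mul_of_nonneg_right e1 ha0
      have f3 : C ^ 3 * a ≤ C ^ 6 * a := mul_le_mul_of_nonneg_right e3 ha0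
      have f4 : C ^ 4 * bm ≤ C ^ 6 * bm := mul_le_mul_of_nonneg_right e4 hbm
      have f5 : 0 ≤ C ^ 6 * a := by positivity
      have f6 : 0 ≤ C ^ 6 * bm := by positivity
      nlinarith [f1, f3, f4, f5, f6]
    have h8 : 0 ≤ 16000 * C ^ 6 * (a + bm) := by
      have ha0 := H.a0
      positivity
    exact mul_le_mul h7 h5 (Real.sqrt_nonneg _) h8
  rw [hM, abs_mul, abs_of_pos (inv_pos.mpr H.d0)]
  have htot : |∑ w, (∑ b, P.g.P w b * R w (some b) - R w none) -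
      ∑ w, (∑ b, P.g.P w b * E w (some b) - E w none)| ≤
      40000 * C ^ 6 * CR ^ 2 * (nf + a + bm) * S := by
    have g1 := abs_le.mp hres
    have g2 := abs_le.mp hlin
    have hCR1 := H.CR1
    have ha0 := H.a0
    have hnf0 := H.nf0
    have k1 : (2 * CR + 16) ^ 2 ≤ 324 * CR ^ 2 := by nlinarith
    have k6 : 1 ≤ C ^ 6 := one_le_pow₀ hC1
    have k2 : CR ^ 2 ≤ C ^ 6 * CR ^ 2 := by nlinarith [sq_nonneg CR]
    have k3 : C ≤ C ^ 6 := by
      calc C = C ^ 1 := (pow_one C).symm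
        _ ≤ C ^ 6 := pow_le_pow_right₀ hC1 (by norm_num)
    have k4 : C ≤ C ^ 6 * CR ^ 2 := by
      have : C ^ 6 ≤ C ^ 6 * CR ^ 2 := by
        have : 1 ≤ CR ^ 2 := one_le_pow₀ hCR1
        nlinarith
      linarith
    have k5 : C ^ 6 * CR ≤ C ^ 6 * CR ^ 2 := by
      have : CR ≤ CR ^ 2 := by nlinarith
      exact mul_le_mul_of_nonneg_left this (by linarith)
    set Z := C ^ 6 * CR ^ 2 with hZ
    have hZ0 : 0 ≤ Z := by positivity
    have m1 : 2 * ((9 * (2 * CR + 16) ^ 2 * nf + 2 * (16 * C * a)) * S) ≤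
        (5832 * Z * nf + 64 * Z * a) * S := by
      have n1 : 9 * (2 * CR + 16) ^ 2 * nf ≤ 2916 * Z * nf := by
        refine mul_le_mul_of_nonneg_right ?_ hnf0
        linarith
      have n2 : C * a ≤ Z * a := mul_le_mul_of_nonneg_right k4 ha0
      have n3 : 2 * (9 * (2 * CR + 16) ^ 2 * nf + 2 * (16 * C * a)) ≤
          5832 * Z * nf + 64 * Z * a := by linarith
      calc 2 * ((9 * (2 * CR + 16) ^ 2 * nf + 2 * (16 * C * a)) * S) =
            (2 * (9 * (2 * CR + 16) ^ 2 * nf + 2 * (16 * C * a))) * S := by ring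
        _ ≤ _ := mul_le_mul_of_nonneg_right n3 hS0
    have m2 : 16000 * C ^ 6 * (a + bm) * (2 * CR * S) ≤ 32000 * Z * (a + bm) * S := by
      calc 16000 * C ^ 6 * (a + bm) * (2 * CR * S) = (C ^ 6 * CR) * (32000 * (a + bm) * S) := by
            ring
        _ ≤ Z * (32000 * (a + bm) * S) := mul_le_mul_of_nonneg_right k5 (by positivity)
        _ = _ := by ring
    have m3 : (5832 * Z * nf + 64 * Z * a) * S + 32000 * Z * (a + bm) * S ≤
        40000 * Z * (nf + a + bm) * S := by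
      have n1 : 0 ≤ Z * nf * S := by positivity
      have n2 : 0 ≤ Z * a * S := by positivity
      have n3 : 0 ≤ Z * bm * S := by positivity
      nlinarith
    have m4 : 40000 * C ^ 6 * CR ^ 2 * (nf + a + bm) * S = 40000 * Z * (nf + a + bm) * S := by
      rw [hZ]
      ring
    rw [m4, abs_le]
    constructor <;> linarith [g1.1, g1.2, g2.1, g2.2]
  calc dlf⁻¹ * |∑ w, (∑ b, P.g.P w b * R w (some b) - R w none) -
      ∑ w, (∑ b, P.g.P w b * E w (some b) - E w none)| ≤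
      dlf⁻¹ * (40000 * C ^ 6 * CR ^ 2 * (nf + a + bm) * S) :=
        mul_le_mul_of_nonneg_left htot (inv_pos.mpr H.d0).le
    _ = omF C CR nf a bm dlf * S := by
        unfold omF
        rw [div_eq_mul_inv]
        ring

theorem drift (hbm : 0 ≤ bm) :
    OpLe (∑ w, (∑ b, (P.g.P w b : ℂ) • P.fF B L dlf (update s w (some b)) -
      P.fF B L dlf (update s w none))) (omF C CR nf a bm dlf) := by
  have h0 : 0 ≤ omF C CR nf a bm dlf := by
    have h1 := h.C0
    have h2 := H.CR1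
    have h3 := H.nf0
    have h4 := H.a0
    have h5 := H.d0
    unfold omF
    positivity
  have h1 : ∑ w, (∑ b, (P.g.P w b : ℂ) • P.fF B L dlf (update s w (some b)) -
      P.fF B L dlf (update s w none)) =
      (∑ w, (∑ b, P.g.P w b • P.fR B L dlf (update s w (some b)) -
      P.fR B L dlf (update s w none))).map (fun r : ℝ => (r : ℂ)) := by
    ext x y
    simp only [Matrix.sum_apply, Matrix.sub_apply, Matrix.smul_apply, Matrix.map_apply, fF,
      smul_eq_mul]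
    push_cast
    rfl
  rw [h1]
  intro u
  exact map_real_one (bil_op h0 (h.drift_bil H hbm)) u

end Ok

end Stp

end Pool.Agent.ANS
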