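import Pool.Agent.ANS.Form.Sq

/-! # ANS FORM EID: `Q' = Q^cl + E`

`Upd G G' η η' w u δ`, `ι = Im G_ww > 0`, `c = -δ/ι`, `S = |G_ww|²`, `1 - c S ≠ 0`,
`θ = |u|² - c/(1 - c S)`, `c3 = c ι (2 Re(u G_ww) - θ S)`.
Then for all functions
`Q'(a,b) = Q(a,b) - c/(1 - c S) q_w(a) q_w(b) + (-2 Re(u T_w) + θ B_w + c3 Γ_w)(a,b)`.
Proof: `qf_upd`, `bf_eq` (`q_w(a) q_w(b) = ι Γ - B`) and
`|1 - u G_ww|² = 1 - 2 Re(u G_ww) + |u|² S`: both sides are `Q - 2Re(uT) + |u|² B - cι|1-uG|² Γ`.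

`qf_single`: `Q(a, 1_w) = η_w q_w(a)`. -/

set_option autoImplicit false

open Finset Matrix

noncomputable section

namespace Pool.Agent.ANS.Form

variable {T : Type} [Fintype T] [DecidableEq T] {G G' : Matrix T T ℂ} {η η' : T → ℝ} {w : T}
  {u : ℂ} {δ : ℝ}

theorem qf_eid (hm : Gm G η) (h : Upd G G' η η' w u δ) {c : ℝ} (hc : δ = -(c * (G w w).im))
    (hS : 1 - c * ‖G w w‖ ^ 2 ≠ 0) (a b : T → ℝ) :
    Qf G' η' a b = Qf G η a b - c / (1 - c * ‖G w w‖ ^ 2) * (qw G η w a * qw G η w b) +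
      Ef G η w u (‖u‖ ^ 2 - c / (1 - c * ‖G w w‖ ^ 2))
        (c * (G w w).im * (2 * (u * G w w).re -
          (‖u‖ ^ 2 - c / (1 - c * ‖G w w‖ ^ 2)) * ‖G w w‖ ^ 2)) a b := by
  have e1 := qf_upd hm.sym h a b
  have e2 := bf_eq (w := w) hm a b
  have e3 : ‖1 - u * G w w‖ ^ 2 = 1 - 2 * (u * G w w).re + ‖u‖ ^ 2 * ‖G w w‖ ^ 2 := by
    have e4 : ∀ v : ℂ, ‖v‖ ^ 2 = v.re * v.re + v.im * v.im := by
      intro v
      rw [← Complex.normSq_eq_norm_sq, Complex.normSq_apply]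
    rw [e4, e4, e4]
    simp only [Complex.sub_re, Complex.sub_im, Complex.mul_re, Complex.mul_im, Complex.one_re,
      Complex.one_im]
    ring
  have e5 : qw G η w a * qw G η w b = (G w w).im * Gf G η w a b - Bf G η w a b := by
    linarith
  have e6 : c / (1 - c * ‖G w w‖ ^ 2) * ‖G w w‖ ^ 2 * c = c / (1 - c * ‖G w w‖ ^ 2) - c := by
    field_simp
    ring
  rw [e1, e5, e3, hc]
  unfold Ef
  generalize c / (1 - c * ‖G w w‖ ^ 2) = q at e6
  linear_combination (-(Gf G η w a b * (G w w).im)) * e6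

theorem qf_single (hs : ∀ x y, G x y = G y x) (a : T → ℝ) :
    Qf G η a (Pi.single w 1) = η w * qw G η w a := by
  have e1 : ∀ x y, η x * η y * ‖G x y‖ ^ 2 * ((a x - a y) *
      ((Pi.single w 1 : T → ℝ) x - (Pi.single w 1 : T → ℝ) y)) =
      (if x = w then η w * (η y * ‖G y w‖ ^ 2 * (a w - a y)) else 0) +
        (if y = w then η w * (η x * ‖G x w‖ ^ 2 * (a w - a x)) else 0) := by
    intro x y
    rw [Pi.single_apply, Pi.single_apply]
    by_cases hx : x = w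
    · subst hx
      by_cases hy : y = x
      · subst hy
        simp
      · rw [if_pos rfl, if_neg hy, if_pos rfl, if_neg hy, hs y x]
        ring
    · by_cases hy : y = w
      · subst hy
        rw [if_neg hx, if_pos rfl, if_neg hx, if_pos rfl]
        ring
      · rw [if_neg hx, if_neg hy, if_neg hx, if_neg hy]
        ring
  unfold Qf qw
  simp only [e1, Finset.sum_add_distrib]
  have e2 : ∑ x, ∑ y, (if x = w then η w * (η y * ‖G y w‖ ^ 2 * (a w - a y)) else 0) =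
      ∑ y, η w * (η y * ‖G y w‖ ^ 2 * (a w - a y)) := by
    rw [Finset.sum_comm]
    refine Finset.sum_congr rfl fun y _ => ?_
    rw [Finset.sum_ite_eq' Finset.univ w (fun _ => η w * (η y * ‖G y w‖ ^ 2 * (a w - a y))),
      if_pos (Finset.mem_univ w)]
  have e3 : ∑ x, ∑ y, (if y = w then η w * (η x * ‖G x w‖ ^ 2 * (a w - a x)) else 0) =
      ∑ x, η w * (η x * ‖G x w‖ ^ 2 * (a w - a x)) := by
    refine Finset.sum_congr rfl fun x _ => ?_
    rw [Finset.sum_ite_eq' Finset.univ w (fun _ => η w * (η x * ‖G x w‖ ^ 2 * (a w - a x))),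
      if_pos (Finset.mem_univ w)]
  rw [e2, e3, ← Finset.mul_sum]
  ring

/-- `Q(1_w, 1_w) = η_w (Im G_ww - η_w |G_ww|²)` -/
theorem qf_single2 (hm : Gm G η) :
    Qf G η (Pi.single w 1) (Pi.single w 1) = η w * ((G w w).im - η w * ‖G w w‖ ^ 2) := by
  rw [qf_single hm.sym]
  have hw : (G w w).im = ∑ x, η x * ‖G x w‖ ^ 2 := by
    rw [hm.ward]
    refine Finset.sum_congr rfl fun x _ => ?_
    rw [hm.sym]
  congr 1
  unfold qw
  have e1 : ∀ x, η x * ‖G x w‖ ^ 2 * ((Pi.single w 1 : T → ℝ) w - (Pi.single w 1 : T → ℝ) x) =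
      η x * ‖G x w‖ ^ 2 - if x = w then η w * ‖G w w‖ ^ 2 else 0 := by
    intro x
    rw [Pi.single_eq_same, Pi.single_apply]
    by_cases hx : x = w
    · subst hx
      rw [if_pos rfl, if_pos rfl]
      ring
    · rw [if_neg hx, if_neg hx]
      ring
  simp only [e1, Finset.sum_sub_distrib]
  rw [← hw, Finset.sum_ite_eq' Finset.univ w (fun _ => η w * ‖G w w‖ ^ 2),
    if_pos (Finset.mem_univ w)]

/-- `Q ≤ 2 m` -/
theorem qf_le (hm : Gm G η) (a : T → ℝ) :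
    Qf G η a a ≤ 2 * ∑ x, η x * (G x x).im * a x ^ 2 := by
  have h0 : ∀ x y, 0 ≤ η x * η y * ‖G x y‖ ^ 2 := fun x y =>
    mul_nonneg (mul_nonneg (hm.eta0 x) (hm.eta0 y)) (sq_nonneg _)
  have h1 : ∑ x, ∑ y, η x * η y * ‖G x y‖ ^ 2 * ((a x - a y) * (a x - a y)) ≤
      ∑ x, ∑ y, (2 * (a x ^ 2 * (η x * (η y * ‖G x y‖ ^ 2))) +
        2 * (a y ^ 2 * (η y * (η x * ‖G y x‖ ^ 2)))) := by
    refine Finset.sum_le_sum fun x _ => Finset.sum_le_sum fun y _ => ?_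
    rw [hm.sym y x]
    have h2 := mul_nonneg (h0 x y) (sq_nonneg (a x + a y))
    nlinarith [h2]
  have h3 : ∑ x, ∑ y, (2 * (a x ^ 2 * (η x * (η y * ‖G x y‖ ^ 2))) +
        2 * (a y ^ 2 * (η y * (η x * ‖G y x‖ ^ 2)))) =
      4 * ∑ x, η x * (G x x).im * a x ^ 2 := by
    simp only [Finset.sum_add_distrib]
    have e1 : ∑ x, ∑ y, 2 * (a x ^ 2 * (η x * (η y * ‖G x y‖ ^ 2))) =
        2 * ∑ x, η x * (G x x).im * a x ^ 2 := by
      rw [Finset.mul_sum]
      refine Finset.sum_congr rfl fun x _ => ?_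
      rw [← Finset.mul_sum, ← Finset.mul_sum, ← Finset.mul_sum, ← hm.ward]
      ring
    have e2 : ∑ x, ∑ y, 2 * (a y ^ 2 * (η y * (η x * ‖G y x‖ ^ 2))) =
        2 * ∑ x, η x * (G x x).im * a x ^ 2 := by
      rw [Finset.sum_comm]
      exact e1
    rw [e1, e2]
    ring
  unfold Qf
  rw [h3] at h1
  linarith

/-- the algebra of the classical (Riccati) step: `α/(1 + α Q_ww) = c/(η²(1 - c S))` with
`α = (1/η' - 1/η)/ι`, `η' = η - c ι`, `Q_ww = η (ι - η S)` -/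
theorem ric (e e' i S c : ℝ) (he : e ≠ 0) (he' : e' ≠ 0) (hi : i ≠ 0) (hc : e' = e - c * i)
    (hS : 1 - c * S ≠ 0) :
    1 + (1 / e' - 1 / e) / i * (e * (i - e * S)) = e * (1 - c * S) / e' ∧
    (1 / e' - 1 / e) / i / (1 + (1 / e' - 1 / e) / i * (e * (i - e * S))) =
      c / (1 - c * S) / e ^ 2 := by
  have e1 : (1 / e' - 1 / e) / i = c / (e * e') := by
    rw [div_sub_div _ _ he' he, div_div, div_eq_div_iff (by positivity) (by positivity), hc]
    ring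
  have e2 : 1 + c / (e * e') * (e * (i - e * S)) = e * (1 - c * S) / e' := by
    rw [eq_div_iff he', add_mul, one_mul]
    have : c / (e * e') * (e * (i - e * S)) * e' = c * (i - e * S) := by
      field_simp
    rw [this, hc]
    ring
  rw [e1]
  refine ⟨e2, ?_⟩
  rw [e2]
  field_simp

end Pool.Agent.ANS.Form
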