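import Mathlib

/-! # ANS FORM MAT: linear algebra (real matrices on a finite index set)

* `sm`: Sherman-Morrison for `M - th (M e)(M e)ᵀ`, `th = α/(1 + α M_ee)`:
  `(M - th (M e)(M e)ᵀ)(M⁻¹ + α e eᵀ) = 1`.
* `inv_diff`: `M' = Mc + E`, `Mc A = 1`, `M'` invertible: `M'⁻¹ = A - A E M'⁻¹`
  (`A Mc = 1` too; `A E M'⁻¹ = A (M' - Mc) M'⁻¹ = A - M'⁻¹`).
* `conj_id`: with `L` invertible, `C = Lᵀ M⁻¹ L`, `C' = Lᵀ M'⁻¹ L`, `F = L⁻¹ E (L⁻¹)ᵀ`,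
  `φ = Lᵀ e`, `A = M⁻¹ + α e eᵀ`: `C' = (C + α φφᵀ) - (C + α φφᵀ) F C'`. -/

set_option autoImplicit false

open Finset Matrix
open scoped MatrixOrder

noncomputable section

namespace Pool.Agent.ANS.Form

variable {κ : Type} [Fintype κ] [DecidableEq κ]

theorem sm {M : Matrix κ κ ℝ} (hM : M.IsSymm) (hu : IsUnit M.det) (e : κ) {α : ℝ}
    (hα : 1 + α * M e e ≠ 0) :
    (M - (α / (1 + α * M e e)) • vecMulVec (fun x => M x e) (fun x => M x e)) *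
      (M⁻¹ + α • vecMulVec (Pi.single e (1 : ℝ)) (Pi.single e 1)) = 1 := by
  have h1 : M * M⁻¹ = 1 := mul_nonsing_inv M hu
  have h2 : M *ᵥ (Pi.single e (1 : ℝ)) = fun x => M x e := by
    ext x
    simp
  have h3 : (fun x => M x e) ᵥ* M⁻¹ = Pi.single e (1 : ℝ) := by
    have h4 : (fun x => M x e) = (Pi.single e (1 : ℝ)) ᵥ* M := by
      ext x
      simp only [single_one_vecMul]
      exact hM.apply e x
    rw [h4, vecMul_vecMul, h1, vecMul_one]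
  have h5 : (fun x => M x e) ⬝ᵥ (Pi.single e (1 : ℝ)) = M e e := by
    simp
  rw [sub_mul, mul_add, mul_add, h1, mul_smul_comm, mul_vecMulVec, h2, smul_mul_assoc,
    smul_mul_assoc, mul_smul_comm, vecMulVec_mul, h3, vecMulVec_mul_vecMulVec, h5]
  have h6 : (α / (1 + α * M e e)) * (1 + α * M e e) = α := div_mul_cancel₀ _ hα
  ext x y
  simp only [Matrix.sub_apply, Matrix.add_apply, Matrix.smul_apply, vecMulVec_apply, smul_eq_mul,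
    Pi.smul_apply]
  linear_combination (-(M x e) * (Pi.single e (1 : ℝ) : κ → ℝ) y) * h6

theorem inv_diff {M' Mc A E : Matrix κ κ ℝ} (hu : IsUnit M'.det) (hA : Mc * A = 1)
    (hE : M' = Mc + E) : M'⁻¹ = A - A * E * M'⁻¹ := by
  have h1 : M' * M'⁻¹ = 1 := mul_nonsing_inv M' hu
  have h2 : A * Mc = 1 := mul_eq_one_comm.mp hA
  have h3 : E = M' - Mc := by rw [hE]; abel
  rw [h3, mul_sub, sub_mul, h2, one_mul, mul_assoc, h1, mul_one]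
  abel

theorem conj_id {M M' L E : Matrix κ κ ℝ} (hL : IsUnit L.det) (e : κ) (α : ℝ)
    (h : M'⁻¹ = (M⁻¹ + α • vecMulVec (Pi.single e (1 : ℝ)) (Pi.single e 1)) -
      (M⁻¹ + α • vecMulVec (Pi.single e (1 : ℝ)) (Pi.single e 1)) * E * M'⁻¹) :
    Lᵀ * M'⁻¹ * L = (Lᵀ * M⁻¹ * L + α • vecMulVec (fun x => L e x) (fun x => L e x)) -
      (Lᵀ * M⁻¹ * L + α • vecMulVec (fun x => L e x) (fun x => L e x)) *
        (L⁻¹ * E * (L⁻¹)ᵀ) * (Lᵀ * M'⁻¹ * L) := by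
  have h1 : L * L⁻¹ = 1 := mul_nonsing_inv L hL
  have h2 : (L⁻¹)ᵀ * Lᵀ = 1 := by rw [← transpose_mul, h1, transpose_one]
  have h3 : Lᵀ * (M⁻¹ + α • vecMulVec (Pi.single e (1 : ℝ)) (Pi.single e 1)) * L =
      Lᵀ * M⁻¹ * L + α • vecMulVec (fun x => L e x) (fun x => L e x) := by
    rw [mul_add, add_mul, mul_smul_comm, smul_mul_assoc, mul_vecMulVec, vecMulVec_mul]
    have h4 : Lᵀ *ᵥ (Pi.single e (1 : ℝ)) = fun x => L e x := by
      ext x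
      simp
    have h5 : (Pi.single e (1 : ℝ)) ᵥ* L = fun x => L e x := by
      ext x
      simp
    rw [h4, h5]
  rw [← h3]
  set A := M⁻¹ + α • vecMulVec (Pi.single e (1 : ℝ)) (Pi.single e 1) with hA
  have h6 : Lᵀ * A * L * (L⁻¹ * E * (L⁻¹)ᵀ) * (Lᵀ * M'⁻¹ * L) = Lᵀ * (A * E * M'⁻¹) * L := by
    calc Lᵀ * A * L * (L⁻¹ * E * (L⁻¹)ᵀ) * (Lᵀ * M'⁻¹ * L)
        = Lᵀ * A * (L * L⁻¹) * E * ((L⁻¹)ᵀ * Lᵀ) * M'⁻¹ * L := by simp only [mul_assoc]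
      _ = Lᵀ * (A * E * M'⁻¹) * L := by
        rw [h1, h2]
        simp only [mul_assoc, mul_one]
  rw [h6, ← sub_mul, ← mul_sub, ← h]

omit [DecidableEq κ] in
/-- symmetric matrices with `|v·f v| ≤ c |v|²` satisfy `|f v|² ≤ c² |v|²`
(spectral theorem, or polarisation of `v·f w`) -/
theorem op_of_form {f : Matrix κ κ ℝ} (hf : f.IsSymm) {c : ℝ}
    (h : ∀ v : κ → ℝ, |v ⬝ᵥ (f *ᵥ v)| ≤ c * (v ⬝ᵥ v)) (v : κ → ℝ) :
    (f *ᵥ v) ⬝ᵥ (f *ᵥ v) ≤ c ^ 2 * (v ⬝ᵥ v) := by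
  set w := f *ᵥ v with hw
  have hsym : ∀ a b : κ → ℝ, a ⬝ᵥ (f *ᵥ b) = b ⬝ᵥ (f *ᵥ a) := by
    intro a b
    rw [dotProduct_mulVec, ← mulVec_transpose, hf.eq, dotProduct_comm]
  have hww : 0 ≤ w ⬝ᵥ w := by
    simp only [dotProduct]
    exact Finset.sum_nonneg fun i _ => mul_self_nonneg _
  have hvv : 0 ≤ v ⬝ᵥ v := by
    simp only [dotProduct]
    exact Finset.sum_nonneg fun i _ => mul_self_nonneg _
  have key : ∀ t : ℝ, 4 * t * (w ⬝ᵥ w) ≤ 2 * c * (v ⬝ᵥ v + t ^ 2 * (w ⬝ᵥ w)) := by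
    intro t
    have h1 := (abs_le.mp (h (v + t • w))).2
    have h2 := (abs_le.mp (h (v - t • w))).1
    simp only [mulVec_add, mulVec_sub, mulVec_smul, dotProduct_add, add_dotProduct,
      dotProduct_sub, sub_dotProduct, smul_dotProduct, dotProduct_smul, smul_eq_mul] at h1 h2
    have h3 : v ⬝ᵥ (f *ᵥ w) = w ⬝ᵥ w := by rw [hsym v w, ← hw]
    have h4 : w ⬝ᵥ (f *ᵥ v) = w ⬝ᵥ w := by rw [← hw]
    have h5 : w ⬝ᵥ v = v ⬝ᵥ w := dotProduct_comm _ _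
    rw [h3, h4, h5] at h1 h2
    nlinarith [h1, h2]
  rcases lt_trichotomy c 0 with hc | hc | hc
  · have h1 : v ⬝ᵥ v = 0 := by
      have h2 : 0 ≤ c * (v ⬝ᵥ v) := le_trans (abs_nonneg _) (h v)
      nlinarith [h2, hvv]
    have h3 : v = 0 := dotProduct_self_eq_zero.mp h1
    have h4 : w = 0 := by rw [hw, h3, mulVec_zero]
    rw [h4, h1]
    simp
  · have h1 := key 1
    rw [hc] at h1 ⊢
    nlinarith [h1]
  · have h1 := key (1 / c)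
    have h2 : 4 * (1 / c) * (w ⬝ᵥ w) * c ≤ 2 * c * (v ⬝ᵥ v + (1 / c) ^ 2 * (w ⬝ᵥ w)) * c :=
      mul_le_mul_of_nonneg_right h1 hc.le
    have h3 : 4 * (1 / c) * (w ⬝ᵥ w) * c = 4 * (w ⬝ᵥ w) := by
      field_simp
    have h4 : 2 * c * (v ⬝ᵥ v + (1 / c) ^ 2 * (w ⬝ᵥ w)) * c =
        2 * c ^ 2 * (v ⬝ᵥ v) + 2 * (w ⬝ᵥ w) := by
      field_simp
    rw [h3, h4] at h2
    linarith

/-- factorisation of a positive definite matrix `Q = L Lᵀ` -/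
theorem exists_fac {Q : Matrix κ κ ℝ} (hQ : Q.PosDef) :
    ∃ L : Matrix κ κ ℝ, Q = L * Lᵀ ∧ IsUnit L.det := by
  obtain ⟨B, hB⟩ : ∃ B : Matrix κ κ ℝ, Q = Bᴴ * B := by
    obtain ⟨B, hB⟩ := CStarAlgebra.nonneg_iff_eq_star_mul_self.mp hQ.posSemidef.nonneg
    exact ⟨B, by rw [hB, star_eq_conjTranspose]⟩
  refine ⟨Bᵀ, ?_, ?_⟩
  · rw [hB, transpose_transpose, conjTranspose_eq_transpose_of_trivial]
  · have h1 : Q.det = B.det * B.det := by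
      rw [hB, det_mul, conjTranspose_eq_transpose_of_trivial, det_transpose]
    have h2 : 0 < Q.det := hQ.det_pos
    rw [det_transpose]
    refine isUnit_iff_ne_zero.mpr ?_
    intro h0
    rw [h1, h0] at h2
    simp at h2

end Pool.Agent.ANS.Form
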