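import Pool.Agent.ANS.Form.Eid
import Pool.Agent.ANS.Form.Mat
import Pool.Agent.ANS.Form.AbsN
import Pool.Agent.ANS.DigW

/-! # ANS FORM LINK: the forms of a step `P : Stp T D` at a configuration `s`

`h : P.Ok X N c be e C Lm`.
* `gm`: `Gm (P.G s) (P.eta s)`: `h.symm`, `h.eta0`, `h.ward_s`, `h.contr` (`η = 0` exactly off `X`).
* `upd`: `Upd` for `s → s^{w→b}` with `u = P.u s w b`, `δ = P.dlt s w b` (`h.rank1`).
* `qf_qm`: `∑ v_x Qm_xy v'_y = Qf v v'` by Ward.
* `qb_form`: the same for vectors on `B`, `ext B v` = extension by zero.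
* `io1'`: `Im G_xx(s) ≥ 1/(2C)` from `Ent X a s`, `2 C a ≤ 1`.
* `ctS_le`: `|ct S_ww| ≤ 16 C⁴ be² ≤ 1/100`: `|δ| ≤ 2 C be²` (`|Im inc| ≤ be² C`), `1/ι ≤ 2 C`, `S_ww ≤ 4 C²`.
* `qb_upd`: matrix form of `qf_eid` + `ric` + `qf_single`, for `w ∈ B`.
* `off`: at `w ∉ N` nothing changes. -/

set_option autoImplicit false

open Finset Function Matrix

noncomputable section

namespace Pool.Agent.ANS

open Pool.Agent.ANS.Form

variable {T D : Type} [Fintype T] [DecidableEq T]

namespace Form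

variable {G : Matrix T T ℂ} {η : T → ℝ} {w : T}

omit [DecidableEq T] in
theorem Tf_comm (a b : T → ℝ) : Tf G η w a b = Tf G η w b a := by
  unfold Tf
  congr 1
  refine Finset.sum_congr rfl fun x _ => Finset.sum_congr rfl fun y _ => ?_
  rw [mul_comm (a x - a y)]

omit [DecidableEq T] in
theorem Bf_comm (a b : T → ℝ) : Bf G η w a b = Bf G η w b a := by
  unfold Bf
  congr 1
  refine Finset.sum_congr rfl fun x _ => Finset.sum_congr rfl fun y _ => ?_
  rw [mul_comm (a x - a y)]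

omit [DecidableEq T] in
theorem Gf_comm (a b : T → ℝ) : Gf G η w a b = Gf G η w b a := by
  unfold Gf
  refine Finset.sum_congr rfl fun x _ => ?_
  rw [mul_comm (a x - a w)]

omit [DecidableEq T] in
theorem Qf_comm (a b : T → ℝ) : Qf G η a b = Qf G η b a := by
  unfold Qf
  congr 1
  refine Finset.sum_congr rfl fun x _ => Finset.sum_congr rfl fun y _ => ?_
  rw [mul_comm (a x - a y)]

omit [DecidableEq T] in
theorem Ef_comm {c1 : ℂ} {c2 c3 : ℝ} (a b : T → ℝ) :
    Ef G η w c1 c2 c3 a b = Ef G η w c1 c2 c3 b a := by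
  unfold Ef
  rw [Tf_comm, Bf_comm, Gf_comm]

omit [DecidableEq T] in
theorem Tf_add (a a' b : T → ℝ) : Tf G η w (a + a') b = Tf G η w a b + Tf G η w a' b := by
  unfold Tf
  rw [← mul_add, ← Finset.sum_add_distrib]
  congr 1
  refine Finset.sum_congr rfl fun x _ => ?_
  rw [← Finset.sum_add_distrib]
  refine Finset.sum_congr rfl fun y _ => ?_
  simp only [Pi.add_apply]
  push_cast
  ring

omit [DecidableEq T] in
theorem Tf_smul (t : ℝ) (a b : T → ℝ) : Tf G η w (t • a) b = (t : ℂ) * Tf G η w a b := by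
  unfold Tf
  rw [mul_left_comm (t : ℂ)]
  congr 1
  rw [Finset.mul_sum]
  refine Finset.sum_congr rfl fun x _ => ?_
  rw [Finset.mul_sum]
  refine Finset.sum_congr rfl fun y _ => ?_
  simp only [Pi.smul_apply, smul_eq_mul]
  push_cast
  ring

omit [DecidableEq T] in
theorem Bf_add (a a' b : T → ℝ) : Bf G η w (a + a') b = Bf G η w a b + Bf G η w a' b := by
  unfold Bf
  rw [← mul_add, ← Finset.sum_add_distrib]
  congr 1
  refine Finset.sum_congr rfl fun x _ => ?_
  rw [← Finset.sum_add_distrib]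
  refine Finset.sum_congr rfl fun y _ => ?_
  simp only [Pi.add_apply]
  ring

omit [DecidableEq T] in
theorem Bf_smul (t : ℝ) (a b : T → ℝ) : Bf G η w (t • a) b = t * Bf G η w a b := by
  unfold Bf
  rw [mul_left_comm t]
  congr 1
  rw [Finset.mul_sum]
  refine Finset.sum_congr rfl fun x _ => ?_
  rw [Finset.mul_sum]
  refine Finset.sum_congr rfl fun y _ => ?_
  simp only [Pi.smul_apply, smul_eq_mul]
  ring

omit [DecidableEq T] in
theorem Gf_add (a a' b : T → ℝ) : Gf G η w (a + a') b = Gf G η w a b + Gf G η w a' b := by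
  unfold Gf
  rw [← Finset.sum_add_distrib]
  refine Finset.sum_congr rfl fun x _ => ?_
  simp only [Pi.add_apply]
  ring

omit [DecidableEq T] in
theorem Gf_smul (t : ℝ) (a b : T → ℝ) : Gf G η w (t • a) b = t * Gf G η w a b := by
  unfold Gf
  rw [Finset.mul_sum]
  refine Finset.sum_congr rfl fun x _ => ?_
  simp only [Pi.smul_apply, smul_eq_mul]
  ring

omit [DecidableEq T] in
theorem Qf_add (a a' b : T → ℝ) : Qf G η (a + a') b = Qf G η a b + Qf G η a' b := by
  unfold Qf
  rw [← mul_add, ← Finset.sum_add_distrib]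
  congr 1
  refine Finset.sum_congr rfl fun x _ => ?_
  rw [← Finset.sum_add_distrib]
  refine Finset.sum_congr rfl fun y _ => ?_
  simp only [Pi.add_apply]
  ring

omit [DecidableEq T] in
theorem Qf_smul (t : ℝ) (a b : T → ℝ) : Qf G η (t • a) b = t * Qf G η a b := by
  unfold Qf
  rw [mul_left_comm t]
  congr 1
  rw [Finset.mul_sum]
  refine Finset.sum_congr rfl fun x _ => ?_
  rw [Finset.mul_sum]
  refine Finset.sum_congr rfl fun y _ => ?_
  simp only [Pi.smul_apply, smul_eq_mul]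
  ring

omit [DecidableEq T] in
theorem Ef_add {c1 : ℂ} {c2 c3 : ℝ} (a a' b : T → ℝ) :
    Ef G η w c1 c2 c3 (a + a') b = Ef G η w c1 c2 c3 a b + Ef G η w c1 c2 c3 a' b := by
  unfold Ef
  rw [Tf_add, Bf_add, Gf_add, mul_add c1, Complex.add_re]
  ring

omit [DecidableEq T] in
theorem Ef_smul {c1 : ℂ} {c2 c3 : ℝ} (t : ℝ) (a b : T → ℝ) :
    Ef G η w c1 c2 c3 (t • a) b = t * Ef G η w c1 c2 c3 a b := by
  unfold Ef
  rw [Tf_smul, Bf_smul, Gf_smul, ← mul_assoc c1, mul_comm c1, mul_assoc, Complex.re_ofReal_mul]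
  ring

/-- bilinear forms on functions supported in `B` -/
theorem bil_ext {B : Finset T} (F : (T → ℝ) → (T → ℝ) → ℝ) (hc : ∀ a b, F a b = F b a)
    (ha : ∀ a a' b, F (a + a') b = F a b + F a' b) (hs : ∀ (t : ℝ) a b, F (t • a) b = t * F a b)
    (v v' : ↥B → ℝ) :
    ∑ x : ↥B, ∑ y : ↥B, v x * (F (Pi.single x.1 1) (Pi.single y.1 1) * v' y) =
      F (fun x => if h : x ∈ B then v ⟨x, h⟩ else 0) (fun x => if h : x ∈ B then v' ⟨x, h⟩ else 0) := by
  let L : (T → ℝ) →ₗ[ℝ] (T → ℝ) →ₗ[ℝ] ℝ := LinearMap.mk₂ ℝ F ha hs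
    (fun a b b' => by rw [hc, ha, hc b, hc b']) (fun t a b => by rw [hc, hs, hc]; rfl)
  have hL : ∀ a b, F a b = L a b := fun a b => rfl
  have he : ∀ v : ↥B → ℝ, (fun x => if h : x ∈ B then v ⟨x, h⟩ else 0) =
      ∑ x : ↥B, v x • (Pi.single x.1 (1 : ℝ) : T → ℝ) := by
    intro v
    funext t
    rw [Finset.sum_apply]
    by_cases ht : t ∈ B
    · rw [dif_pos ht, Finset.sum_eq_single (⟨t, ht⟩ : ↥B)]
      · simp
      · intro y _ hy
        have : t ≠ y.1 := fun h => hy (Subtype.ext h.symm)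
        simp [this]
      · intro h
        exact absurd (Finset.mem_univ _) h
    · rw [dif_neg ht]
      symm
      refine Finset.sum_eq_zero fun y _ => ?_
      have : t ≠ y.1 := fun h => ht (h ▸ y.2)
      simp [this]
  rw [he v, he v', hL]
  simp only [map_sum, map_smul, LinearMap.sum_apply, LinearMap.smul_apply, smul_eq_mul]
  rw [Finset.sum_comm]
  refine Finset.sum_congr rfl fun y _ => ?_
  rw [Finset.mul_sum]
  refine Finset.sum_congr rfl fun x _ => ?_
  rw [hL]
  ring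

end Form

namespace Stp

/-- extension by zero -/
def _root_.Pool.Agent.ANS.Form.ext (B : Finset T) (v : ↥B → ℝ) : T → ℝ := fun x =>
  if h : x ∈ B then v ⟨x, h⟩ else 0

variable (P : Stp T D)

/-- `η_w(s^{w→b}) - η_w(s)` -/
def dlt (s : T → Option D) (w : T) (b : Option D) : ℝ :=
  P.eta (update s w b) w - P.eta s w

/-- `c = -δ/ι` -/
def ct (s : T → Option D) (w : T) (b : Option D) : ℝ := -P.dlt s w b / P.io s w

/-- `θ = |u|² - c/(1 - c S)` -/
def th (s : T → Option D) (w : T) (b : Option D) : ℝ :=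
  ‖P.u s w b‖ ^ 2 - P.ct s w b / (1 - P.ct s w b * ‖P.G s w w‖ ^ 2)

/-- coefficient of `Γ` -/
def c3 (s : T → Option D) (w : T) (b : Option D) : ℝ :=
  P.ct s w b * P.io s w * (2 * (P.u s w b * P.G s w w).re - P.th s w b * ‖P.G s w w‖ ^ 2)

/-- `α = (1/η' - 1/η)/ι` -/
def al (s : T → Option D) (w : T) (b : Option D) : ℝ :=
  (1 / P.eta (update s w b) w - 1 / P.eta s w) / P.io s w

/-- the noise matrix on `B` -/
def EB (B : Finset T) (s : T → Option D) (w : T) (b : Option D) : Matrix ↥B ↥B ℝ := fun x y =>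
  Ef (P.G s) (P.eta s) w (P.u s w b) (P.th s w b) (P.c3 s w b) (Pi.single x.1 1)
    (Pi.single y.1 1)

variable {P} [Fintype D] {X N B : Finset T} {c be e : T → ℝ} {C Lm : ℝ}

namespace Ok

variable (h : P.Ok X N c be e C Lm)
include h

theorem gm (s : T → Option D) : Gm (P.G s) (P.eta s) where
  sym := h.symm s
  eta0 := h.eta0 s
  ward x := (h.ward_s s x).symm
  contr f hf := by
    have h1 := h.contr s f (fun x hx => hf x (h.etaU' s hx))
    refine h1.trans ?_
    exact Finset.sum_le_sum_of_subset_of_nonneg (Finset.subset_univ X) fun x _ _ =>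
      div_nonneg (sq_nonneg _) (h.eta0 s x)

theorem upd (s : T → Option D) (w : T) (b : Option D) :
    Upd (P.G s) (P.G (update s w b)) (P.eta s) (P.eta (update s w b)) w (P.u s w b)
      (P.dlt s w b) where
  G x y := by
    rw [h.rank1]
    ring
  eta x := by
    by_cases hx : x = w
    · subst hx
      rw [if_pos rfl]
      unfold dlt
      ring
    · rw [if_neg hx, add_zero]
      unfold eta bs
      rw [update_of_ne hx]

theorem qf_qm (s : T → Option D) (v v' : T → ℝ) :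
    ∑ x, ∑ y, v x * P.Qm s x y * v' y = Qf (P.G s) (P.eta s) v v' := by
  have hw : ∀ x, ∑ y, P.eta s y * ‖P.G s x y‖ ^ 2 = P.io s x := fun x => h.ward_s s x
  have e1 : ∑ x, ∑ y, v x * P.Qm s x y * v' y =
      ∑ x, v x * v' x * (P.eta s x * P.io s x) -
        ∑ x, ∑ y, P.eta s x * P.eta s y * ‖P.G s x y‖ ^ 2 * (v x * v' y) := by
    rw [← Finset.sum_sub_distrib]
    refine Finset.sum_congr rfl fun x _ => ?_
    have e2 : ∀ y, v x * P.Qm s x y * v' y =
        (if x = y then v x * (P.eta s x * P.io s x) * v' y else 0) -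
          P.eta s x * P.eta s y * ‖P.G s x y‖ ^ 2 * (v x * v' y) := by
      intro y
      unfold Qm S
      by_cases hxy : x = y
      · rw [if_pos hxy, if_pos hxy]
        ring
      · rw [if_neg hxy, if_neg hxy]
        ring
    simp only [e2, Finset.sum_sub_distrib]
    rw [Finset.sum_ite_eq Finset.univ x (fun y => v x * (P.eta s x * P.io s x) * v' y),
      if_pos (Finset.mem_univ x)]
    ring
  have e3 : ∑ x, ∑ y, P.eta s x * P.eta s y * ‖P.G s x y‖ ^ 2 * ((v x - v y) * (v' x - v' y)) =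
      (∑ x, ∑ y, P.eta s x * P.eta s y * ‖P.G s x y‖ ^ 2 * (v x * v' x) +
        ∑ x, ∑ y, P.eta s x * P.eta s y * ‖P.G s x y‖ ^ 2 * (v y * v' y)) -
      (∑ x, ∑ y, P.eta s x * P.eta s y * ‖P.G s x y‖ ^ 2 * (v x * v' y) +
        ∑ x, ∑ y, P.eta s x * P.eta s y * ‖P.G s x y‖ ^ 2 * (v y * v' x)) := by
    rw [← Finset.sum_add_distrib, ← Finset.sum_add_distrib, ← Finset.sum_sub_distrib]
    refine Finset.sum_congr rfl fun x _ => ?_
    rw [← Finset.sum_add_distrib, ← Finset.sum_add_distrib, ← Finset.sum_sub_distrib]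
    refine Finset.sum_congr rfl fun y _ => ?_
    ring
  have e4 : ∑ x, ∑ y, P.eta s x * P.eta s y * ‖P.G s x y‖ ^ 2 * (v x * v' x) =
      ∑ x, v x * v' x * (P.eta s x * P.io s x) := by
    refine Finset.sum_congr rfl fun x _ => ?_
    rw [← hw x, Finset.mul_sum, Finset.mul_sum]
    refine Finset.sum_congr rfl fun y _ => ?_
    ring
  have e5 : ∑ x, ∑ y, P.eta s x * P.eta s y * ‖P.G s x y‖ ^ 2 * (v y * v' y) =
      ∑ x, v x * v' x * (P.eta s x * P.io s x) := by
    rw [← e4, Finset.sum_comm]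
    refine Finset.sum_congr rfl fun y _ => Finset.sum_congr rfl fun x _ => ?_
    rw [h.symm s x y]
    ring
  have e6 : ∑ x, ∑ y, P.eta s x * P.eta s y * ‖P.G s x y‖ ^ 2 * (v y * v' x) =
      ∑ x, ∑ y, P.eta s x * P.eta s y * ‖P.G s x y‖ ^ 2 * (v x * v' y) := by
    rw [Finset.sum_comm]
    refine Finset.sum_congr rfl fun y _ => Finset.sum_congr rfl fun x _ => ?_
    rw [h.symm s x y]
    ring
  rw [e1]
  unfold Qf
  rw [e3, e4, e5, e6]
  ring

theorem qm_single (s : T → Option D) (x y : T) :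
    P.Qm s x y = Qf (P.G s) (P.eta s) (Pi.single x 1) (Pi.single y 1) := by
  rw [← h.qf_qm s, Finset.sum_eq_single x, Finset.sum_eq_single y]
  · simp
  · intro z _ hz
    simp [hz]
  · intro h
    exact absurd (Finset.mem_univ _) h
  · intro z _ hz
    refine Finset.sum_eq_zero fun t _ => ?_
    simp [hz]
  · intro h
    exact absurd (Finset.mem_univ _) h

theorem qb_form (s : T → Option D) (v v' : ↥B → ℝ) :
    v ⬝ᵥ (P.QB B s *ᵥ v') = Qf (P.G s) (P.eta s) (ext B v) (ext B v') := by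
  have h1 := bil_ext (fun a b => Qf (P.G s) (P.eta s) a b) (fun a b => Qf_comm a b)
    (fun a a' b => Qf_add a a' b) (fun t a b => Qf_smul t a b) v v'
  unfold Form.ext
  refine Eq.trans ?_ h1
  simp only [dotProduct, mulVec]
  refine Finset.sum_congr rfl fun x _ => ?_
  rw [Finset.mul_sum]
  refine Finset.sum_congr rfl fun y _ => ?_
  unfold QB
  rw [submatrix_apply, h.qm_single]

theorem qb_symm (s : T → Option D) : (P.QB B s).IsSymm := by
  ext x y
  unfold QB
  rw [transpose_apply, submatrix_apply, submatrix_apply, h.qm_single, h.qm_single, Qf_comm]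

omit h [Fintype D] in
theorem eb_form (s : T → Option D) (w : T) (b : Option D) (v v' : ↥B → ℝ) :
    v ⬝ᵥ (P.EB B s w b *ᵥ v') =
      Ef (P.G s) (P.eta s) w (P.u s w b) (P.th s w b) (P.c3 s w b) (ext B v) (ext B v') := by
  have h1 := bil_ext (fun a b' => Ef (P.G s) (P.eta s) w (P.u s w b) (P.th s w b) (P.c3 s w b) a b')
    (fun a b => Ef_comm a b) (fun a a' b => Ef_add a a' b) (fun t a b => Ef_smul t a b) v v'
  unfold Form.ext
  refine Eq.trans ?_ h1
  simp only [dotProduct, mulVec]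
  refine Finset.sum_congr rfl fun x _ => ?_
  rw [Finset.mul_sum]
  rfl

omit h [Fintype D] in
theorem eb_symm (s : T → Option D) (w : T) (b : Option D) : (P.EB B s w b).IsSymm := by
  ext x y
  rw [transpose_apply]
  unfold EB
  rw [Ef_comm]



theorem gd_le {a : ℝ} {s : T → Option D} (hE : P.Ent X a s) {w : T} (hw : w ∈ X) :
    ‖P.G s w w - P.gt w‖ ≤ a := by
  have h2 : P.G nil w w = P.gt w := by
    have h3 : P.bs nil = P.b := by
      funext x
      simp [bs, nil, inc]
    unfold G gt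
    rw [h3]
  rw [← h2]
  exact hE w hw w hw

theorem io1' {a : ℝ} (ha : 2 * C * a ≤ 1) {s : T → Option D} (hE : P.Ent X a s) {x : T}
    (hx : x ∈ X) : 1 ≤ 2 * C * P.io s x := by
  have h1 := h.io1 x hx
  have h2 := hE x hx x hx
  have hC := h.C0
  have h3 : P.io nil x - P.io s x ≤ a := by
    have h4 := Complex.abs_im_le_norm (P.G s x x - P.G nil x x)
    rw [Complex.sub_im] at h4
    have h5 := (abs_le.1 (h4.trans h2)).1
    unfold io
    linarith
  have h6 := mul_le_mul_of_nonneg_left h3 hC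
  linarith

theorem dlt_le (s : T → Option D) (w : T) (b : Option D) :
    |P.dlt s w b| ≤ 2 * C * be w ^ 2 := by
  have hC := h.C0
  have h1 : ∀ d : Option D, |(P.inc w d).im| ≤ C * be w ^ 2 := by
    intro d
    have hnn : 0 ≤ C * be w ^ 2 := mul_nonneg hC (sq_nonneg _)
    by_cases hN : w ∈ N
    · cases d with
      | none => simpa [inc] using hnn
      | some d =>
        have e1 : (P.inc w (some d)).im = P.g.zt w d * (P.gt w).im := by
          simp [inc]
        rw [e1, abs_mul, mul_comm C]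
        exact mul_le_mul (h.dig.zt_le w d) ((Complex.abs_im_le_norm _).trans (h.gt_le (h.NX hN)))
          (abs_nonneg _) (sq_nonneg _)
    · rw [h.inc_off hN]
      simpa using hnn
  have h2 : P.dlt s w b = (P.inc w (s w)).im - (P.inc w b).im := by
    unfold dlt eta bs
    rw [update_self]
    simp only [Complex.add_im]
    ring
  rw [h2]
  have h3 := abs_sub (P.inc w (s w)).im (P.inc w b).im
  have h4 := h1 (s w)
  have h5 := h1 b
  linarith

theorem ct_le {a : ℝ} (ha : 2 * C * a ≤ 1) {s : T → Option D} (hE : P.Ent X a s) (w : T)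
    (b : Option D) : |P.ct s w b| ≤ 4 * C ^ 2 * be w ^ 2 := by
  have h1 := h.dlt_le s w b
  have hC := h.C0
  by_cases hN : w ∈ N
  · have h2 := h.io1' ha hE (h.NX hN)
    have h3 : 0 < P.io s w := by
      rcases h.io0 s w |>.lt_or_eq with h4 | h4
      · exact h4
      · rw [← h4, mul_zero] at h2
        linarith
    unfold ct
    rw [abs_div, abs_neg, abs_of_pos h3, div_le_iff₀ h3]
    have h4 : 2 * C * be w ^ 2 ≤ (2 * C * be w ^ 2) * (2 * C * P.io s w) :=
      le_mul_of_one_le_right (mul_nonneg (mul_nonneg (by norm_num) hC) (sq_nonneg _)) h2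
    refine h1.trans (h4.trans (le_of_eq ?_))
    ring
  · rw [h.beN w hN] at h1
    have h2 : P.dlt s w b = 0 := by
      rw [← abs_nonpos_iff]
      linarith
    unfold ct
    rw [h2, neg_zero, zero_div, abs_zero]
    exact mul_nonneg (mul_nonneg (by norm_num) (sq_nonneg _)) (sq_nonneg _)

theorem ctS_le {a : ℝ} (ha0 : a ≤ 1) (ha : 2 * C * a ≤ 1) {s : T → Option D}
    (hE : P.Ent X a s) (w : T) (b : Option D) :
    |P.ct s w b * ‖P.G s w w‖ ^ 2| ≤ 1 / 100 := by
  have h1 := h.ct_le ha hE w b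
  have hC := h.C0
  have hbe := h.bes w
  have hb0 := h.be0 w
  have hE1 : P.Ent X 1 s := fun x hx y hy => (hE x hx y hy).trans ha0
  rw [abs_mul, abs_of_nonneg (sq_nonneg ‖P.G s w w‖)]
  by_cases hN : w ∈ N
  · have h2 := h.diaC hE1 (h.NX hN)
    have h3 : ‖P.G s w w‖ ^ 2 ≤ (2 * C) ^ 2 := pow_le_pow_left₀ (norm_nonneg _) h2 2
    have h4 : |P.ct s w b| * ‖P.G s w w‖ ^ 2 ≤ (4 * C ^ 2 * be w ^ 2) * (2 * C) ^ 2 :=
      mul_le_mul h1 h3 (sq_nonneg _) (mul_nonneg (mul_nonneg (by norm_num) (sq_nonneg _))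
        (sq_nonneg _))
    have h5 : (4 * C ^ 2 * be w ^ 2) * (2 * C) ^ 2 = 16 * (C ^ 2 * be w) ^ 2 := by ring
    have h6 : 0 ≤ C ^ 2 * be w := mul_nonneg (sq_nonneg _) hb0
    have h7 : C ^ 2 * be w ≤ 1 / 100 := by linarith
    have h8 : (C ^ 2 * be w) ^ 2 ≤ (1 / 100) ^ 2 := pow_le_pow_left₀ h6 h7 2
    rw [h5] at h4
    linarith
  · rw [h.beN w hN] at h1
    have h2 : |P.ct s w b| = 0 := le_antisymm (by linarith) (abs_nonneg _)
    rw [h2, zero_mul]
    norm_num

/-- `w ∈ B`: the matrix identity -/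
theorem qb_upd {a : ℝ} (ha0 : a ≤ 1) (ha : 2 * C * a ≤ 1) {s : T → Option D}
    (hE : P.Ent X a s) (hBX : B ⊆ X) (w : ↥B) (b : Option D) :
    1 + P.al s w b * P.QB B s w w ≠ 0 ∧
    P.QB B (update s w.1 b) = (P.QB B s - (P.al s w b / (1 + P.al s w b * P.QB B s w w)) •
      vecMulVec (fun x => P.QB B s x w) (fun x => P.QB B s x w)) + P.EB B s w b := by
  have hwX : w.1 ∈ X := hBX w.2
  have hm := h.gm s
  have hS := h.ctS_le ha0 ha hE w.1 b
  have hS1 : 1 - P.ct s w.1 b * ‖P.G s w.1 w.1‖ ^ 2 ≠ 0 := by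
    have := (abs_le.1 hS).2
    intro h0
    linarith
  have hio := h.io1' ha hE hwX
  have hio0 : P.io s w.1 ≠ 0 := by
    intro h0
    rw [h0, mul_zero] at hio
    linarith
  have he : P.eta s w.1 ≠ 0 := (h.etaX' s hwX).ne'
  have he' : P.eta (update s w.1 b) w.1 ≠ 0 := (h.etaX' _ hwX).ne'
  have hc : P.dlt s w.1 b = -(P.ct s w.1 b * (P.G s w.1 w.1).im) := by
    unfold ct
    have : (P.G s w.1 w.1).im = P.io s w.1 := rfl
    rw [this]
    field_simp
  have hc' : P.eta (update s w.1 b) w.1 = P.eta s w.1 - P.ct s w.1 b * P.io s w.1 := by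
    have : P.ct s w.1 b * P.io s w.1 = -P.dlt s w.1 b := by rw [hc]; unfold io; ring
    rw [this]
    unfold dlt
    ring
  obtain ⟨r1, r2⟩ := ric (P.eta s w.1) (P.eta (update s w.1 b) w.1) (P.io s w.1)
    (‖P.G s w.1 w.1‖ ^ 2) (P.ct s w.1 b) he he' hio0 hc' hS1
  have hQww : P.QB B s w w = P.eta s w.1 * (P.io s w.1 - P.eta s w.1 * ‖P.G s w.1 w.1‖ ^ 2) := by
    unfold QB
    rw [submatrix_apply]
    unfold Qm S
    rw [if_pos rfl]
    ring
  have hal : P.al s w.1 b = (1 / P.eta (update s w.1 b) w.1 - 1 / P.eta s w.1) / P.io s w.1 := rfl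
  rw [← hal, ← hQww] at r1 r2
  refine ⟨?_, ?_⟩
  · rw [r1]
    exact div_ne_zero (mul_ne_zero he hS1) he'
  · rw [r2]
    ext x y
    have hx : ∀ x : ↥B, P.QB B s x w = P.eta s w.1 * qw (P.G s) (P.eta s) w.1 (Pi.single x.1 1) := by
      intro x
      unfold QB
      rw [submatrix_apply, h.qm_single, qf_single hm.sym]
    rw [Matrix.add_apply, Matrix.sub_apply, Matrix.smul_apply, vecMulVec_apply, hx x, hx y,
      smul_eq_mul]
    have e1 := qf_eid hm (h.upd s w.1 b) hc hS1 (Pi.single x.1 1) (Pi.single y.1 1)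
    have e2 : P.QB B (update s w.1 b) x y = Qf (P.G (update s w.1 b)) (P.eta (update s w.1 b))
        (Pi.single x.1 1) (Pi.single y.1 1) := by
      unfold QB
      rw [submatrix_apply, h.qm_single]
    have e3 : P.QB B s x y = Qf (P.G s) (P.eta s) (Pi.single x.1 1) (Pi.single y.1 1) := by
      unfold QB
      rw [submatrix_apply, h.qm_single]
    rw [e2, e3, e1]
    have e4 : P.EB B s w.1 b x y = Ef (P.G s) (P.eta s) w.1 (P.u s w.1 b) (P.th s w.1 b)
      (P.c3 s w.1 b) (Pi.single x.1 1) (Pi.single y.1 1) := rfl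
    rw [e4]
    have e5 : P.ct s w.1 b / (1 - P.ct s w.1 b * ‖P.G s w.1 w.1‖ ^ 2) / P.eta s w.1 ^ 2 *
        (P.eta s w.1 * qw (P.G s) (P.eta s) w.1 (Pi.single x.1 1) *
          (P.eta s w.1 * qw (P.G s) (P.eta s) w.1 (Pi.single y.1 1))) =
        P.ct s w.1 b / (1 - P.ct s w.1 b * ‖P.G s w.1 w.1‖ ^ 2) *
          (qw (P.G s) (P.eta s) w.1 (Pi.single x.1 1) *
            qw (P.G s) (P.eta s) w.1 (Pi.single y.1 1)) := by
      field_simp
    rw [e5]
    rfl

/-- at `w ∉ N` nothing changes -/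
theorem off {w : T} (hw : w ∉ N) (s : T → Option D) (b : Option D) :
    P.bs (update s w b) = P.bs s ∧ P.u s w b = 0 ∧ P.dlt s w b = 0 ∧ P.ct s w b = 0 ∧
      P.th s w b = 0 ∧ P.c3 s w b = 0 ∧ P.al s w b = 0 := by
  have h1 : ∀ d, P.inc w d = 0 := fun d => h.inc_off hw d
  have hbs : P.bs (update s w b) = P.bs s := by
    funext x
    by_cases hx : x = w
    · subst hx
      unfold bs
      rw [h1, h1]
    · unfold bs
      rw [update_of_ne hx]
  have hu : P.u s w b = 0 := by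
    unfold u nu
    rw [h1, h1, sub_zero, zero_div]
  have heta : P.eta (update s w b) w = P.eta s w := by
    unfold eta
    rw [hbs]
  have hd : P.dlt s w b = 0 := by
    unfold dlt
    rw [heta, sub_self]
  have hct : P.ct s w b = 0 := by
    unfold ct
    rw [hd, neg_zero, zero_div]
  have hth : P.th s w b = 0 := by
    unfold th
    rw [hu, hct]
    simp
  refine ⟨hbs, hu, hd, hct, hth, ?_, ?_⟩
  · unfold c3
    rw [hct]
    simp
  · unfold al
    rw [heta]
    simp

end Ok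

end Stp

end Pool.Agent.ANS
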