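import Mathlib

/-! # ANS FORM MAT2: positive definite real matrices (Mathlib only)

* `cs_inv`: Cauchy-Schwarz `(x·y)² ≤ (x·Q x)(y·Q⁻¹ y)`.  (`0 ≤ (x - t Q⁻¹ y)·Q (x - t Q⁻¹ y)
  = x·Qx - 2 t x·y + t² y·Q⁻¹y` for all `t`.)
* `inv_mono`: `A ≤ c B` implies `B⁻¹ ≤ c A⁻¹`: `x = B⁻¹ v`: `(v·B⁻¹v)² = (x·v)² ≤ (x·A x)(v·A⁻¹ v)
  ≤ c (x·B x)(v·A⁻¹ v) = c (v·B⁻¹ v)(v·A⁻¹v)`.
* `map_real_op`: a real matrix with `|M v|² ≤ c² |v|²` for real `v` satisfies the same for complex `v`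
  (real and imaginary part), in sum form for a family.
* `bil_op`: `|v'·M v| ≤ x |v'| |v|` implies `|M v|² ≤ x² |v|²` (take `v' = M v`).
* `eig_one`: hermitian `f` with `Re Tr f^(2p) ≤ 1`: see `Pool.Agent.APS.opLe_of_tr0`. -/

set_option autoImplicit false

open Finset Matrix

noncomputable section

namespace Pool.Agent.ANS.Form

variable {κ : Type} [Fintype κ] [DecidableEq κ]

private theorem qnn {Q : Matrix κ κ ℝ} (hQ : Q.PosDef) (x : κ → ℝ) : 0 ≤ x ⬝ᵥ (Q *ᵥ x) := by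
  have h := hQ.posSemidef.dotProduct_mulVec_nonneg x
  rwa [star_trivial] at h

omit [DecidableEq κ] in
private theorem qsymm {Q : Matrix κ κ ℝ} (hQ : Q.IsHermitian) (x y : κ → ℝ) :
    x ⬝ᵥ (Q *ᵥ y) = y ⬝ᵥ (Q *ᵥ x) := by
  have h : Qᵀ = Q := by
    have h1 := hQ.eq
    rwa [conjTranspose_eq_transpose_of_trivial] at h1
  rw [dotProduct_mulVec, ← mulVec_transpose, h, dotProduct_comm]

private theorem qcs {Q : Matrix κ κ ℝ} (hQ : Q.PosDef) (x z : κ → ℝ) :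
    (x ⬝ᵥ (Q *ᵥ z)) ^ 2 ≤ (x ⬝ᵥ (Q *ᵥ x)) * (z ⬝ᵥ (Q *ᵥ z)) := by
  have h : ∀ t : ℝ, 0 ≤ (z ⬝ᵥ (Q *ᵥ z)) * (t * t) + (2 * (x ⬝ᵥ (Q *ᵥ z))) * t +
      x ⬝ᵥ (Q *ᵥ x) := by
    intro t
    have h1 := qnn hQ (x + t • z)
    rw [mulVec_add, mulVec_smul, add_dotProduct, dotProduct_add, dotProduct_add, smul_dotProduct,
      smul_dotProduct, dotProduct_smul, dotProduct_smul, qsymm hQ.isHermitian z x,
      smul_eq_mul, smul_eq_mul, smul_eq_mul] at h1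
    linarith
  have h2 := discrim_le_zero h
  unfold discrim at h2
  nlinarith

private theorem mul_inv_vec {Q : Matrix κ κ ℝ} (hQ : Q.PosDef) (y : κ → ℝ) :
    Q *ᵥ (Q⁻¹ *ᵥ y) = y := by
  rw [mulVec_mulVec, mul_nonsing_inv Q ((isUnit_iff_isUnit_det Q).1 hQ.isUnit), one_mulVec]

theorem cs_inv {Q : Matrix κ κ ℝ} (hQ : Q.PosDef) (x y : κ → ℝ) :
    (x ⬝ᵥ y) ^ 2 ≤ (x ⬝ᵥ (Q *ᵥ x)) * (y ⬝ᵥ (Q⁻¹ *ᵥ y)) := by
  have h := qcs hQ x (Q⁻¹ *ᵥ y)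
  rw [mul_inv_vec hQ y, dotProduct_comm (Q⁻¹ *ᵥ y) y] at h
  exact h

theorem inv_mono {A B : Matrix κ κ ℝ} (hA : A.PosDef) (hB : B.PosDef) {c : ℝ}
    (h : ∀ v : κ → ℝ, v ⬝ᵥ (A *ᵥ v) ≤ c * (v ⬝ᵥ (B *ᵥ v))) (v : κ → ℝ) :
    v ⬝ᵥ (B⁻¹ *ᵥ v) ≤ c * (v ⬝ᵥ (A⁻¹ *ᵥ v)) := by
  obtain ⟨x, hx⟩ : ∃ x, x = B⁻¹ *ᵥ v := ⟨_, rfl⟩
  have hBx : B *ᵥ x = v := by rw [hx]; exact mul_inv_vec hB v
  rw [← hx]
  have h1 := cs_inv hA x v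
  have h2 := h x
  rw [hBx] at h2
  have h3 : 0 ≤ v ⬝ᵥ (A⁻¹ *ᵥ v) := qnn hA.inv v
  have h4 : 0 ≤ x ⬝ᵥ v := by
    have := qnn hB x
    rwa [hBx] at this
  have h5 : x ⬝ᵥ v = v ⬝ᵥ x := dotProduct_comm x v
  rw [← h5]
  rcases h4.eq_or_lt with h6 | h6
  · rw [← h6]
    -- `v = 0`
    have h7 : x = 0 := by
      by_contra hne
      have h8 := hB.dotProduct_mulVec_pos hne
      rw [star_trivial, hBx, ← h6] at h8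
      exact lt_irrefl _ h8
    have h9 : v = 0 := by rw [← hBx, h7, mulVec_zero]
    rw [h9, mulVec_zero, dotProduct_zero, mul_zero]
  · have h7 : (x ⬝ᵥ v) * (x ⬝ᵥ v) ≤ (c * (v ⬝ᵥ (A⁻¹ *ᵥ v))) * (x ⬝ᵥ v) := by
      calc (x ⬝ᵥ v) * (x ⬝ᵥ v) = (x ⬝ᵥ v) ^ 2 := by ring
        _ ≤ (x ⬝ᵥ (A *ᵥ x)) * (v ⬝ᵥ (A⁻¹ *ᵥ v)) := h1
        _ ≤ (c * (x ⬝ᵥ v)) * (v ⬝ᵥ (A⁻¹ *ᵥ v)) := mul_le_mul_of_nonneg_right h2 h3
        _ = (c * (v ⬝ᵥ (A⁻¹ *ᵥ v))) * (x ⬝ᵥ v) := by ring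
    exact le_of_mul_le_mul_right h7 h6

omit [DecidableEq κ] in
theorem map_real_op {W : Type} [Fintype W] (M : W → Matrix κ κ ℝ) {c : ℝ}
    (h : ∀ v : κ → ℝ, ∑ w, (M w *ᵥ v) ⬝ᵥ (M w *ᵥ v) ≤ c * (v ⬝ᵥ v)) (u : κ → ℂ) :
    ∑ w, ∑ y, ‖(((M w).map (fun r : ℝ => (r : ℂ))) *ᵥ u) y‖ ^ 2 ≤ c * ∑ y, ‖u y‖ ^ 2 := by
  have hre : ∀ w y, (((M w).map (fun r : ℝ => (r : ℂ))) *ᵥ u) y =
      (((M w) *ᵥ (fun z => (u z).re)) y : ℂ) + (((M w) *ᵥ (fun z => (u z).im)) y : ℂ) * Complex.I := by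
    intro w y
    simp only [mulVec, dotProduct, map_apply]
    push_cast
    rw [Finset.sum_mul, ← Finset.sum_add_distrib]
    refine Finset.sum_congr rfl fun z _ => ?_
    conv_lhs => rw [← Complex.re_add_im (u z)]
    ring
  have hn : ∀ w y, ‖(((M w).map (fun r : ℝ => (r : ℂ))) *ᵥ u) y‖ ^ 2 =
      ((M w) *ᵥ (fun z => (u z).re)) y * ((M w) *ᵥ (fun z => (u z).re)) y +
      ((M w) *ᵥ (fun z => (u z).im)) y * ((M w) *ᵥ (fun z => (u z).im)) y := by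
    intro w y
    rw [hre, ← Complex.normSq_eq_norm_sq, Complex.normSq_add_mul_I]
    ring
  have h1 := h (fun z => (u z).re)
  have h2 := h (fun z => (u z).im)
  have h3 : ∑ w, ∑ y, ‖(((M w).map (fun r : ℝ => (r : ℂ))) *ᵥ u) y‖ ^ 2 =
      ∑ w, ((M w) *ᵥ (fun z => (u z).re)) ⬝ᵥ ((M w) *ᵥ (fun z => (u z).re)) +
      ∑ w, ((M w) *ᵥ (fun z => (u z).im)) ⬝ᵥ ((M w) *ᵥ (fun z => (u z).im)) := by
    rw [← Finset.sum_add_distrib]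
    refine Finset.sum_congr rfl fun w _ => ?_
    simp only [hn, dotProduct]
    rw [Finset.sum_add_distrib]
  have h4 : ∑ y, ‖u y‖ ^ 2 = (fun z => (u z).re) ⬝ᵥ (fun z => (u z).re) +
      (fun z => (u z).im) ⬝ᵥ (fun z => (u z).im) := by
    simp only [dotProduct]
    rw [← Finset.sum_add_distrib]
    refine Finset.sum_congr rfl fun y _ => ?_
    rw [← Complex.normSq_eq_norm_sq, Complex.normSq_apply]
  rw [h3, h4, mul_add]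
  exact add_le_add h1 h2

omit [DecidableEq κ] in
theorem bil_op {M : Matrix κ κ ℝ} {x : ℝ} (hx : 0 ≤ x)
    (h : ∀ v' v : κ → ℝ, |v' ⬝ᵥ (M *ᵥ v)| ≤ x * (Real.sqrt (v' ⬝ᵥ v') * Real.sqrt (v ⬝ᵥ v)))
    (v : κ → ℝ) : (M *ᵥ v) ⬝ᵥ (M *ᵥ v) ≤ x ^ 2 * (v ⬝ᵥ v) := by
  obtain ⟨a, ha⟩ : ∃ a, a = (M *ᵥ v) ⬝ᵥ (M *ᵥ v) := ⟨_, rfl⟩
  obtain ⟨b, hb⟩ : ∃ b, b = v ⬝ᵥ v := ⟨_, rfl⟩
  have ha0 : 0 ≤ a := by
    rw [ha]
    exact Finset.sum_nonneg fun i _ => mul_self_nonneg _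
  have hb0 : 0 ≤ b := by
    rw [hb]
    exact Finset.sum_nonneg fun i _ => mul_self_nonneg _
  have h1 := h (M *ᵥ v) v
  rw [← ha, ← hb, abs_of_nonneg ha0] at h1
  rw [← ha, ← hb]
  have h2 : Real.sqrt a * Real.sqrt a = a := Real.mul_self_sqrt ha0
  have h3 : Real.sqrt b * Real.sqrt b = b := Real.mul_self_sqrt hb0
  have h4 : 0 ≤ Real.sqrt a := Real.sqrt_nonneg a
  have h5 : 0 ≤ Real.sqrt b := Real.sqrt_nonneg b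
  have h6 : Real.sqrt a ≤ x * Real.sqrt b := by
    rcases h4.eq_or_lt with h7 | h7
    · rw [← h7]
      positivity
    · refine le_of_mul_le_mul_right ?_ h7
      calc Real.sqrt a * Real.sqrt a = a := h2
        _ ≤ x * (Real.sqrt a * Real.sqrt b) := h1
        _ = x * Real.sqrt b * Real.sqrt a := by ring
  calc a = Real.sqrt a * Real.sqrt a := h2.symm
    _ ≤ (x * Real.sqrt b) * (x * Real.sqrt b) := mul_self_le_mul_self h4 h6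
    _ = x ^ 2 * (Real.sqrt b * Real.sqrt b) := by ring
    _ = x ^ 2 * b := by rw [h3]

/-- one matrix, form `OpLe` -/
theorem map_real_one {M : Matrix κ κ ℝ} {x : ℝ}
    (h : ∀ v : κ → ℝ, (M *ᵥ v) ⬝ᵥ (M *ᵥ v) ≤ x ^ 2 * (v ⬝ᵥ v)) (u : κ → ℂ) :
    ∑ y, ‖((M.map (fun r : ℝ => (r : ℂ))) *ᵥ u) y‖ ^ 2 ≤ x ^ 2 * ∑ y, ‖u y‖ ^ 2 := by
  have h1 := map_real_op (W := Unit) (fun _ => M) (c := x ^ 2) (fun v => by
    rw [Fintype.sum_unique]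
    exact h v) u
  rw [Fintype.sum_unique] at h1
  exact h1

end Pool.Agent.ANS.Form
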