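import Pool.Agent.ANS.Form.FH

/-! # ANS FORM NOISEF: the abstract structure `Hy` at a configuration, noise bound

`h : P.Ok ..`, `H : P.FH ..`.
* `fl_off`: `w ∉ B`: `EB = 0` (all three coefficients are `0` by `h.off`, `N ⊆ B`).
* `hy`: `Hy` with `C = CL s`, `F = FL s`, `C' = CL (s^{w→b})`, `φ = ph L`, `α = al s`,
  `ε = al - (aw' - aw)`, `m = mB`, `K1 = 2 CR` (`cl_op`), `Ka = 16` (`al_le`), `Ke = 16 C a` (`ep_le`),
  `ν = nf` (`sqF`); `2 (2 CR + 16) nf ≤ 36 CR nf ≤ 1`; `ph_sq`, `ph_sum`.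
  `id`, `w ∈ B`: `qb_upd` gives `QB' = Mc + EB`, `Mc = QB - (α/(1+α Q_ww)) (Q e)(Q e)ᵀ`,
  `Mc (QB⁻¹ + α e eᵀ) = 1` (`sm`), `QB'` invertible (`qb_pd`), `inv_diff`, `conj_id`; `ph L w = L w ·`.
  `w ∉ B`: `φ = 0`, `F = 0`, `QB' = QB` (`h.off`: `bs` does not change).
* `dfR`: `fR(s^{w→b}) - fR(s) = dlf⁻¹ J`: `Rf' - Rf = (aw' - aw) e_w e_wᵀ` for `w ∈ B` (`aw s x` depends on
  `s x` only), `0` for `w ∉ B`, and `Lᵀ e_w e_wᵀ L = φ φᵀ`.
* `omF`: common size of noise and drift.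
* `noise`: `Hy.noise`, `map_real_op`: `(32 (2CR+16)⁴ nf² + 4 (16 C a)²)/dlf² ≤ omF²`:
  `2 CR + 16 ≤ 18 CR`, `32·18⁴ ≤ 1833²`, `x² + y² ≤ (x+y)²`, `1833 CR² nf + 32 C a ≤ 40000 ..`. -/

set_option autoImplicit false

open Finset Function Matrix

noncomputable section

namespace Pool.Agent.ANS

open Pool.Agent.ANS.Form
open Pool.Agent.APS (tr0 OpLe)

variable {T D : Type} [Fintype T] [DecidableEq T] [Fintype D] {P : Stp T D} {X N B : Finset T}
  {c be e : T → ℝ} {C Lm : ℝ} {L : Matrix ↥B ↥B ℝ}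

namespace Stp

/-- common size of noise and drift of the form component -/
def omF (C CR nf a bm dlf : ℝ) : ℝ := 40000 * C ^ 6 * CR ^ 2 * (nf + a + bm) / dlf

namespace Ok

variable (h : P.Ok X N c be e C Lm) {p : ℕ} {dlf a CR bm e1 e2 sig taum nf : ℝ}
  {s : T → Option D} (H : P.FH X N B be C Lm L p dlf a CR bm e1 e2 sig taum nf s)
include h H

theorem fl_off {w : T} (hw : w ∉ B) (b : Option D) : P.FL B L s w b = 0 := by
  have hN : w ∉ N := fun h1 => hw (H.NB h1)
  obtain ⟨-, h2, -, -, h5, h6, -⟩ := h.off hN s b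
  have h7 : P.EB B s w b = 0 := by
    funext x y
    unfold EB Ef
    rw [h2, h5, h6]
    simp
  unfold FL
  rw [h7, mul_zero, zero_mul]

omit h H [Fintype D] in
private theorem nf_cl_off {w : T} {b : Option D} (hb : P.bs (update s w b) = P.bs s) :
    P.CL B L (update s w b) = P.CL B L s := by
  unfold CL QB Qm io S eta G
  rw [hb]

omit h H [Fintype D] in
private theorem nf_aw_off {w : T} {b : Option D} (hb : P.bs (update s w b) = P.bs s) (x : T) :
    P.aw (update s w b) x = P.aw s x := by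
  unfold aw eta
  rw [hb]

omit h H [Fintype D] in
private theorem nf_aw_ne {w x : T} (b : Option D) (hx : x ≠ w) :
    P.aw (update s w b) x = P.aw s x := by
  unfold aw eta bs
  rw [update_of_ne hx]

omit h H [Fintype D] in
private theorem nf_rf (w : T) (b : Option D) :
    Lᵀ * (P.Rf B (update s w b) - P.Rf B s) * L =
      (P.aw (update s w b) w - P.aw s w) • vecMulVec (ph L w) (ph L w) := by
  have h1 : P.Rf B (update s w b) - P.Rf B s =
      diagonal (fun x : ↥B => P.aw (update s w b) x - P.aw s x) := by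
    unfold Rf
    rw [add_sub_add_left_eq_sub, diagonal_sub]
  rw [h1]
  ext i j
  rw [mul_apply]
  simp only [mul_diagonal, transpose_apply, Matrix.smul_apply, vecMulVec_apply, smul_eq_mul]
  by_cases hw : w ∈ B
  · rw [Finset.sum_eq_single (⟨w, hw⟩ : ↥B)]
    · simp only [ph, dif_pos hw]
      ring
    · intro x _ hx
      have hx' : (x : T) ≠ w := fun e => hx (Subtype.ext e)
      rw [nf_aw_ne b hx']
      ring
    · intro hh
      exact absurd (Finset.mem_univ _) hh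
  · rw [Finset.sum_eq_zero]
    · simp only [ph, dif_neg hw]
      ring
    · intro x _
      have hx' : (x : T) ≠ w := fun e => hw (e ▸ x.2)
      rw [nf_aw_ne b hx']
      ring

theorem hy : Hy (P.CL B L s) (fun w b => P.FL B L s w b)
    (fun w b => P.CL B L (update s w b)) (ph L) (P.al s)
    (fun w b => P.al s w b - (P.aw (update s w b) w - P.aw s w)) (P.mB B) (2 * CR) 16
    (16 * C * a) nf := by
  have hp1 : 1 ≤ p := le_trans (by norm_num) H.p2
  have hCR := H.CR1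
  have hC := h.C1
  have ha0 := H.a0
  have hnf := H.nf0
  have hoff : ∀ {w : T}, w ∉ B → ∀ b : Option D, P.bs (update s w b) = P.bs s ∧
      P.al s w b = 0 := by
    intro w hw b
    obtain ⟨h1, -, -, -, -, -, h7⟩ := h.off (fun h1 => hw (H.NB h1)) s b
    exact ⟨h1, h7⟩
  refine ⟨by linarith, by norm_num, by positivity, hnf, h.cl_symm H.lk s, ?_, ?_, ?_, ?_, ?_, ?_,
    ?_, ?_, ?_, ?_⟩
  · exact fun v => h.cl_op H.lk hp1 H.d0 H.CR1 H.CRd H.rb H.tr v
  · intro w b
    have h1 : (P.EB B s w b)ᵀ = P.EB B s w b := eb_symm s w b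
    show (P.FL B L s w b)ᵀ = P.FL B L s w b
    unfold FL
    rw [transpose_mul, transpose_mul, transpose_transpose, h1, Matrix.mul_assoc]
  · exact fun β v => h.sqF H β v
  · exact fun w => h.mB_pos H.lk.BX w
  · intro w b
    by_cases hw : w ∈ B
    · have h1 := h.al_le H.a0 H.a2 H.ent (H.lk.BX hw) b
      unfold mB
      rw [if_pos hw]
      exact h1
    · rw [(hoff hw b).2, abs_zero]
      have := h.mB_pos H.lk.BX w
      positivity
  · intro w b
    by_cases hw : w ∈ B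
    · have h1 := h.ep_le H.a0 H.a2 H.ent (H.lk.BX hw) b
      unfold mB
      rw [if_pos hw]
      exact h1
    · rw [(hoff hw b).2, nf_aw_off (hoff hw b).1, sub_self, sub_zero, abs_zero]
      have := h.mB_pos H.lk.BX w
      positivity
  · exact fun w => h.ph_sq H.lk.fac H.lk.BX w
  · exact fun v => h.ph_sum H.lk.fac H.lk.BX v
  · intro w b
    by_cases hw : w ∈ B
    · have ha1 : a ≤ 1 := by
        have h1 := H.a2
        nlinarith
      obtain ⟨hα, hE⟩ := h.qb_upd ha1 H.a2 H.ent H.lk.BX ⟨w, hw⟩ b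
      have hu : ∀ t, IsUnit (P.QB B t).det := fun t =>
        isUnit_iff_ne_zero.2 (h.qb_pd H.lk.BX H.lk.pd t).det_pos.ne'
      have h1 := sm (h.qb_symm s) (hu s) (⟨w, hw⟩ : ↥B) hα
      have h2 := inv_diff (hu (update s w b)) h1 hE
      have h3 := conj_id H.lk.unit (⟨w, hw⟩ : ↥B) (P.al s w b) h2
      have h4 : ph L w = fun x => L ⟨w, hw⟩ x := by
        funext x
        simp only [ph, dif_pos hw]
      rw [h4]
      exact h3
    · rw [(hoff hw b).2, h.fl_off H hw b, nf_cl_off (hoff hw b).1]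
      simp
  · have h1 := H.nfs
    nlinarith

theorem dfR (w : T) (b : Option D) :
    P.fR B L dlf (update s w b) - P.fR B L dlf s =
      dlf⁻¹ • Jm (P.CL B L s) (fun w b => P.CL B L (update s w b)) (ph L) (P.al s)
        (fun w b => P.al s w b - (P.aw (update s w b) w - P.aw s w)) w b := by
  have h1 := nf_rf (P := P) (B := B) (L := L) (s := s) w b
  have h2 : P.al s w b - (P.al s w b - (P.aw (update s w b) w - P.aw s w)) =
      P.aw (update s w b) w - P.aw s w := by ring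
  unfold fR Jm
  rw [h2, ← h1, ← smul_sub]
  congr 1
  unfold CL
  rw [mul_sub, sub_mul, mul_sub, sub_mul, mul_sub, sub_mul]
  abel

theorem noise (hbm : 0 ≤ bm) (β : T → Option D) (u : ↥B → ℂ) :
    ∑ w, ∑ y, ‖((P.fF B L dlf (update s w (β w)) - P.fF B L dlf s) *ᵥ u) y‖ ^ 2 ≤
      omF C CR nf a bm dlf ^ 2 * ∑ y, ‖u y‖ ^ 2 := by
  have hC := h.C1
  have hCR := H.CR1
  have ha0 := H.a0
  have hnf := H.nf0
  have hd := H.d0
  have hmap : ∀ w, P.fF B L dlf (update s w (β w)) - P.fF B L dlf s =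
      (P.fR B L dlf (update s w (β w)) - P.fR B L dlf s).map (fun r : ℝ => (r : ℂ)) := by
    intro w
    ext i j
    simp only [fF, Matrix.sub_apply, Matrix.map_apply, Complex.ofReal_sub]
  have key : ∀ v : ↥B → ℝ, ∑ w, ((P.fR B L dlf (update s w (β w)) - P.fR B L dlf s) *ᵥ v) ⬝ᵥ
      ((P.fR B L dlf (update s w (β w)) - P.fR B L dlf s) *ᵥ v) ≤
      omF C CR nf a bm dlf ^ 2 * (v ⬝ᵥ v) := by
    intro v
    have h1 := (h.hy H).noise β v
    have hvv : 0 ≤ v ⬝ᵥ v := Finset.sum_nonneg fun i _ => mul_self_nonneg (v i)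
    have h2 : ∀ w, ((P.fR B L dlf (update s w (β w)) - P.fR B L dlf s) *ᵥ v) ⬝ᵥ
        ((P.fR B L dlf (update s w (β w)) - P.fR B L dlf s) *ᵥ v) =
        dlf⁻¹ ^ 2 * ((Jm (P.CL B L s) (fun w b => P.CL B L (update s w b)) (ph L) (P.al s)
        (fun w b => P.al s w b - (P.aw (update s w b) w - P.aw s w)) w (β w) *ᵥ v) ⬝ᵥ
        (Jm (P.CL B L s) (fun w b => P.CL B L (update s w b)) (ph L) (P.al s)
        (fun w b => P.al s w b - (P.aw (update s w b) w - P.aw s w)) w (β w) *ᵥ v)) := by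
      intro w
      rw [h.dfR H w (β w), smul_mulVec, smul_dotProduct, dotProduct_smul, smul_eq_mul,
        smul_eq_mul]
      ring
    rw [Finset.sum_congr rfl fun w _ => h2 w, ← Finset.mul_sum]
    refine (mul_le_mul_of_nonneg_left h1 (by positivity)).trans ?_
    rw [← mul_assoc]
    refine mul_le_mul_of_nonneg_right ?_ hvv
    unfold omF
    have h3 : (2 * CR + 16) ^ 4 ≤ (18 * CR) ^ 4 :=
      pow_le_pow_left₀ (by linarith) (by linarith) 4
    have hC6 : 1 ≤ C ^ 6 := one_le_pow₀ hC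
    have hC5 : 1 ≤ C ^ 5 := one_le_pow₀ hC
    have hCR2 : 1 ≤ CR ^ 2 := one_le_pow₀ hCR
    have hx : 1833 * CR ^ 2 * nf ≤ 40000 * C ^ 6 * CR ^ 2 * nf := by
      have : 0 ≤ CR ^ 2 * nf := by positivity
      nlinarith
    have hy : 32 * C * a ≤ 40000 * C ^ 6 * CR ^ 2 * a := by
      have h5 : C ≤ C ^ 6 := by
        calc C = C * 1 := (mul_one C).symm
          _ ≤ C * C ^ 5 := mul_le_mul_of_nonneg_left hC5 (by linarith)
          _ = C ^ 6 := by ring
      have h6 : C * 1 ≤ C ^ 6 * CR ^ 2 := mul_le_mul h5 hCR2 (by norm_num) (by positivity)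
      have h7 : 0 ≤ C ^ 6 * CR ^ 2 := by positivity
      nlinarith [mul_le_mul_of_nonneg_right h6 ha0, mul_nonneg h7 ha0]
    have hz : 0 ≤ 40000 * C ^ 6 * CR ^ 2 * bm := by positivity
    have h8 : 32 * (2 * CR + 16) ^ 4 * nf ^ 2 + 4 * (16 * C * a) ^ 2 ≤
        (1833 * CR ^ 2 * nf + 32 * C * a) ^ 2 := by
      have h9 : 32 * (2 * CR + 16) ^ 4 * nf ^ 2 ≤ 32 * (18 * CR) ^ 4 * nf ^ 2 := by gcongr
      have h10 : 0 ≤ CR ^ 4 * nf ^ 2 := by positivity
      have h11 : 0 ≤ CR ^ 2 * nf * (C * a) := by positivity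
      nlinarith
    have h12 : (1833 * CR ^ 2 * nf + 32 * C * a) ^ 2 ≤
        (40000 * C ^ 6 * CR ^ 2 * (nf + a + bm)) ^ 2 := by
      refine pow_le_pow_left₀ (by positivity) ?_ 2
      nlinarith
    rw [div_pow, inv_pow, div_eq_inv_mul]
    exact mul_le_mul_of_nonneg_left (h8.trans h12) (by positivity)
  have h3 := map_real_op (fun w => P.fR B L dlf (update s w (β w)) - P.fR B L dlf s) key u
  simp only [hmap]
  exact h3

end Ok

end Stp

end Pool.Agent.ANS
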