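import Pool.Agent.ANS.Form.PD
import Pool.Agent.ANS.Form.Mat2
import Pool.Agent.APS.TrIneq

/-! # ANS FORM OPF: the functional and what `Γ ≤ 1` means

`QB nil = L Lᵀ`, `C(s) = Lᵀ QB(s)⁻¹ L`, `R̂(s) = Lᵀ Rf(s) L`, `fR s = dlf⁻¹ (C(s) - R̂(s))` (real),
`fF s` = the same matrix with complex entries, `Γ s = tr0 (2p) (fF s)`.

`RB`: the reference at `s` is comparable to `(QB nil)⁻¹` with constant `CR ≥ 1`.
`K : Lk ..` collects: `QB nil = L Lᵀ`, `L` invertible, `B ⊆ X`, `QB nil` PosDef.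
* `tr_op`: hermitian `f`, `Re Tr f^(2p) ≤ 1`, `p ≥ 1`: all `|λ| ≤ 1`.
* `rr`: `v·R̂ v = (L v)·Rf (L v) ≤ CR (L v)·(L Lᵀ)⁻¹ (L v) = CR |v|²`, and `|v|² ≤ CR v·R̂ v`.
* `cl_hi`, `cl_lo`: `C = R̂ + dlf fR`, `|fR v| ≤ |v|`, `dlf ≤ 1 ≤ CR`, `2 CR dlf ≤ 1`:
  `v·C v ≤ (CR + dlf)|v|² ≤ 2 CR |v|²`, `v·C v ≥ (1/CR - dlf)|v|² ≥ |v|²/(2 CR)`.
* `cl_op`: `op_of_form`.
* `q_b`: `b = ext B ((L⁻¹)ᵀ v)`: `Q_s(b,b) = ((L⁻¹)ᵀ v)·QB(s)((L⁻¹)ᵀ v) = v·C(s)⁻¹ v ≤ 2 CR |v|²`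
  (`inv_mono` with `1 ≤ 2 CR C`, or: `x = C⁻¹ v`, `v·x = x·C x ≥ |x|²/(2CR)`, so `|x| ≤ 2 CR |v|`).
* `q_cb`: `b = ext B ((L⁻¹)ᵀ (C v))`: `Q_s(b,b) = (C v)·C⁻¹ (C v) = v·C v ≤ 2 CR |v|²`.
* `form_le`: `|v·(QB⁻¹ - Rf) v| ≤ dlf v·(QB nil)⁻¹ v ≤ CR dlf v·Rf v`, `δ' = CR dlf ≤ 1/2`;
  `inv_mono` twice: `(1/(1+δ')) Rf⁻¹ ≤ QB ≤ (1/(1-δ')) Rf⁻¹`, `1/(1+δ') ≥ 1 - δ' ≥ 1 - 2 δ'`,
  `1/(1-δ') ≤ 1 + 2 δ'`.  For `v` supported in `B`: `qf s v = (v|B)·QB(s)(v|B)`. -/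

set_option autoImplicit false

open Finset Function Matrix

noncomputable section

namespace Pool.Agent.ANS

open Pool.Agent.ANS.Form
open Pool.Agent.APS (tr0 OpLe)

variable {T D : Type} [Fintype T] [DecidableEq T]

section aux

variable {κ : Type} [Fintype κ] [DecidableEq κ]

private theorem spec' {f : Matrix κ κ ℂ} (hf : f.IsHermitian) :
    ∃ (l : κ → ℝ) (U : Matrix κ κ ℂ), Uᴴ * U = 1 ∧ U * Uᴴ = 1 ∧
      f = U * diagonal (fun a => (l a : ℂ)) * Uᴴ := by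
  refine ⟨hf.eigenvalues, (hf.eigenvectorUnitary : Matrix κ κ ℂ), ?_, ?_, ?_⟩
  · exact Unitary.coe_star_mul_self hf.eigenvectorUnitary
  · exact Unitary.coe_mul_star_self hf.eigenvectorUnitary
  · have h := hf.spectral_theorem
    rw [Unitary.conjStarAlgAut_apply] at h
    exact h

private theorem spec_pow' {l : κ → ℝ} {U : Matrix κ κ ℂ} (hU : Uᴴ * U = 1) (hU' : U * Uᴴ = 1)
    (n : ℕ) : (U * diagonal (fun a => (l a : ℂ)) * Uᴴ) ^ n =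
      U * diagonal (fun a => (l a : ℂ) ^ n) * Uᴴ := by
  induction n with
  | zero =>
    simp only [pow_zero]
    have h1 : diagonal (fun _ : κ => (1 : ℂ)) = 1 := diagonal_one
    rw [h1, mul_one, hU']
  | succ n ih =>
    rw [pow_succ, ih]
    have h1 : U * diagonal (fun a => (l a : ℂ) ^ n) * Uᴴ *
        (U * diagonal (fun a => (l a : ℂ)) * Uᴴ) =
        U * (diagonal (fun a => (l a : ℂ) ^ n) * (Uᴴ * U) * diagonal (fun a => (l a : ℂ))) *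
          Uᴴ := by
      simp only [Matrix.mul_assoc]
    rw [h1, hU, mul_one, diagonal_mul_diagonal]
    congr 2

private theorem tr0_eq' {l : κ → ℝ} {U : Matrix κ κ ℂ} (hU : Uᴴ * U = 1) (hU' : U * Uᴴ = 1)
    (n : ℕ) : tr0 n (U * diagonal (fun a => (l a : ℂ)) * Uᴴ) = ∑ a, l a ^ n := by
  unfold tr0
  rw [spec_pow' hU hU', trace_mul_comm, ← mul_assoc, hU, one_mul, trace_diagonal, Complex.re_sum]
  refine Finset.sum_congr rfl fun a _ => ?_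
  rw [← Complex.ofReal_pow, Complex.ofReal_re]

private theorem norm_conj' {U : Matrix κ κ ℂ} (hU : Uᴴ * U = 1) (u : κ → ℂ) :
    ∑ x, ‖(U *ᵥ u) x‖ ^ 2 = ∑ x, ‖u x‖ ^ 2 := by
  have key : ∀ v : κ → ℂ, ((∑ x, ‖v x‖ ^ 2 : ℝ) : ℂ) = star v ⬝ᵥ v := by
    intro v
    rw [dotProduct]
    push_cast
    refine Finset.sum_congr rfl fun x _ => ?_
    rw [Pi.star_apply, ← Complex.conj_mul']
    rfl
  have h1 : ((∑ x, ‖(U *ᵥ u) x‖ ^ 2 : ℝ) : ℂ) = ((∑ x, ‖u x‖ ^ 2 : ℝ) : ℂ) := by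
    rw [key, key, star_mulVec, ← dotProduct_mulVec, mulVec_mulVec, hU, one_mulVec]
  exact_mod_cast h1

omit [DecidableEq κ] in
private theorem dnn (v : κ → ℝ) : 0 ≤ v ⬝ᵥ v :=
  Finset.sum_nonneg fun i _ => mul_self_nonneg _

omit [DecidableEq κ] in
private theorem dcs (v w : κ → ℝ) : (v ⬝ᵥ w) ^ 2 ≤ (v ⬝ᵥ v) * (w ⬝ᵥ w) := by
  have := Finset.sum_mul_sq_le_sq_mul_sq Finset.univ v w
  simp only [dotProduct]
  refine this.trans (le_of_eq ?_)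
  simp only [pow_two]

omit [DecidableEq κ] in
/-- `|v·w| ≤ |v|²` when `|w|² ≤ |v|²` -/
private theorem dab {v w : κ → ℝ} (h : w ⬝ᵥ w ≤ v ⬝ᵥ v) : |v ⬝ᵥ w| ≤ v ⬝ᵥ v := by
  have h1 := dcs v w
  have h2 : (v ⬝ᵥ w) ^ 2 ≤ (v ⬝ᵥ v) ^ 2 := by
    rw [pow_two (v ⬝ᵥ v)]
    exact h1.trans (mul_le_mul_of_nonneg_left h (dnn v))
  exact abs_le_of_sq_le_sq h2 (dnn v)

omit [DecidableEq κ] in
private theorem conj_form (L M : Matrix κ κ ℝ) (v w : κ → ℝ) :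
    v ⬝ᵥ ((Lᵀ * M * L) *ᵥ w) = (L *ᵥ v) ⬝ᵥ (M *ᵥ (L *ᵥ w)) := by
  rw [← mulVec_mulVec, ← mulVec_mulVec, dotProduct_mulVec v, vecMul_transpose]

/-- `(L v)·(L Lᵀ)⁻¹ (L v) = |v|²` -/
private theorem inv_form {L : Matrix κ κ ℝ} (hu : IsUnit L.det) (v : κ → ℝ) :
    (L *ᵥ v) ⬝ᵥ ((L * Lᵀ)⁻¹ *ᵥ (L *ᵥ v)) = v ⬝ᵥ v := by
  have hu' : IsUnit (Lᵀ).det := by rw [det_transpose]; exact hu
  rw [← conj_form, Matrix.mul_inv_rev, ← mul_assoc, mul_nonsing_inv _ hu', one_mul,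
    nonsing_inv_mul L hu, one_mulVec]

end aux

theorem Form.tr_op {κ : Type} [Fintype κ] [DecidableEq κ] {p : ℕ} (hp : 1 ≤ p)
    {f : Matrix κ κ ℂ} (hf : f.IsHermitian) (ht : tr0 (2 * p) f ≤ 1) : OpLe f 1 := by
  obtain ⟨l, U, hU, hU', rfl⟩ := spec' hf
  rw [tr0_eq' hU hU'] at ht
  have hl : ∀ a, l a ^ 2 ≤ 1 := by
    intro a
    have h0 : ∀ b, 0 ≤ l b ^ (2 * p) := fun b => by rw [pow_mul]; positivity
    have h1 : l a ^ (2 * p) ≤ 1 :=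
      (Finset.single_le_sum (f := fun b => l b ^ (2 * p)) (fun b _ => h0 b)
        (Finset.mem_univ a)).trans ht
    rw [pow_mul] at h1
    by_contra h2
    push Not at h2
    have h3 : 1 < (l a ^ 2) ^ p := one_lt_pow₀ h2 (by omega)
    linarith
  have hUU : (Uᴴ)ᴴ * Uᴴ = 1 := by rw [conjTranspose_conjTranspose]; exact hU'
  intro u
  rw [one_pow, one_mul, ← mulVec_mulVec, ← mulVec_mulVec, norm_conj' hU,
    ← norm_conj' hUU u]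
  refine Finset.sum_le_sum fun a _ => ?_
  rw [mulVec_diagonal, norm_mul, mul_pow, Complex.norm_real, Real.norm_eq_abs, sq_abs]
  exact mul_le_of_le_one_left (sq_nonneg _) (hl a)

namespace Stp

/-- `Lᵀ QB(s)⁻¹ L` -/
def CL (P : Stp T D) (B : Finset T) (L : Matrix ↥B ↥B ℝ) (s : T → Option D) :
    Matrix ↥B ↥B ℝ := Lᵀ * (P.QB B s)⁻¹ * L

/-- the real matrix of the functional -/
def fR (P : Stp T D) (B : Finset T) (L : Matrix ↥B ↥B ℝ) (dlf : ℝ) (s : T → Option D) :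
    Matrix ↥B ↥B ℝ := dlf⁻¹ • (Lᵀ * ((P.QB B s)⁻¹ - P.Rf B s) * L)

/-- the complex matrix of the functional -/
def fF (P : Stp T D) (B : Finset T) (L : Matrix ↥B ↥B ℝ) (dlf : ℝ) (s : T → Option D) :
    Matrix ↥B ↥B ℂ := (P.fR B L dlf s).map (fun r : ℝ => (r : ℂ))

/-- the reference at `s` is comparable to the start -/
def RB (P : Stp T D) (B : Finset T) (CR : ℝ) (s : T → Option D) : Prop :=
  ∀ v : ↥B → ℝ, v ⬝ᵥ ((P.QB B nil)⁻¹ *ᵥ v) ≤ CR * (v ⬝ᵥ (P.Rf B s *ᵥ v)) ∧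
    v ⬝ᵥ (P.Rf B s *ᵥ v) ≤ CR * (v ⬝ᵥ ((P.QB B nil)⁻¹ *ᵥ v))

/-- the block and its factor -/
structure Lk (P : Stp T D) (X B : Finset T) (L : Matrix ↥B ↥B ℝ) : Prop where
  BX : B ⊆ X
  pd : (P.QB B nil).PosDef
  fac : P.QB B nil = L * Lᵀ
  unit : IsUnit L.det

variable [Fintype D] {P : Stp T D} {X N B : Finset T} {c be e : T → ℝ} {C Lm : ℝ}
  {L : Matrix ↥B ↥B ℝ}

namespace Ok

variable (h : P.Ok X N c be e C Lm) (hL : P.Lk X B L)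
include h

theorem exists_Lk (hBX : B ⊆ X) (hpd : (P.QB B nil).PosDef) : ∃ L, P.Lk X B L := by
  obtain ⟨L, h1, h2⟩ := exists_fac hpd
  exact ⟨L, hBX, hpd, h1, h2⟩

include hL

theorem fR_symm (dlf : ℝ) (s : T → Option D) : (P.fR B L dlf s).IsSymm := by
  have h1 : ((P.QB B s)⁻¹)ᵀ = (P.QB B s)⁻¹ := by
    rw [transpose_nonsing_inv, (h.qb_symm s : (P.QB B s)ᵀ = P.QB B s)]
  have h2 : ((P.QB B nil)⁻¹)ᵀ = (P.QB B nil)⁻¹ := by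
    rw [transpose_nonsing_inv, (h.qb_symm nil : (P.QB B nil)ᵀ = P.QB B nil)]
  unfold fR Rf IsSymm
  rw [transpose_smul, transpose_mul, transpose_mul, transpose_transpose, transpose_sub,
    transpose_add, h1, h2, diagonal_transpose, mul_assoc]

theorem fF_herm (dlf : ℝ) (s : T → Option D) : (P.fF B L dlf s).IsHermitian := by
  have h1 : (P.fR B L dlf s)ᵀ = P.fR B L dlf s := h.fR_symm hL dlf s
  unfold fF IsHermitian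
  ext x y
  rw [conjTranspose_apply, map_apply, map_apply, ← h1, transpose_apply]
  rw [h1]
  exact Complex.conj_ofReal _

theorem cl_symm (s : T → Option D) : (P.CL B L s).IsSymm := by
  have h1 : ((P.QB B s)⁻¹)ᵀ = (P.QB B s)⁻¹ := by
    rw [transpose_nonsing_inv, (h.qb_symm s : (P.QB B s)ᵀ = P.QB B s)]
  unfold CL IsSymm
  rw [transpose_mul, transpose_mul, transpose_transpose, h1, mul_assoc]

theorem fR_le {p : ℕ} (hp : 1 ≤ p) {dlf : ℝ} {s : T → Option D}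
    (ht : tr0 (2 * p) (P.fF B L dlf s) ≤ 1) (v : ↥B → ℝ) :
    (P.fR B L dlf s *ᵥ v) ⬝ᵥ (P.fR B L dlf s *ᵥ v) ≤ v ⬝ᵥ v := by
  have h1 := Form.tr_op hp (h.fF_herm hL dlf s) ht (fun x => ((v x : ℝ) : ℂ))
  have h2 : ∀ x, (P.fF B L dlf s *ᵥ (fun x => ((v x : ℝ) : ℂ))) x =
      (((P.fR B L dlf s *ᵥ v) x : ℝ) : ℂ) := by
    intro x
    simp only [fF, mulVec, dotProduct, map_apply]
    push_cast
    rfl
  simp only [h2, Complex.norm_real, Real.norm_eq_abs, sq_abs, one_pow, one_mul] at h1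
  simp only [dotProduct]
  simpa only [pow_two] using h1

omit h hL in
/-- `v·C v = (L v)·Rf (L v) + dlf v·fR v` -/
private theorem cl_eq {dlf : ℝ} {s : T → Option D} (hd : 0 < dlf) (v : ↥B → ℝ) : v ⬝ᵥ (P.CL B L s *ᵥ v) =
    (L *ᵥ v) ⬝ᵥ (P.Rf B s *ᵥ (L *ᵥ v)) + dlf * (v ⬝ᵥ (P.fR B L dlf s *ᵥ v)) := by
  have e1 : P.CL B L s = Lᵀ * P.Rf B s * L + dlf • P.fR B L dlf s := by
    unfold CL fR
    rw [smul_smul, mul_inv_cancel₀ hd.ne', one_smul, mul_sub, sub_mul]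
    abel
  rw [e1, add_mulVec, dotProduct_add, conj_form, smul_mulVec, dotProduct_smul, smul_eq_mul]

/-- `L⁻¹ QB (L⁻¹)ᵀ` is the inverse of `C` -/
private theorem cinv (s : T → Option D) :
    P.CL B L s * (L⁻¹ * P.QB B s * (L⁻¹)ᵀ) = 1 ∧ (L⁻¹ * P.QB B s * (L⁻¹)ᵀ) * P.CL B L s = 1 := by
  have hpd := h.qb_pd hL.BX hL.pd s
  have hQ : IsUnit (P.QB B s).det := (isUnit_iff_isUnit_det _).1 hpd.isUnit
  have h1 : L * L⁻¹ = 1 := mul_nonsing_inv L hL.unit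
  have h2 : Lᵀ * (L⁻¹)ᵀ = 1 := by
    rw [← transpose_mul, nonsing_inv_mul L hL.unit, transpose_one]
  have h3 : P.CL B L s * (L⁻¹ * P.QB B s * (L⁻¹)ᵀ) = 1 := by
    unfold CL
    calc Lᵀ * (P.QB B s)⁻¹ * L * (L⁻¹ * P.QB B s * (L⁻¹)ᵀ) =
          Lᵀ * ((P.QB B s)⁻¹ * (L * L⁻¹) * P.QB B s) * (L⁻¹)ᵀ := by
          simp only [mul_assoc]
      _ = 1 := by rw [h1, mul_one, nonsing_inv_mul _ hQ, mul_one, h2]
  exact ⟨h3, mul_eq_one_comm.mp h3⟩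

/-- the form of `ext B ((L⁻¹)ᵀ v)` at `s` -/
private theorem qf_L (s : T → Option D) (v : ↥B → ℝ) :
    Qf (P.G s) (P.eta s) (ext B ((L⁻¹)ᵀ *ᵥ v)) (ext B ((L⁻¹)ᵀ *ᵥ v)) =
      v ⬝ᵥ ((L⁻¹ * P.QB B s * (L⁻¹)ᵀ) *ᵥ v) := by
  have h1 := conj_form ((L⁻¹)ᵀ) (P.QB B s) v v
  rw [transpose_transpose] at h1
  rw [← h.qb_form s, h1]

section
variable {p : ℕ} (hp : 1 ≤ p) {dlf CR : ℝ} (hd : 0 < dlf) (hCR : 1 ≤ CR)
  (hdl : 2 * CR * dlf ≤ 1) {s : T → Option D} (hRB : P.RB B CR s)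
  (ht : tr0 (2 * p) (P.fF B L dlf s) ≤ 1)
include hp hd hCR hdl hRB ht

theorem cl_hi (v : ↥B → ℝ) : v ⬝ᵥ (P.CL B L s *ᵥ v) ≤ 2 * CR * (v ⬝ᵥ v) := by
  have h1 := cl_eq (P := P) (B := B) (L := L) (s := s) hd v
  have h2 := (abs_le.1 (dab (h.fR_le hL hp ht v))).2
  have h3 := (hRB (L *ᵥ v)).2
  rw [hL.fac, inv_form hL.unit] at h3
  have h4 := dnn v
  have h5 : dlf ≤ CR := by nlinarith
  have h6 : dlf * (v ⬝ᵥ (P.fR B L dlf s *ᵥ v)) ≤ dlf * (v ⬝ᵥ v) :=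
    mul_le_mul_of_nonneg_left h2 hd.le
  have h7 : dlf * (v ⬝ᵥ v) ≤ CR * (v ⬝ᵥ v) := mul_le_mul_of_nonneg_right h5 h4
  rw [h1]
  linarith

theorem cl_lo (v : ↥B → ℝ) : v ⬝ᵥ v ≤ 2 * CR * (v ⬝ᵥ (P.CL B L s *ᵥ v)) := by
  have h1 := cl_eq (P := P) (B := B) (L := L) (s := s) hd v
  have h2 := (abs_le.1 (dab (h.fR_le hL hp ht v))).1
  have h3 := (hRB (L *ᵥ v)).1
  rw [hL.fac, inv_form hL.unit] at h3
  have h4 := dnn v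
  have h6 : CR * (dlf * -(v ⬝ᵥ (P.fR B L dlf s *ᵥ v))) ≤ CR * (dlf * (v ⬝ᵥ v)) :=
    mul_le_mul_of_nonneg_left (mul_le_mul_of_nonneg_left (by linarith) hd.le) (by linarith)
  have h7 : 2 * (CR * (dlf * (v ⬝ᵥ v))) ≤ v ⬝ᵥ v := by
    calc 2 * (CR * (dlf * (v ⬝ᵥ v))) = 2 * CR * dlf * (v ⬝ᵥ v) := by ring
      _ ≤ 1 * (v ⬝ᵥ v) := mul_le_mul_of_nonneg_right hdl h4
      _ = _ := one_mul _
  rw [h1]
  nlinarith

theorem cl_op (v : ↥B → ℝ) :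
    (P.CL B L s *ᵥ v) ⬝ᵥ (P.CL B L s *ᵥ v) ≤ (2 * CR) ^ 2 * (v ⬝ᵥ v) := by
  refine op_of_form (h.cl_symm hL s) (fun w => ?_) v
  have h1 := h.cl_hi hL hp hd hCR hdl hRB ht w
  have h2 := h.cl_lo hL hp hd hCR hdl hRB ht w
  have h3 := dnn w
  have h4 : 0 ≤ w ⬝ᵥ (P.CL B L s *ᵥ w) := by
    by_contra h5
    push Not at h5
    have h6 : 2 * CR * (w ⬝ᵥ (P.CL B L s *ᵥ w)) < 0 := mul_neg_of_pos_of_neg (by linarith) h5
    linarith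
  rw [abs_of_nonneg h4]
  exact h1

theorem q_b (v : ↥B → ℝ) :
    Qf (P.G s) (P.eta s) (ext B ((L⁻¹)ᵀ *ᵥ v)) (ext B ((L⁻¹)ᵀ *ᵥ v)) ≤ 2 * CR * (v ⬝ᵥ v) := by
  rw [h.qf_L hL s v]
  obtain ⟨y, hy⟩ : ∃ y, y = (L⁻¹ * P.QB B s * (L⁻¹)ᵀ) *ᵥ v := ⟨_, rfl⟩
  have h1 : P.CL B L s *ᵥ y = v := by
    rw [hy, mulVec_mulVec, (h.cinv hL s).1, one_mulVec]
  rw [← hy]
  have h2 := h.cl_lo hL hp hd hCR hdl hRB ht y
  rw [h1] at h2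
  have h3 := dcs v y
  have h4 := dnn v
  have h5 := dnn y
  have h6 : y ⬝ᵥ v = v ⬝ᵥ y := dotProduct_comm _ _
  rw [h6] at h2
  have h7 : 0 ≤ 2 * CR := by linarith
  have h8 : 0 ≤ v ⬝ᵥ y := by
    by_contra h9
    push Not at h9
    have : 2 * CR * (v ⬝ᵥ y) < 0 := mul_neg_of_pos_of_neg (by linarith) h9
    linarith
  rcases h8.eq_or_lt with h9 | h9
  · rw [← h9]
    exact mul_nonneg h7 h4
  · refine le_of_mul_le_mul_right ?_ h9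
    calc (v ⬝ᵥ y) * (v ⬝ᵥ y) = (v ⬝ᵥ y) ^ 2 := by ring
      _ ≤ (v ⬝ᵥ v) * (y ⬝ᵥ y) := h3
      _ ≤ (v ⬝ᵥ v) * (2 * CR * (v ⬝ᵥ y)) := mul_le_mul_of_nonneg_left h2 h4
      _ = _ := by ring

theorem q_cb (v : ↥B → ℝ) :
    Qf (P.G s) (P.eta s) (ext B ((L⁻¹)ᵀ *ᵥ (P.CL B L s *ᵥ v)))
      (ext B ((L⁻¹)ᵀ *ᵥ (P.CL B L s *ᵥ v))) ≤ 2 * CR * (v ⬝ᵥ v) := by
  rw [h.qf_L hL s, mulVec_mulVec, (h.cinv hL s).2, one_mulVec, dotProduct_comm]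
  exact h.cl_hi hL hp hd hCR hdl hRB ht v

theorem form_le : P.FormLe B (2 * CR * dlf) s := by
  have hpd := h.qb_pd hL.BX hL.pd s
  have hCR0 : 0 < CR := by linarith
  -- symmetry and positivity of the reference
  have hRs : (P.Rf B s).IsHermitian := by
    have h2 : ((P.QB B nil)⁻¹)ᵀ = (P.QB B nil)⁻¹ := by
      rw [transpose_nonsing_inv, (h.qb_symm nil : (P.QB B nil)ᵀ = P.QB B nil)]
    change (P.Rf B s)ᴴ = P.Rf B s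
    rw [conjTranspose_eq_transpose_of_trivial]
    unfold Rf
    rw [transpose_add, h2, diagonal_transpose]
  have hRp : (P.Rf B s).PosDef := by
    refine Matrix.PosDef.of_dotProduct_mulVec_pos hRs fun v hv => ?_
    rw [star_trivial]
    have h1 := hL.pd.inv.dotProduct_mulVec_pos hv
    rw [star_trivial] at h1
    have h2 := (hRB v).1
    by_contra h3
    push Not at h3
    have h4 : CR * (v ⬝ᵥ (P.Rf B s *ᵥ v)) ≤ 0 := mul_nonpos_of_nonneg_of_nonpos hCR0.le h3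
    linarith
  -- the difference
  have hdiff : ∀ x : ↥B → ℝ, |x ⬝ᵥ ((P.QB B s)⁻¹ *ᵥ x) - x ⬝ᵥ (P.Rf B s *ᵥ x)| ≤
      CR * dlf * (x ⬝ᵥ (P.Rf B s *ᵥ x)) := by
    intro x
    obtain ⟨y, hy⟩ : ∃ y, y = L⁻¹ *ᵥ x := ⟨_, rfl⟩
    have hx : L *ᵥ y = x := by
      rw [hy, mulVec_mulVec, mul_nonsing_inv L hL.unit, one_mulVec]
    have h1 := cl_eq (P := P) (B := B) (L := L) (s := s) hd y
    have h2 : y ⬝ᵥ (P.CL B L s *ᵥ y) = x ⬝ᵥ ((P.QB B s)⁻¹ *ᵥ x) := by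
      unfold CL
      rw [conj_form, hx]
    rw [h2, hx] at h1
    have h3 : x ⬝ᵥ ((P.QB B s)⁻¹ *ᵥ x) - x ⬝ᵥ (P.Rf B s *ᵥ x) =
        dlf * (y ⬝ᵥ (P.fR B L dlf s *ᵥ y)) := by linarith
    rw [h3, abs_mul, abs_of_pos hd]
    have h4 := dab (h.fR_le hL hp ht y)
    have h5 := (hRB x).1
    have h6 := inv_form hL.unit y
    rw [hx, ← hL.fac] at h6
    rw [h6] at h5
    calc dlf * |y ⬝ᵥ (P.fR B L dlf s *ᵥ y)| ≤ dlf * (y ⬝ᵥ y) :=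
          mul_le_mul_of_nonneg_left h4 hd.le
      _ ≤ dlf * (CR * (x ⬝ᵥ (P.Rf B s *ᵥ x))) := mul_le_mul_of_nonneg_left h5 hd.le
      _ = _ := by ring
  obtain ⟨δ, hδ⟩ : ∃ δ, δ = CR * dlf := ⟨_, rfl⟩
  have hδ0 : 0 < δ := by rw [hδ]; exact mul_pos hCR0 hd
  have hδ1 : 2 * δ ≤ 1 := by rw [hδ]; linarith
  have hqi : (P.QB B s)⁻¹⁻¹ = P.QB B s :=
    nonsing_inv_nonsing_inv _ ((isUnit_iff_isUnit_det _).1 hpd.isUnit)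
  intro v hv
  obtain ⟨w, hw⟩ : ∃ w : ↥B → ℝ, w = fun x : ↥B => v x := ⟨_, rfl⟩
  have hext : ext B w = v := by
    funext x
    unfold Form.ext
    by_cases hx : x ∈ B
    · rw [dif_pos hx, hw]
    · rw [dif_neg hx, hv x hx]
  have hqf : P.qf s v = w ⬝ᵥ (P.QB B s *ᵥ w) := by
    rw [h.qb_form s, hext, ← h.qf_qm s]
    rfl
  have hrq : P.rq B s v = w ⬝ᵥ ((P.Rf B s)⁻¹ *ᵥ w) := by
    unfold rq
    rw [hw]
  rw [hqf, hrq]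
  have hr0 : 0 ≤ w ⬝ᵥ ((P.Rf B s)⁻¹ *ᵥ w) := by
    have := hRp.inv.posSemidef.dotProduct_mulVec_nonneg w
    rwa [star_trivial] at this
  have hq0 : 0 ≤ w ⬝ᵥ (P.QB B s *ᵥ w) := by
    have := hpd.posSemidef.dotProduct_mulVec_nonneg w
    rwa [star_trivial] at this
  have m1 := inv_mono hpd.inv hRp (c := 1 + δ) (fun x => by
    have := (abs_le.1 (hdiff x)).2
    rw [← hδ] at this
    linarith) w
  rw [hqi] at m1
  have m2 := inv_mono hRp hpd.inv (c := 1 + 2 * δ) (fun x => by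
    have h1 := (abs_le.1 (hdiff x)).1
    rw [← hδ] at h1
    have h2 : 0 ≤ x ⬝ᵥ (P.Rf B s *ᵥ x) := by
      have := hRp.posSemidef.dotProduct_mulVec_nonneg x
      rwa [star_trivial] at this
    have h3 : (1 - δ) * (x ⬝ᵥ (P.Rf B s *ᵥ x)) ≤ x ⬝ᵥ ((P.QB B s)⁻¹ *ᵥ x) := by linarith
    have h4 : 1 ≤ (1 + 2 * δ) * (1 - δ) := by nlinarith
    calc x ⬝ᵥ (P.Rf B s *ᵥ x) = 1 * (x ⬝ᵥ (P.Rf B s *ᵥ x)) := (one_mul _).symm
      _ ≤ ((1 + 2 * δ) * (1 - δ)) * (x ⬝ᵥ (P.Rf B s *ᵥ x)) :=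
          mul_le_mul_of_nonneg_right h4 h2
      _ = (1 + 2 * δ) * ((1 - δ) * (x ⬝ᵥ (P.Rf B s *ᵥ x))) := by ring
      _ ≤ _ := mul_le_mul_of_nonneg_left h3 (by linarith)) w
  rw [hqi] at m2
  have e1 : 2 * CR * dlf = 2 * δ := by rw [hδ]; ring
  rw [e1]
  constructor
  · calc (1 - 2 * δ) * (w ⬝ᵥ ((P.Rf B s)⁻¹ *ᵥ w)) ≤
          (1 - 2 * δ) * ((1 + δ) * (w ⬝ᵥ (P.QB B s *ᵥ w))) :=
          mul_le_mul_of_nonneg_left m1 (by linarith)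
      _ = ((1 - 2 * δ) * (1 + δ)) * (w ⬝ᵥ (P.QB B s *ᵥ w)) := by ring
      _ ≤ 1 * (w ⬝ᵥ (P.QB B s *ᵥ w)) := mul_le_mul_of_nonneg_right (by nlinarith) hq0
      _ = _ := one_mul _
  · exact m2

end

end Ok

end Stp

end Pool.Agent.ANS
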