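import Pool.Agent.ANS.Form.Link

/-! # ANS FORM PD: positive definiteness at all configurations, the factor `L`, the vectors `φ`

`h : P.Ok X N c be e C Lm`, `B ⊆ X`.
* `ker_upd`: if `G_xy(s) (a_x - a_y) = 0` for all `x, y` then the same at `s^{w→b}`:
  `G' = G - u G_xw G_wy`; if `G_xy ≠ 0` then `a_x = a_y`; otherwise `G'_xy = -u G_xw G_wy`, and if this is
  not zero then `a_x = a_w = a_y`.  (For `x, y ∈ X`; if `w ∉ X` then `w ∉ N` and `u = 0`.)
* `ker_all`: from `s` to `nil` (or back) by changing one site after the other: for `A : Finset T`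
  let `s_A x = if x ∈ A then s x else none`; `s_(insert w A) = update (s_A) w (s w)`; induction on `A`.
* `qb_pd`: `v·QB(s) v = Qf ≥ 0`, and it is `0` iff `G_xy(s)(a_x-a_y) = 0` for all `x, y ∈ X`,
  `a = ext B v` (all terms are nonnegative, `η > 0` exactly on `X`); so `QB(nil)` PosDef gives
  `QB(s)` PosDef.
* `L`: `QB nil = L Lᵀ`, `IsUnit L.det`; `ph L w = ` row `w` of `L` (`0` if `w ∉ B`);
  `mB w = η⁰_w ι⁰_w` on `B`, `1` off `B`.
* `ph_sq`: `φ_w·φ_w = (L Lᵀ)_ww = Q(1_w,1_w) ≤ η ι` (`qf_single2`).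
* `ph_sum`: `y_w = (L v)_w/m_w`: `S = ∑ (L v)_w²/m_w = y·L v = (Lᵀ y)·v`,
  `|Lᵀ y|² = y·QB y = Qf ≤ 2 ∑ m y² = 2 S` (`qf_le`), so `S² ≤ 2 S |v|²`.
* `qb_L`: `(L⁻¹)ᵀ y` has form `|y|²` at `nil`. -/

set_option autoImplicit false

open Finset Function Matrix

noncomputable section

namespace Pool.Agent.ANS

open Pool.Agent.ANS.Form

variable {T D : Type} [Fintype T] [DecidableEq T]

/-- row `w` of `L` -/
def Form.ph {B : Finset T} (L : Matrix ↥B ↥B ℝ) (w : T) : ↥B → ℝ := fun y =>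
  if h : w ∈ B then L ⟨w, h⟩ y else 0

namespace Stp

/-- `m_w` on `B`, `1` off `B` -/
def mB (P : Stp T D) (B : Finset T) (w : T) : ℝ :=
  if w ∈ B then P.eta nil w * P.io nil w else 1

variable [Fintype D] {P : Stp T D} {X N B : Finset T} {c be e : T → ℝ} {C Lm : ℝ}

namespace Ok

variable (h : P.Ok X N c be e C Lm)
include h

theorem ker_upd {s : T → Option D} {a : T → ℝ}
    (ha : ∀ x ∈ X, ∀ y ∈ X, P.G s x y * ((a x - a y : ℝ) : ℂ) = 0) (w : T) (b : Option D) :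
    ∀ x ∈ X, ∀ y ∈ X, P.G (update s w b) x y * ((a x - a y : ℝ) : ℂ) = 0 := by
  intro x hx y hy
  rw [h.rank1]
  by_cases hw : w ∈ X
  · have h1 := ha x hx y hy
    have h2 := ha x hx w hw
    have h3 := ha w hw y hy
    push_cast at h1 h2 h3 ⊢
    linear_combination h1 - P.u s w b * P.G s w y * h2 - P.u s w b * P.G s x w * h3
  · have hN : w ∉ N := fun h1 => hw (h.NX h1)
    rw [(h.off hN s b).2.1, zero_mul, sub_zero]
    exact ha x hx y hy

theorem ker_all {s : T → Option D} {a : T → ℝ}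
    (ha : ∀ x ∈ X, ∀ y ∈ X, P.G s x y * ((a x - a y : ℝ) : ℂ) = 0) :
    ∀ x ∈ X, ∀ y ∈ X, P.G nil x y * ((a x - a y : ℝ) : ℂ) = 0 := by
  have key : ∀ A : Finset T, ∀ x ∈ X, ∀ y ∈ X,
      P.G (fun z => if z ∈ A then none else s z) x y * ((a x - a y : ℝ) : ℂ) = 0 := by
    intro A
    induction A using Finset.induction_on with
    | empty => simpa using ha
    | insert w A hw ih =>
      have e : (fun z => if z ∈ insert w A then none else s z) =
          update (fun z => if z ∈ A then none else s z) w none := by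
        funext z
        by_cases hz : z = w
        · rw [hz, update_self, if_pos (Finset.mem_insert_self w A)]
        · rw [update_of_ne hz]
          have h1 : z ∈ insert w A ↔ z ∈ A := by
            rw [Finset.mem_insert]
            exact ⟨fun h2 => h2.resolve_left hz, Or.inr⟩
          simp only [h1]
      rw [e]
      exact h.ker_upd ih w none
  have h1 := key Finset.univ
  have e : (fun z : T => if z ∈ (Finset.univ : Finset T) then (none : Option D) else s z) = nil := by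
    funext z
    simp [nil]
  rwa [e] at h1

theorem qb_pd (hBX : B ⊆ X) (hpd : (P.QB B nil).PosDef) (s : T → Option D) :
    (P.QB B s).PosDef := by
  have hs : (P.QB B s).IsHermitian := by
    have h1 : (P.QB B s)ᵀ = P.QB B s := h.qb_symm s
    change (P.QB B s)ᴴ = P.QB B s
    rw [conjTranspose_eq_transpose_of_trivial, h1]
  have hnn : ∀ x y : T, 0 ≤ P.eta s x * P.eta s y * ‖P.G s x y‖ ^ 2 := fun x y =>
    mul_nonneg (mul_nonneg (h.eta0 s x) (h.eta0 s y)) (sq_nonneg _)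
  refine Matrix.PosDef.of_dotProduct_mulVec_pos hs fun v hv => ?_
  rw [star_trivial, h.qb_form s v v]
  have h0 : 0 ≤ Qf (P.G s) (P.eta s) (ext B v) (ext B v) := by
    unfold Qf
    refine mul_nonneg (by norm_num) (Finset.sum_nonneg fun x _ => Finset.sum_nonneg fun y _ => ?_)
    exact mul_nonneg (hnn x y) (mul_self_nonneg _)
  refine lt_of_le_of_ne h0 fun h1 => ?_
  have hz : ∀ x ∈ X, ∀ y ∈ X, P.G s x y * ((ext B v x - ext B v y : ℝ) : ℂ) = 0 := by
    unfold Qf at h1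
    have h2 : ∑ x, ∑ y, P.eta s x * P.eta s y * ‖P.G s x y‖ ^ 2 *
        ((ext B v x - ext B v y) * (ext B v x - ext B v y)) = 0 := by linarith
    intro x hx y hy
    have h3 := (Finset.sum_eq_zero_iff_of_nonneg (fun x _ => Finset.sum_nonneg fun y _ =>
      mul_nonneg (hnn x y) (mul_self_nonneg _))).1 h2 x (Finset.mem_univ x)
    have h4 := (Finset.sum_eq_zero_iff_of_nonneg (fun y _ =>
      mul_nonneg (hnn x y) (mul_self_nonneg _))).1 h3 y (Finset.mem_univ y)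
    have hx' := (h.etaX' s hx).ne'
    have hy' := (h.etaX' s hy).ne'
    rcases mul_eq_zero.1 h4 with h5 | h5
    · have h6 : ‖P.G s x y‖ ^ 2 = 0 := (mul_eq_zero.1 h5).resolve_left (mul_ne_zero hx' hy')
      have h7 : P.G s x y = 0 := norm_eq_zero.1 (pow_eq_zero_iff (two_ne_zero) |>.1 h6)
      rw [h7, zero_mul]
    · rw [mul_self_eq_zero.1 h5]
      simp
  have hz' := h.ker_all hz
  have h5 := hpd.dotProduct_mulVec_pos hv
  rw [star_trivial, h.qb_form nil v v] at h5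
  have h6 : Qf (P.G nil) (P.eta nil) (ext B v) (ext B v) = 0 := by
    unfold Qf
    rw [Finset.sum_eq_zero, mul_zero]
    intro x _
    refine Finset.sum_eq_zero fun y _ => ?_
    by_cases hx : x ∈ X
    · by_cases hy : y ∈ X
      · rcases mul_eq_zero.1 (hz' x hx y hy) with h7 | h7
        · rw [h7]
          simp
        · rw [Complex.ofReal_eq_zero.1 h7]
          simp
      · rw [h.etaU y hy]
        simp
    · rw [h.etaU x hx]
      simp
  rw [h6] at h5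
  exact lt_irrefl _ h5

private theorem io_pos {w : T} (hw : w ∈ X) : 0 < P.io nil w := by
  have h1 := h.io1 w hw
  have h2 := h.C1
  by_contra h3
  push Not at h3
  nlinarith

private theorem m_pos (hBX : B ⊆ X) {w : T} (hw : w ∈ B) : 0 < P.eta nil w * P.io nil w :=
  mul_pos (h.etaX w (hBX hw)) (h.io_pos (hBX hw))

theorem mB_pos (hBX : B ⊆ X) (w : T) : 0 < P.mB B w := by
  unfold mB
  split_ifs with hw
  · exact h.m_pos hBX hw
  · exact one_pos

theorem ph_sq {L : Matrix ↥B ↥B ℝ} (hL : P.QB B nil = L * Lᵀ) (hBX : B ⊆ X) (w : T) :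
    ph L w ⬝ᵥ ph L w ≤ P.mB B w := by
  by_cases hw : w ∈ B
  · have h1 : ph L w ⬝ᵥ ph L w = (L * Lᵀ) ⟨w, hw⟩ ⟨w, hw⟩ := by
      rw [Matrix.mul_apply, dotProduct]
      refine Finset.sum_congr rfl fun y _ => ?_
      simp only [ph, dif_pos hw, Matrix.transpose_apply]
    rw [h1, ← hL]
    unfold mB QB Qm
    rw [if_pos hw, Matrix.submatrix_apply]
    simp only [if_true]
    have h2 : 0 ≤ P.eta nil w * P.S nil w w * P.eta nil w :=
      mul_nonneg (mul_nonneg (h.eta0 nil w) (h.S0 nil w w)) (h.eta0 nil w)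
    linarith
  · have h1 : ph L w = 0 := by
      funext y
      simp only [ph, dif_neg hw, Pi.zero_apply]
    rw [h1, zero_dotProduct]
    exact (h.mB_pos hBX w).le

theorem ph_sum {L : Matrix ↥B ↥B ℝ} (hL : P.QB B nil = L * Lᵀ) (hBX : B ⊆ X) (v : ↥B → ℝ) :
    ∑ w, (ph L w ⬝ᵥ v) ^ 2 / P.mB B w ≤ 2 * (v ⬝ᵥ v) := by
  obtain ⟨S, hS⟩ : ∃ S, S = ∑ w, (ph L w ⬝ᵥ v) ^ 2 / P.mB B w := ⟨_, rfl⟩
  have hph : ∀ w : ↥B, ph L w.1 ⬝ᵥ v = (L *ᵥ v) w := by
    intro w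
    rw [Matrix.mulVec, dotProduct, dotProduct]
    refine Finset.sum_congr rfl fun y _ => ?_
    simp only [ph, dif_pos w.2, Subtype.coe_eta]
  have hm : ∀ w : ↥B, P.mB B w.1 = P.eta nil w.1 * P.io nil w.1 := by
    intro w
    unfold mB
    rw [if_pos w.2]
  have hm0 : ∀ w : ↥B, 0 < P.eta nil w.1 * P.io nil w.1 := fun w => h.m_pos hBX w.2
  have hS1 : S = ∑ w : ↥B, (L *ᵥ v) w ^ 2 / (P.eta nil w.1 * P.io nil w.1) := by
    have e1 : ∑ w ∈ B, (ph L w ⬝ᵥ v) ^ 2 / P.mB B w = S := by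
      rw [hS]
      refine Finset.sum_subset (Finset.subset_univ B) fun w _ hw => ?_
      have h1 : ph L w = 0 := by
        funext y
        simp only [ph, dif_neg hw, Pi.zero_apply]
      rw [h1, zero_dotProduct]
      simp
    rw [← e1, ← Finset.sum_coe_sort B]
    refine Finset.sum_congr rfl fun w _ => ?_
    rw [hph, hm]
  obtain ⟨y, hy⟩ : ∃ y : ↥B → ℝ, y = fun w => (L *ᵥ v) w / (P.eta nil w.1 * P.io nil w.1) :=
    ⟨_, rfl⟩
  have hS2 : S = (Lᵀ *ᵥ y) ⬝ᵥ v := by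
    rw [mulVec_transpose, ← dotProduct_mulVec, hS1, dotProduct]
    refine Finset.sum_congr rfl fun w _ => ?_
    rw [hy]
    ring
  have hS3 : ∑ w : ↥B, P.eta nil w.1 * P.io nil w.1 * y w ^ 2 = S := by
    rw [hS1]
    refine Finset.sum_congr rfl fun w _ => ?_
    have := (hm0 w).ne'
    rw [hy]
    field_simp
  have hS4 : (Lᵀ *ᵥ y) ⬝ᵥ (Lᵀ *ᵥ y) ≤ 2 * S := by
    have e1 : (Lᵀ *ᵥ y) ⬝ᵥ (Lᵀ *ᵥ y) = y ⬝ᵥ (P.QB B nil *ᵥ y) := by
      rw [hL, ← mulVec_mulVec, mulVec_transpose, ← dotProduct_mulVec]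
    rw [e1, h.qb_form nil y y]
    have h1 := qf_le (h.gm nil) (ext B y)
    refine h1.trans (le_of_eq ?_)
    rw [← hS3]
    congr 1
    have e2 : ∑ x ∈ B, P.eta nil x * (P.G nil x x).im * ext B y x ^ 2 =
        ∑ x, P.eta nil x * (P.G nil x x).im * ext B y x ^ 2 := by
      refine Finset.sum_subset (Finset.subset_univ B) fun w _ hw => ?_
      simp only [Form.ext, dif_neg hw]
      ring
    rw [← e2, ← Finset.sum_coe_sort B]
    refine Finset.sum_congr rfl fun w _ => ?_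
    simp only [Form.ext, dif_pos w.2, Subtype.coe_eta]
    rfl
  have hcs : ((Lᵀ *ᵥ y) ⬝ᵥ v) ^ 2 ≤ ((Lᵀ *ᵥ y) ⬝ᵥ (Lᵀ *ᵥ y)) * (v ⬝ᵥ v) := by
    simp only [dotProduct]
    have := Finset.sum_mul_sq_le_sq_mul_sq Finset.univ (Lᵀ *ᵥ y) v
    refine this.trans (le_of_eq ?_)
    simp only [pow_two]
  have hvv : 0 ≤ v ⬝ᵥ v := by
    simp only [dotProduct]
    exact Finset.sum_nonneg fun i _ => mul_self_nonneg _
  rw [← hS, ← hS2] at *
  by_cases hS0 : S ≤ 0
  · linarith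
  · push Not at hS0
    have h1 : S * S ≤ S * (2 * (v ⬝ᵥ v)) := by
      have h2 := mul_le_mul_of_nonneg_right hS4 hvv
      nlinarith
    exact le_of_mul_le_mul_left h1 hS0

/-- the form of `(L⁻¹)ᵀ y` at the start is `|y|²` -/
theorem qb_L {L : Matrix ↥B ↥B ℝ} (hL : P.QB B nil = L * Lᵀ) (hu : IsUnit L.det)
    (y : ↥B → ℝ) :
    Qf (P.G nil) (P.eta nil) (ext B ((L⁻¹)ᵀ *ᵥ y)) (ext B ((L⁻¹)ᵀ *ᵥ y)) = y ⬝ᵥ y := by
  have h1 : L * L⁻¹ = 1 := mul_nonsing_inv L hu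
  have h2 : Lᵀ * (L⁻¹)ᵀ = 1 := by rw [← transpose_mul, nonsing_inv_mul L hu, transpose_one]
  rw [← h.qb_form nil, hL, mulVec_mulVec, mul_assoc, h2, mul_one, dotProduct_mulVec,
    mulVec_transpose, vecMul_vecMul, nonsing_inv_mul L hu, vecMul_one]

/-- `diag (1/m) ≤ 2 (QB nil)⁻¹` -/
theorem diag_inv (hBX : B ⊆ X) (hpd : (P.QB B nil).PosDef) (v : ↥B → ℝ) :
    ∑ w : ↥B, v w ^ 2 / (P.eta nil w * P.io nil w) ≤ 2 * (v ⬝ᵥ ((P.QB B nil)⁻¹ *ᵥ v)) := by
  obtain ⟨L, hL, hu⟩ := exists_fac hpd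
  have h1 := h.ph_sum hL hBX (L⁻¹ *ᵥ v)
  have h2 : (L⁻¹ *ᵥ v) ⬝ᵥ (L⁻¹ *ᵥ v) = v ⬝ᵥ ((P.QB B nil)⁻¹ *ᵥ v) := by
    rw [hL, Matrix.mul_inv_rev, ← mulVec_mulVec, dotProduct_mulVec v, ← transpose_nonsing_inv,
      vecMul_transpose]
  rw [h2] at h1
  refine le_trans (le_of_eq ?_) h1
  have e1 : ∑ w ∈ B, (ph L w ⬝ᵥ (L⁻¹ *ᵥ v)) ^ 2 / P.mB B w =
      ∑ w, (ph L w ⬝ᵥ (L⁻¹ *ᵥ v)) ^ 2 / P.mB B w := by
    refine Finset.sum_subset (Finset.subset_univ B) fun w _ hw => ?_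
    have h1 : ph L w = 0 := by
      funext y
      simp only [ph, dif_neg hw, Pi.zero_apply]
    rw [h1, zero_dotProduct]
    simp
  rw [← e1, ← Finset.sum_coe_sort B]
  refine Finset.sum_congr rfl fun w _ => ?_
  have h3 : ph L w.1 ⬝ᵥ (L⁻¹ *ᵥ v) = v w := by
    have h4 : ph L w.1 ⬝ᵥ (L⁻¹ *ᵥ v) = (L *ᵥ (L⁻¹ *ᵥ v)) w := by
      rw [Matrix.mulVec, dotProduct, dotProduct]
      refine Finset.sum_congr rfl fun y _ => ?_
      simp only [ph, dif_pos w.2, Subtype.coe_eta]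
    rw [h4, mulVec_mulVec, mul_nonsing_inv L hu, one_mulVec]
  have h5 : P.mB B w.1 = P.eta nil w.1 * P.io nil w.1 := by
    unfold mB
    rw [if_pos w.2]
  rw [h3, h5]

end Ok

end Stp

end Pool.Agent.ANS
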