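import Pool.Agent.ANS.Form.TBd

/-! # ANS FORM SQ: the square function of the noise at one configuration

`E_w(a,b) = -2 Re(c1_w T_w(a,b)) + c2_w B_w(a,b) + c3_w Γ_w(a,b)`, `|c1|² ≤ K β`, `c2² ≤ K β²`,
`c3² ≤ K β³`, `β ≤ Cη η`, `β ≤ βm`.  FAMILY of functions `a w = k w + a1 w + a2 w` (`k w` constants,
`|a1| ≤ m1` where `η ≠ 0`, `∑ η a2² ≤ e2`, `Q(a w) ≤ q1`).  Then `∑_w E_w(a w, b)² ≤ ν² Q(b,b)`.

Proof.  If `η w = 0` then `β w = 0` and the term is `0`.  `(p+q+r)² ≤ 3(p²+q²+r²)`.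
* `p² ≤ 4 |c1|² |T_w(a w,b)|² ≤ 8 K β (|T_w(a1 w,b)|² + |T_w(a2 w,b)|²)` (`tf_const`, `tf_add`);
  `∑ β |T_w(a1 w,b)|² ≤ Cη ∑ η |..|² ≤ Cη (4 m1² I) 2 Q(b,b)` by `gf_sup`, `tf_low`;
  `∑ β |T_w(a2 w,b)|² ≤ e2 (σ Cη + t/σ) 2 Q(b,b)` by `tf_high`.
* `q² ≤ K β² B_w(a w) B_w(b)`, `B_w(a w) ≤ 2 B_w(a1 w) + 2 B_w(a2 w) ≤ 2 I (4 m1² I) + 2 I S e2`
  (`bf_const` in both arguments via `bf_comm`, `bf_add_le`, `bf_le` + `gf_sup`, `bf_var`),
  `B_w(b) ≤ I Γ_w(b)`, `∑ β² Γ_w(b) ≤ βm Cη ∑ η Γ_w(b) = βm Cη 2 Q(b,b)`.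
* `r² ≤ K β³ Γ_w(a w) Γ_w(b)`, `β Γ_w(a w) ≤ Cη η Γ_w(a w) ≤ Cη 2 q1` (`gf_one`),
  `∑ β Γ_w(b) ≤ Cη 2 Q(b,b)`. -/

set_option autoImplicit false

open Finset Matrix

noncomputable section

namespace Pool.Agent.ANS.Form

variable {T : Type} [Fintype T] [DecidableEq T] {G : Matrix T T ℂ} {η : T → ℝ}

/-- the noise form with coefficients `c1, c2, c3` -/
def Ef (G : Matrix T T ℂ) (η : T → ℝ) (w : T) (c1 : ℂ) (c2 c3 : ℝ) (a b : T → ℝ) : ℝ :=
  -2 * (c1 * Tf G η w a b).re + c2 * Bf G η w a b + c3 * Gf G η w a b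

private theorem re_sq (z : ℂ) : (-2 * z.re) ^ 2 ≤ 4 * ‖z‖ ^ 2 := by
  have h := Complex.abs_re_le_norm z
  have h2 : z.re ^ 2 ≤ ‖z‖ ^ 2 := sq_le_sq.2 (by rw [abs_norm]; exact h)
  nlinarith

private theorem nadd_sq (z w : ℂ) : ‖z + w‖ ^ 2 ≤ 2 * ‖z‖ ^ 2 + 2 * ‖w‖ ^ 2 := by
  have h1 := norm_add_le z w
  have h2 : ‖z + w‖ ^ 2 ≤ (‖z‖ + ‖w‖) ^ 2 := pow_le_pow_left₀ (norm_nonneg _) h1 2
  nlinarith [sq_nonneg (‖z‖ - ‖w‖)]

theorem sq_fn (hm : Gm G η) (β : T → ℝ) (c1 : T → ℂ) (c2 c3 : T → ℝ)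
    {K Cη βm I S σ t m1 e2 q1 : ℝ} (hK : 0 ≤ K) (hCη : 0 ≤ Cη) (hI0 : 0 ≤ I) (hS0 : 0 ≤ S)
    (hβ0 : ∀ w, 0 ≤ β w) (hβ : ∀ w, β w ≤ Cη * η w) (hβm : ∀ w, β w ≤ βm) (hβm0 : 0 ≤ βm)
    (h1 : ∀ w, ‖c1 w‖ ^ 2 ≤ K * β w) (h2 : ∀ w, c2 w ^ 2 ≤ K * β w ^ 2)
    (h3 : ∀ w, c3 w ^ 2 ≤ K * β w ^ 3)
    (hI : ∀ w, η w ≠ 0 → (G w w).im ≤ I) (hS : ∀ x w, η x ≠ 0 → η w ≠ 0 → ‖G x w‖ ^ 2 ≤ S)
    (hσ : 0 < σ) (ht : ∀ x, η x ≠ 0 → ∑ w, β w * ((G w w).im * ‖G x w‖ ^ 4) ≤ t)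
    (a a1 a2 : T → T → ℝ) (k : T → ℝ) (ha : ∀ w x, a w x = k w + a1 w x + a2 w x)
    (hm1 : 0 ≤ m1) (ha1 : ∀ w x, η x ≠ 0 → |a1 w x| ≤ m1)
    (ha2 : ∀ w, ∑ x, η x * a2 w x ^ 2 ≤ e2) (hq : ∀ w, Qf G η (a w) (a w) ≤ q1) (b : T → ℝ) :
    ∑ w, Ef G η w (c1 w) (c2 w) (c3 w) (a w) b ^ 2 ≤
      12 * K * (16 * Cη * I * m1 ^ 2 + 4 * e2 * (σ * Cη + t / σ) +
        I ^ 2 * Cη * βm * (4 * I * m1 ^ 2 + S * e2) + Cη ^ 2 * βm * q1) * Qf G η b b := by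
  have hQ0 : 0 ≤ Qf G η b b := qf_nonneg hm b
  -- the pointwise bound
  have hpt : ∀ w, Ef G η w (c1 w) (c2 w) (c3 w) (a w) b ^ 2 ≤
      24 * K * (β w * ‖Tf G η w (a1 w) b‖ ^ 2) + 24 * K * (β w * ‖Tf G η w (a2 w) b‖ ^ 2) +
      3 * K * (I * (8 * I ^ 2 * m1 ^ 2 + 2 * I * (S * e2)) + 2 * Cη * q1) *
        (β w ^ 2 * Gf G η w b b) := by
    intro w
    have he2 : 0 ≤ e2 :=
      (Finset.sum_nonneg fun x _ => mul_nonneg (hm.eta0 x) (sq_nonneg _)).trans (ha2 w)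
    have hq1 : 0 ≤ q1 := (qf_nonneg hm (a w)).trans (hq w)
    have hG0 := gf_nonneg hm w b
    have hb := hβ0 w
    by_cases hw : η w = 0
    · have hbw : β w = 0 :=
        le_antisymm (by have := hβ w; rw [hw, mul_zero] at this; exact this) (hβ0 w)
      have hc1 : c1 w = 0 := by
        have h := h1 w
        rw [hbw, mul_zero] at h
        exact norm_eq_zero.1 ((pow_eq_zero_iff two_ne_zero).1 (le_antisymm h (sq_nonneg _)))
      have hc2 : c2 w = 0 := by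
        have h := h2 w
        rw [hbw, zero_pow two_ne_zero, mul_zero] at h
        exact (pow_eq_zero_iff two_ne_zero).1 (le_antisymm h (sq_nonneg _))
      have hc3 : c3 w = 0 := by
        have h := h3 w
        rw [hbw, zero_pow three_ne_zero, mul_zero] at h
        exact (pow_eq_zero_iff two_ne_zero).1 (le_antisymm h (sq_nonneg _))
      rw [Ef, hc1, hc2, hc3, hbw]
      simp
    · have haw : a w = fun x => (a1 w x + a2 w x) + k w := funext fun x => by rw [ha]; ring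
      have hIw : (G w w).im ≤ I := hI w hw
      have hi0 := io_nonneg hm w
      -- the first term
      have hp : (-2 * (c1 w * Tf G η w (a w) b).re) ^ 2 ≤
          8 * K * (β w * ‖Tf G η w (a1 w) b‖ ^ 2) + 8 * K * (β w * ‖Tf G η w (a2 w) b‖ ^ 2) := by
        refine (re_sq _).trans ?_
        rw [norm_mul, mul_pow]
        have hT : ‖Tf G η w (a w) b‖ ^ 2 ≤
            2 * ‖Tf G η w (a1 w) b‖ ^ 2 + 2 * ‖Tf G η w (a2 w) b‖ ^ 2 := by
          rw [haw, tf_const, tf_add]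
          exact nadd_sq _ _
        have h4 : ‖c1 w‖ ^ 2 * ‖Tf G η w (a w) b‖ ^ 2 ≤ (K * β w) *
            (2 * ‖Tf G η w (a1 w) b‖ ^ 2 + 2 * ‖Tf G η w (a2 w) b‖ ^ 2) :=
          mul_le_mul (h1 w) hT (sq_nonneg _) (mul_nonneg hK hb)
        linarith
      -- the second term
      have hBa : Bf G η w (a w) (a w) ≤ 8 * I ^ 2 * m1 ^ 2 + 2 * I * (S * e2) := by
        have e1 : Bf G η w (a w) (a w) =
            Bf G η w (fun x => a1 w x + a2 w x) (fun x => a1 w x + a2 w x) := by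
          rw [haw, bf_const, bf_comm, bf_const]
        rw [e1]
        refine (bf_add_le hm w _ _).trans ?_
        have h5 := bf_le hm w (a1 w)
        have h6 := gf_sup hm w (a1 w) (ha1 w w hw) (fun x hx => ha1 w x hx)
        have h7 := bf_var hm w (a2 w) (fun x hx => hS x w hx hw)
        have h8 : (G w w).im * Gf G η w (a1 w) (a1 w) ≤ I * (4 * m1 ^ 2 * I) := by
          refine mul_le_mul hIw (h6.trans ?_) (gf_nonneg hm w _) hI0
          exact mul_le_mul_of_nonneg_left hIw (by positivity)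
        have h9 : (G w w).im * (S * ∑ x, η x * a2 w x ^ 2) ≤ I * (S * e2) := by
          refine mul_le_mul hIw (mul_le_mul_of_nonneg_left (ha2 w) hS0) ?_ hI0
          exact mul_nonneg hS0
            (Finset.sum_nonneg fun x _ => mul_nonneg (hm.eta0 x) (sq_nonneg _))
        nlinarith
      have hBb : Bf G η w b b ≤ I * Gf G η w b b :=
        (bf_le hm w b).trans (mul_le_mul_of_nonneg_right hIw hG0)
      have hq' : (c2 w * Bf G η w (a w) b) ^ 2 ≤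
          K * β w ^ 2 * ((8 * I ^ 2 * m1 ^ 2 + 2 * I * (S * e2)) * (I * Gf G η w b b)) := by
        rw [mul_pow]
        refine mul_le_mul (h2 w) ((cs_b hm w _ _).trans ?_) (sq_nonneg _)
          (mul_nonneg hK (sq_nonneg _))
        exact mul_le_mul hBa hBb (bf_nonneg hm w b) (by positivity)
      -- the third term
      have hΓa : β w * Gf G η w (a w) (a w) ≤ 2 * Cη * q1 := by
        calc β w * Gf G η w (a w) (a w) ≤ (Cη * η w) * Gf G η w (a w) (a w) :=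
              mul_le_mul_of_nonneg_right (hβ w) (gf_nonneg hm w _)
          _ = Cη * (η w * Gf G η w (a w) (a w)) := by ring
          _ ≤ Cη * (2 * q1) := by
              refine mul_le_mul_of_nonneg_left ?_ hCη
              exact (gf_one hm w (a w)).trans (by linarith [hq w])
          _ = 2 * Cη * q1 := by ring
      have hr : (c3 w * Gf G η w (a w) b) ^ 2 ≤
          K * β w ^ 2 * ((2 * Cη * q1) * Gf G η w b b) := by
        rw [mul_pow]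
        calc c3 w ^ 2 * Gf G η w (a w) b ^ 2 ≤
            (K * β w ^ 3) * (Gf G η w (a w) (a w) * Gf G η w b b) :=
              mul_le_mul (h3 w) (cs_g hm w _ _) (sq_nonneg _) (mul_nonneg hK (pow_nonneg hb 3))
          _ = K * β w ^ 2 * ((β w * Gf G η w (a w) (a w)) * Gf G η w b b) := by ring
          _ ≤ _ := by
              refine mul_le_mul_of_nonneg_left ?_ (mul_nonneg hK (sq_nonneg _))
              exact mul_le_mul_of_nonneg_right hΓa hG0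
      have h3' : Ef G η w (c1 w) (c2 w) (c3 w) (a w) b ^ 2 ≤
          3 * ((-2 * (c1 w * Tf G η w (a w) b).re) ^ 2 + (c2 w * Bf G η w (a w) b) ^ 2 +
            (c3 w * Gf G η w (a w) b) ^ 2) := by
        unfold Ef
        nlinarith [sq_nonneg (-2 * (c1 w * Tf G η w (a w) b).re - c2 w * Bf G η w (a w) b),
          sq_nonneg (-2 * (c1 w * Tf G η w (a w) b).re - c3 w * Gf G η w (a w) b),
          sq_nonneg (c2 w * Bf G η w (a w) b - c3 w * Gf G η w (a w) b)]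
      refine h3'.trans ?_
      have e9 : 24 * K * (β w * ‖Tf G η w (a1 w) b‖ ^ 2) +
          24 * K * (β w * ‖Tf G η w (a2 w) b‖ ^ 2) +
          3 * K * (I * (8 * I ^ 2 * m1 ^ 2 + 2 * I * (S * e2)) + 2 * Cη * q1) *
            (β w ^ 2 * Gf G η w b b) =
          3 * ((8 * K * (β w * ‖Tf G η w (a1 w) b‖ ^ 2) +
            8 * K * (β w * ‖Tf G η w (a2 w) b‖ ^ 2)) +
            K * β w ^ 2 * ((8 * I ^ 2 * m1 ^ 2 + 2 * I * (S * e2)) * (I * Gf G η w b b)) +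
            K * β w ^ 2 * ((2 * Cη * q1) * Gf G η w b b)) := by ring
      rw [e9]
      linarith
  -- the sums
  rcases isEmpty_or_nonempty T with hT | ⟨⟨w₀⟩⟩
  · simp [Qf]
  have he2 : 0 ≤ e2 :=
    (Finset.sum_nonneg fun x _ => mul_nonneg (hm.eta0 x) (sq_nonneg _)).trans (ha2 w₀)
  have hq1 : 0 ≤ q1 := (qf_nonneg hm (a w₀)).trans (hq w₀)
  have hs1 : ∑ w, β w * ‖Tf G η w (a1 w) b‖ ^ 2 ≤
      Cη * ((4 * m1 ^ 2 * I) * (2 * Qf G η b b)) := by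
    have h4 := tf_low hm a1 b (M := 4 * m1 ^ 2 * I) (by positivity) (fun w hw =>
      (gf_sup hm w (a1 w) (ha1 w w hw) (fun x hx => ha1 w x hx)).trans
        (mul_le_mul_of_nonneg_left (hI w hw) (by positivity)))
    calc ∑ w, β w * ‖Tf G η w (a1 w) b‖ ^ 2 ≤ ∑ w, Cη * (η w * ‖Tf G η w (a1 w) b‖ ^ 2) := by
          refine Finset.sum_le_sum fun w _ => ?_
          rw [← mul_assoc]
          exact mul_le_mul_of_nonneg_right (hβ w) (sq_nonneg _)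
      _ = Cη * ∑ w, η w * ‖Tf G η w (a1 w) b‖ ^ 2 := by rw [Finset.mul_sum]
      _ ≤ _ := mul_le_mul_of_nonneg_left h4 hCη
  have hs2 := tf_high hm a2 b β hβ0 hβ ha2 hσ ht
  have hs3 : ∑ w, β w ^ 2 * Gf G η w b b ≤ βm * (Cη * (2 * Qf G η b b)) := by
    calc ∑ w, β w ^ 2 * Gf G η w b b ≤ ∑ w, βm * Cη * (η w * Gf G η w b b) := by
          refine Finset.sum_le_sum fun w _ => ?_
          have h4 : β w ^ 2 ≤ βm * (Cη * η w) := by
            rw [pow_two]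
            exact mul_le_mul (hβm w) (hβ w) (hβ0 w) hβm0
          calc β w ^ 2 * Gf G η w b b ≤ (βm * (Cη * η w)) * Gf G η w b b :=
                mul_le_mul_of_nonneg_right h4 (gf_nonneg hm w b)
            _ = _ := by ring
      _ = βm * Cη * ∑ w, η w * Gf G η w b b := by rw [Finset.mul_sum]
      _ = _ := by rw [gf_sum hm]; ring
  calc ∑ w, Ef G η w (c1 w) (c2 w) (c3 w) (a w) b ^ 2 ≤
      ∑ w, (24 * K * (β w * ‖Tf G η w (a1 w) b‖ ^ 2) +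
        24 * K * (β w * ‖Tf G η w (a2 w) b‖ ^ 2) +
        3 * K * (I * (8 * I ^ 2 * m1 ^ 2 + 2 * I * (S * e2)) + 2 * Cη * q1) *
          (β w ^ 2 * Gf G η w b b)) := Finset.sum_le_sum fun w _ => hpt w
    _ = 24 * K * ∑ w, β w * ‖Tf G η w (a1 w) b‖ ^ 2 +
        24 * K * ∑ w, β w * ‖Tf G η w (a2 w) b‖ ^ 2 +
        3 * K * (I * (8 * I ^ 2 * m1 ^ 2 + 2 * I * (S * e2)) + 2 * Cη * q1) *
          ∑ w, β w ^ 2 * Gf G η w b b := by
        rw [Finset.sum_add_distrib, Finset.sum_add_distrib, Finset.mul_sum, Finset.mul_sum,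
          Finset.mul_sum]
    _ ≤ 24 * K * (Cη * ((4 * m1 ^ 2 * I) * (2 * Qf G η b b))) +
        24 * K * (e2 * ((σ * Cη + t / σ) * (2 * Qf G η b b))) +
        3 * K * (I * (8 * I ^ 2 * m1 ^ 2 + 2 * I * (S * e2)) + 2 * Cη * q1) *
          (βm * (Cη * (2 * Qf G η b b))) := by
        refine add_le_add (add_le_add ?_ ?_) ?_
        · exact mul_le_mul_of_nonneg_left hs1 (by positivity)
        · exact mul_le_mul_of_nonneg_left hs2 (by positivity)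
        · exact mul_le_mul_of_nonneg_left hs3 (by positivity)
    _ = _ := by ring

/-- linear bound for a sum of noise forms: coefficients `O(R η)` -/
theorem ef_lin (hm : Gm G η) (c1 : T → ℂ) (c2 c3 : T → ℝ) {R1 R2 R3 : ℝ}
    (h1 : ∀ w, ‖c1 w‖ ≤ R1 * η w) (h2 : ∀ w, |c2 w| * (G w w).im ≤ R2 * η w)
    (h3 : ∀ w, |c3 w| ≤ R3 * η w) (a b : T → ℝ) :
    |∑ w, Ef G η w (c1 w) (c2 w) (c3 w) a b| ≤
      (4 * R1 + 2 * R2 + 2 * R3) * Real.sqrt (Qf G η a a * Qf G η b b) := by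
  have e1 : ∑ w, Ef G η w (c1 w) (c2 w) (c3 w) a b =
      -2 * (∑ w, c1 w * Tf G η w a b).re + ∑ w, c2 w * Bf G η w a b +
        ∑ w, c3 w * Gf G η w a b := by
    unfold Ef
    rw [Finset.sum_add_distrib, Finset.sum_add_distrib, Complex.re_sum, Finset.mul_sum]
  rw [e1]
  have h4 := tf_lin hm c1 h1 a b
  have h5 := bf_lin hm c2 h2 a b
  have h6 := gf_lin hm c3 h3 a b
  have h7 := (Complex.abs_re_le_norm (∑ w, c1 w * Tf G η w a b)).trans h4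
  have h8 := abs_add_three (-2 * (∑ w, c1 w * Tf G η w a b).re) (∑ w, c2 w * Bf G η w a b)
    (∑ w, c3 w * Gf G η w a b)
  have h9 : |-2 * (∑ w, c1 w * Tf G η w a b).re| = 2 * |(∑ w, c1 w * Tf G η w a b).re| := by
    rw [abs_mul]
    norm_num
  rw [h9] at h8
  nlinarith

end Pool.Agent.ANS.Form
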