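import Pool.Agent.ANS.Form.Bd

/-! # ANS FORM TBD: bounds for the complex form `T_w`

Notation `A_xw = ∑_y η_y G_wy conj(G_xy) (b_x - b_y)`, `e_x = Γ_x(b,b) = ∑_y η_y |G_xy|² (b_x-b_y)²`.
* `tf_rep`: `T_w(a,b) = ∑_x η_x (a_x - a_w) G_xw A_xw`.  The kernel
  `η_x η_y G_xw G_wy conj G_xy` is symmetric in `x, y`, so
  `(1/2) ∑ z_xy (a_x-a_y)(b_x-b_y) = ∑ z_xy a_x (b_x-b_y)`, and
  `∑_xy z_xy (b_x - b_y) = 0` (antisymmetry) allows to subtract the constant `a_w` (any constant).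
* `A_sq`: `|A_xw|² ≤ (∑_y η_y |G_wy|²)(∑_y η_y |G_xy|² (b_x-b_y)²) = Im G_ww e_x`.
* `A_sum`: `∑_w η_w |A_xw|² ≤ e_x`: `A_xw = (G c)_w`, `c_y = η_y conj(G_xy)(b_x-b_y)`, contraction:
  `≤ ∑_y |c_y|²/η_y = e_x` (terms with `η_y = 0` vanish).
* `tf_lin`: `∑_w ρ_w T_w(a,b) = (1/2) ∑_xy η_x η_y conj(G_xy) K_xy (a_x-a_y)(b_x-b_y)` with
  `K = G ρ G`, and `(b_x-b_y) K_xy = -([G,b] ρ G + G ρ [G,b])_xy`-type identity: with
  `D_xy = G_xy (b_x-b_y)`: `K_xy (b_x-b_y) = ∑_w D_xw ρ_w G_wy + ∑_w G_xw ρ_w D_wy`.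
  Cauchy-Schwarz over `(x,y)` with weights `η_x η_y`: first factor
  `∑ η_x η_y |G_xy|² (a_x-a_y)² = 2 Q(a,a)`; second: for fixed `x`, the vector `c_w = D_xw ρ_w` satisfies
  `∑_y η_y |(G c)_y|² ≤ ∑_w |D_xw|² |ρ_w|²/η_w ≤ R² ∑_w η_w |D_xw|²` (contraction, symmetry), then
  `∑_x η_x ..≤ R² · 2 Q(b,b)`; the other term is the same with `x, y` exchanged.
  Total `(1/2) (2 Q(a,a))^(1/2) · 2 R (2 Q(b,b))^(1/2) = 2 R (Q(a,a) Q(b,b))^(1/2)`.
* `tf_low`: `|T_w(a,b)|² ≤ Γ_w(a,a) ∑_x η_x |A_xw|²` (tf_rep, Cauchy-Schwarz), and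
  `∑_w η_w ∑_x η_x |A_xw|² ≤ ∑_x η_x e_x = 2 Q(b,b)` (`A_sum`, `gf_sum`).
* `tf_high`: `tf_rep` with the constant `0` instead of `a_w`:
  `|T_w(a,b)|² ≤ (∑ η_x a_x²)(∑_x η_x |G_xw|² |A_xw|²)`; `|G_xw|² ≤ σ + |G_xw|⁴/σ`;
  `∑_w β_w ∑_x η_x σ |A_xw|² ≤ σ Cη ∑_x η_x e_x`,
  `∑_w β_w ∑_x η_x |G_xw|⁴ |A_xw|²/σ ≤ σ⁻¹ ∑_x η_x e_x ∑_w β_w Im G_ww |G_xw|⁴ ≤ (t/σ) ∑_x η_x e_x`. -/

set_option autoImplicit false

open Finset Matrix

noncomputable section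

namespace Pool.Agent.ANS.Form

variable {T : Type} [Fintype T] [DecidableEq T] {G : Matrix T T ℂ} {η : T → ℝ} {w : T}

/-- `A_xw` -/
def Ax (G : Matrix T T ℂ) (η : T → ℝ) (b : T → ℝ) (x w : T) : ℂ :=
  ∑ y, ((η y * (b x - b y) : ℝ) : ℂ) * (G w y * (starRingEnd ℂ) (G x y))

omit [DecidableEq T] in
/-- Cauchy-Schwarz with weights -/
private theorem wcs {ι : Type} (s : Finset ι) (p : ι → ℝ) (hp : ∀ y, 0 ≤ p y) (u v : ι → ℂ) :
    ‖∑ y ∈ s, ((p y : ℝ) : ℂ) * (u y * v y)‖ ^ 2 ≤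
      (∑ y ∈ s, p y * ‖u y‖ ^ 2) * ∑ y ∈ s, p y * ‖v y‖ ^ 2 := by
  have h1 : ‖∑ y ∈ s, ((p y : ℝ) : ℂ) * (u y * v y)‖ ≤
      ∑ y ∈ s, (Real.sqrt (p y) * ‖u y‖) * (Real.sqrt (p y) * ‖v y‖) := by
    refine (norm_sum_le _ _).trans (le_of_eq (Finset.sum_congr rfl fun y _ => ?_))
    rw [norm_mul, norm_mul, Complex.norm_real, Real.norm_of_nonneg (hp y)]
    nth_rewrite 1 [← Real.mul_self_sqrt (hp y)]
    ring
  have h2 := Finset.sum_mul_sq_le_sq_mul_sq s (fun y => Real.sqrt (p y) * ‖u y‖)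
    (fun y => Real.sqrt (p y) * ‖v y‖)
  have h3 : ∀ (z : ι → ℂ), ∑ y ∈ s, (Real.sqrt (p y) * ‖z y‖) ^ 2 = ∑ y ∈ s, p y * ‖z y‖ ^ 2 := by
    intro z
    refine Finset.sum_congr rfl fun y _ => ?_
    rw [mul_pow, Real.sq_sqrt (hp y)]
  rw [h3, h3] at h2
  exact (pow_le_pow_left₀ (norm_nonneg _) h1 2).trans h2

theorem tf_rep (hm : Gm G η) (w : T) (a b : T → ℝ) (c : ℝ) :
    Tf G η w a b = ∑ x, ((η x * (a x - c) : ℝ) : ℂ) * (G x w * Ax G η b x w) := by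
  obtain ⟨f, hf⟩ : ∃ f : T → T → ℂ, ∀ x y, f x y =
      ((η x * η y * ((a x - c) * (b x - b y)) : ℝ) : ℂ) *
        (G x w * G w y * (starRingEnd ℂ) (G x y)) := ⟨_, fun x y => rfl⟩
  have h1 : Tf G η w a b = 1 / 2 * ∑ x, ∑ y, (f x y + f y x) := by
    unfold Tf
    congr 1
    refine Finset.sum_congr rfl fun x _ => Finset.sum_congr rfl fun y _ => ?_
    rw [hf, hf, hm.sym y w, hm.sym w x, hm.sym y x]
    push_cast
    ring
  have h2 : ∑ x, ∑ y, (f x y + f y x) = 2 * ∑ x, ∑ y, f x y := by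
    simp only [Finset.sum_add_distrib]
    rw [Finset.sum_comm (f := fun x y => f y x)]
    ring
  rw [h1, h2]
  have h3 : ∑ x, ∑ y, f x y = ∑ x, ((η x * (a x - c) : ℝ) : ℂ) * (G x w * Ax G η b x w) := by
    refine Finset.sum_congr rfl fun x _ => ?_
    unfold Ax
    rw [Finset.mul_sum, Finset.mul_sum]
    refine Finset.sum_congr rfl fun y _ => ?_
    rw [hf]
    push_cast
    ring
  rw [h3]
  ring

private theorem gf_eq (hm : Gm G η) (b : T → ℝ) (x : T) :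
    Gf G η x b b = ∑ y, η y * ‖((b x - b y : ℝ) : ℂ) * (starRingEnd ℂ) (G x y)‖ ^ 2 := by
  unfold Gf
  refine Finset.sum_congr rfl fun y _ => ?_
  rw [norm_mul, Complex.norm_real, Real.norm_eq_abs, mul_pow, sq_abs, RCLike.norm_conj,
    hm.sym y x]
  ring

theorem A_sq (hm : Gm G η) (b : T → ℝ) (x w : T) :
    ‖Ax G η b x w‖ ^ 2 ≤ (G w w).im * Gf G η x b b := by
  have h1 : Ax G η b x w = ∑ y, ((η y : ℝ) : ℂ) *
      (G w y * (((b x - b y : ℝ) : ℂ) * (starRingEnd ℂ) (G x y))) := by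
    unfold Ax
    refine Finset.sum_congr rfl fun y _ => ?_
    push_cast
    ring
  rw [h1, gf_eq hm, hm.ward]
  exact wcs _ η hm.eta0 _ _

theorem A_sum (hm : Gm G η) (b : T → ℝ) (x : T) :
    ∑ w, η w * ‖Ax G η b x w‖ ^ 2 ≤ Gf G η x b b := by
  obtain ⟨c, hc⟩ : ∃ c : T → ℂ, ∀ y, c y = ((η y : ℝ) : ℂ) *
      (((b x - b y : ℝ) : ℂ) * (starRingEnd ℂ) (G x y)) := ⟨_, fun y => rfl⟩
  have h1 : ∀ w, Ax G η b x w = (G *ᵥ c) w := by
    intro w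
    unfold Ax
    rw [Matrix.mulVec, dotProduct]
    refine Finset.sum_congr rfl fun y _ => ?_
    rw [hc]
    push_cast
    ring
  have h2 := hm.contr c (fun y hy => by rw [hc, hy]; simp)
  calc ∑ w, η w * ‖Ax G η b x w‖ ^ 2 = ∑ w, η w * ‖(G *ᵥ c) w‖ ^ 2 :=
        Finset.sum_congr rfl fun w _ => by rw [h1]
    _ ≤ _ := h2
    _ = Gf G η x b b := by
        rw [gf_eq hm]
        refine Finset.sum_congr rfl fun y _ => ?_
        rw [hc, norm_mul, Complex.norm_real, Real.norm_eq_abs, mul_pow, sq_abs]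
        rcases eq_or_ne (η y) 0 with h3 | h3
        · rw [h3]
          simp
        · field_simp

/-- the total of the `A_xw` -/
private theorem A_tot (hm : Gm G η) (b : T → ℝ) :
    ∑ w, ∑ x, η w * η x * ‖Ax G η b x w‖ ^ 2 ≤ 2 * Qf G η b b := by
  rw [Finset.sum_comm, ← gf_sum hm]
  refine Finset.sum_le_sum fun x _ => ?_
  calc ∑ w, η w * η x * ‖Ax G η b x w‖ ^ 2 = η x * ∑ w, η w * ‖Ax G η b x w‖ ^ 2 := by
        rw [Finset.mul_sum]
        exact Finset.sum_congr rfl fun w _ => by ring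
    _ ≤ _ := mul_le_mul_of_nonneg_left (A_sum hm b x) (hm.eta0 x)

private theorem gf_eq' (b : T → ℝ) (w : T) :
    ∑ x, η x * ‖((b x - b w : ℝ) : ℂ) * G x w‖ ^ 2 = Gf G η w b b := by
  unfold Gf
  refine Finset.sum_congr rfl fun y _ => ?_
  rw [norm_mul, Complex.norm_real, Real.norm_eq_abs, mul_pow, sq_abs]
  ring

theorem tf_lin (hm : Gm G η) (ρ : T → ℂ) {R : ℝ} (hρ : ∀ w, ‖ρ w‖ ≤ R * η w) (a b : T → ℝ) :
    ‖∑ w, ρ w * Tf G η w a b‖ ≤ 2 * R * Real.sqrt (Qf G η a a * Qf G η b b) := by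
  rcases lt_or_ge R 0 with hR | hR
  · have hη : ∀ w, η w = 0 := by
      intro w
      have h1 := (norm_nonneg _).trans (hρ w)
      have h2 := hm.eta0 w
      nlinarith
    have h1 : ∑ w, ρ w * Tf G η w a b = 0 := by
      refine Finset.sum_eq_zero fun w _ => ?_
      have h2 := hρ w
      rw [hη w, mul_zero] at h2
      rw [norm_le_zero_iff.1 h2, zero_mul]
    have h2 : Qf G η a a = 0 := by
      unfold Qf
      simp [hη]
    rw [h1, h2]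
    simp
  · -- Cauchy-Schwarz over the pairs
    have h1 : ‖∑ w, ρ w * Tf G η w a b‖ ≤ R * ∑ p : T × T,
        (Real.sqrt (η p.1 * η p.2) * ‖((a p.2 - a p.1 : ℝ) : ℂ) * G p.2 p.1‖) *
          (Real.sqrt (η p.1 * η p.2) * ‖Ax G η b p.2 p.1‖) := by
      rw [Fintype.sum_prod_type, Finset.mul_sum]
      refine (norm_sum_le _ _).trans (Finset.sum_le_sum fun w _ => ?_)
      rw [norm_mul, tf_rep hm w a b (a w)]
      refine (mul_le_mul (hρ w) (norm_sum_le _ _) (norm_nonneg _)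
        (mul_nonneg hR (hm.eta0 w))).trans (le_of_eq ?_)
      rw [mul_assoc, Finset.mul_sum]
      congr 1
      refine Finset.sum_congr rfl fun x _ => ?_
      have h2 : 0 ≤ η w * η x := mul_nonneg (hm.eta0 w) (hm.eta0 x)
      have h3 : Real.sqrt (η w * η x) * ‖((a x - a w : ℝ) : ℂ) * G x w‖ *
          (Real.sqrt (η w * η x) * ‖Ax G η b x w‖) =
          (Real.sqrt (η w * η x) * Real.sqrt (η w * η x)) *
            (‖((a x - a w : ℝ) : ℂ) * G x w‖ * ‖Ax G η b x w‖) := by ring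
      change _ = Real.sqrt (η w * η x) * ‖((a x - a w : ℝ) : ℂ) * G x w‖ *
          (Real.sqrt (η w * η x) * ‖Ax G η b x w‖)
      rw [h3, Real.mul_self_sqrt h2, norm_mul, norm_mul, norm_mul, Complex.norm_real,
        Complex.norm_real, Real.norm_eq_abs, Real.norm_eq_abs, abs_mul,
        abs_of_nonneg (hm.eta0 x)]
      ring
    have h2 := Finset.sum_mul_sq_le_sq_mul_sq (Finset.univ : Finset (T × T))
      (fun p => Real.sqrt (η p.1 * η p.2) * ‖((a p.2 - a p.1 : ℝ) : ℂ) * G p.2 p.1‖)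
      (fun p => Real.sqrt (η p.1 * η p.2) * ‖Ax G η b p.2 p.1‖)
    have h3 : ∑ p : T × T, (Real.sqrt (η p.1 * η p.2) *
        ‖((a p.2 - a p.1 : ℝ) : ℂ) * G p.2 p.1‖) ^ 2 = 2 * Qf G η a a := by
      rw [← gf_sum hm, Fintype.sum_prod_type]
      refine Finset.sum_congr rfl fun w _ => ?_
      rw [← gf_eq', Finset.mul_sum]
      refine Finset.sum_congr rfl fun x _ => ?_
      rw [mul_pow, Real.sq_sqrt (mul_nonneg (hm.eta0 w) (hm.eta0 x)), mul_assoc]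
    have h4 : ∑ p : T × T, (Real.sqrt (η p.1 * η p.2) * ‖Ax G η b p.2 p.1‖) ^ 2 ≤
        2 * Qf G η b b := by
      refine le_trans (le_of_eq ?_) (A_tot hm b)
      rw [Fintype.sum_prod_type]
      refine Finset.sum_congr rfl fun w _ => Finset.sum_congr rfl fun x _ => ?_
      rw [mul_pow, Real.sq_sqrt (mul_nonneg (hm.eta0 w) (hm.eta0 x))]
    rw [h3] at h2
    have h5 := h2.trans (mul_le_mul_of_nonneg_left h4
      (mul_nonneg zero_le_two (qf_nonneg hm a)))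
    have h6 := Real.le_sqrt_of_sq_le h5
    have h7 : Real.sqrt (2 * Qf G η a a * (2 * Qf G η b b)) =
        2 * Real.sqrt (Qf G η a a * Qf G η b b) := by
      have h8 : 2 * Qf G η a a * (2 * Qf G η b b) = 2 ^ 2 * (Qf G η a a * Qf G η b b) := by ring
      rw [h8, Real.sqrt_mul (by norm_num), Real.sqrt_sq (by norm_num)]
    rw [h7] at h6
    calc _ ≤ _ := h1
      _ ≤ R * (2 * Real.sqrt (Qf G η a a * Qf G η b b)) := mul_le_mul_of_nonneg_left h6 hR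
      _ = _ := by ring

theorem tf_low (hm : Gm G η) (a : T → T → ℝ) (b : T → ℝ) {M : ℝ} (hM : 0 ≤ M)
    (ha : ∀ w, η w ≠ 0 → Gf G η w (a w) (a w) ≤ M) :
    ∑ w, η w * ‖Tf G η w (a w) b‖ ^ 2 ≤ M * (2 * Qf G η b b) := by
  have h1 : ∀ w, η w * ‖Tf G η w (a w) b‖ ^ 2 ≤ M * ∑ x, η w * η x * ‖Ax G η b x w‖ ^ 2 := by
    intro w
    have h0 := hm.eta0 w
    have hS : 0 ≤ ∑ x, η x * ‖Ax G η b x w‖ ^ 2 :=
      Finset.sum_nonneg fun x _ => mul_nonneg (hm.eta0 x) (by positivity)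
    have h2 : ‖Tf G η w (a w) b‖ ^ 2 ≤ Gf G η w (a w) (a w) * ∑ x, η x * ‖Ax G η b x w‖ ^ 2 := by
      have h3 : Tf G η w (a w) b = ∑ x, ((η x : ℝ) : ℂ) *
          ((((a w x - a w w : ℝ) : ℂ) * G x w) * Ax G η b x w) := by
        rw [tf_rep hm w (a w) b (a w w)]
        refine Finset.sum_congr rfl fun x _ => ?_
        push_cast
        ring
      rw [h3, ← gf_eq']
      exact wcs _ η hm.eta0 _ _
    have h4 : M * ∑ x, η w * η x * ‖Ax G η b x w‖ ^ 2 =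
        η w * (M * ∑ x, η x * ‖Ax G η b x w‖ ^ 2) := by
      rw [Finset.mul_sum, Finset.mul_sum, Finset.mul_sum]
      exact Finset.sum_congr rfl fun x _ => by ring
    rw [h4]
    rcases eq_or_ne (η w) 0 with h5 | h5
    · rw [h5, zero_mul, zero_mul]
    · exact mul_le_mul_of_nonneg_left (h2.trans (mul_le_mul_of_nonneg_right (ha w h5) hS)) h0
  refine (Finset.sum_le_sum fun w _ => h1 w).trans ?_
  rw [← Finset.mul_sum]
  exact mul_le_mul_of_nonneg_left (A_tot hm b) hM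

theorem tf_high (hm : Gm G η) (a : T → T → ℝ) (b : T → ℝ) (β : T → ℝ) {Cη M σ t : ℝ}
    (hβ0 : ∀ w, 0 ≤ β w) (hβ : ∀ w, β w ≤ Cη * η w) (hM : ∀ w, ∑ x, η x * a w x ^ 2 ≤ M)
    (hσ : 0 < σ) (ht : ∀ x, η x ≠ 0 → ∑ w, β w * ((G w w).im * ‖G x w‖ ^ 4) ≤ t) :
    ∑ w, β w * ‖Tf G η w (a w) b‖ ^ 2 ≤ M * ((σ * Cη + t / σ) * (2 * Qf G η b b)) := by
  rcases isEmpty_or_nonempty T with hT | ⟨⟨w₀⟩⟩
  · simp [Qf]
  have hM0 : 0 ≤ M := (Finset.sum_nonneg fun x _ => mul_nonneg (hm.eta0 x) (sq_nonneg _)).trans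
    (hM w₀)
  -- the pointwise bound
  have h1 : ∀ w, ‖Tf G η w (a w) b‖ ^ 2 ≤ M * ∑ x, η x * (‖G x w‖ ^ 2 * ‖Ax G η b x w‖ ^ 2) := by
    intro w
    have h3 : Tf G η w (a w) b = ∑ x, ((η x : ℝ) : ℂ) *
        (((a w x : ℝ) : ℂ) * (G x w * Ax G η b x w)) := by
      rw [tf_rep hm w (a w) b 0]
      refine Finset.sum_congr rfl fun x _ => ?_
      push_cast
      ring
    have h4 := wcs Finset.univ η hm.eta0 (fun x => ((a w x : ℝ) : ℂ))
      (fun x => G x w * Ax G η b x w)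
    rw [← h3] at h4
    have h5 : ∑ x, η x * ‖((a w x : ℝ) : ℂ)‖ ^ 2 = ∑ x, η x * a w x ^ 2 := by
      refine Finset.sum_congr rfl fun x _ => ?_
      rw [Complex.norm_real, Real.norm_eq_abs, sq_abs]
    have h6 : ∑ x, η x * ‖G x w * Ax G η b x w‖ ^ 2 =
        ∑ x, η x * (‖G x w‖ ^ 2 * ‖Ax G η b x w‖ ^ 2) := by
      refine Finset.sum_congr rfl fun x _ => ?_
      rw [norm_mul, mul_pow]
    rw [h5, h6] at h4
    refine h4.trans (mul_le_mul_of_nonneg_right (hM w) ?_)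
    exact Finset.sum_nonneg fun x _ => mul_nonneg (hm.eta0 x) (by positivity)
  -- one row
  have h2 : ∀ x, η x * ∑ w, β w * (‖G x w‖ ^ 2 * ‖Ax G η b x w‖ ^ 2) ≤
      η x * ((σ * Cη + t / σ) * Gf G η x b b) := by
    intro x
    rcases eq_or_ne (η x) 0 with h0 | h0
    · rw [h0, zero_mul, zero_mul]
    refine mul_le_mul_of_nonneg_left ?_ (hm.eta0 x)
    have hE := gf_nonneg hm x b
    have hC : 0 ≤ Cη := by
      have h3 := (hβ0 x).trans (hβ x)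
      have h4 : 0 < η x := lt_of_le_of_ne (hm.eta0 x) (Ne.symm h0)
      by_contra hcon
      push Not at hcon
      nlinarith
    have h3 : ∀ w, β w * (‖G x w‖ ^ 2 * ‖Ax G η b x w‖ ^ 2) ≤
        σ * Cη * (η w * ‖Ax G η b x w‖ ^ 2) +
          Gf G η x b b / σ * (β w * ((G w w).im * ‖G x w‖ ^ 4)) := by
      intro w
      have hA := A_sq hm b x w
      have hA0 : 0 ≤ ‖Ax G η b x w‖ ^ 2 := by positivity
      have hg : ‖G x w‖ ^ 2 ≤ σ + ‖G x w‖ ^ 4 / σ := by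
        have h4 : ‖G x w‖ ^ 2 * σ ≤ (σ + ‖G x w‖ ^ 4 / σ) * σ := by
          rw [add_mul, div_mul_cancel₀ _ hσ.ne']
          nlinarith [sq_nonneg (σ - ‖G x w‖ ^ 2), sq_nonneg (‖G x w‖ ^ 2), sq_nonneg σ]
        exact le_of_mul_le_mul_right h4 hσ
      calc β w * (‖G x w‖ ^ 2 * ‖Ax G η b x w‖ ^ 2)
          ≤ β w * ((σ + ‖G x w‖ ^ 4 / σ) * ‖Ax G η b x w‖ ^ 2) :=
            mul_le_mul_of_nonneg_left (mul_le_mul_of_nonneg_right hg hA0) (hβ0 w)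
        _ = σ * (β w * ‖Ax G η b x w‖ ^ 2) +
            β w * ‖G x w‖ ^ 4 / σ * ‖Ax G η b x w‖ ^ 2 := by ring
        _ ≤ σ * (Cη * η w * ‖Ax G η b x w‖ ^ 2) +
            β w * ‖G x w‖ ^ 4 / σ * ((G w w).im * Gf G η x b b) := by
            refine add_le_add ?_ ?_
            · exact mul_le_mul_of_nonneg_left (mul_le_mul_of_nonneg_right (hβ w) hA0) hσ.le
            · refine mul_le_mul_of_nonneg_left hA ?_
              have := hβ0 w
              positivity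
        _ = _ := by ring
    calc ∑ w, β w * (‖G x w‖ ^ 2 * ‖Ax G η b x w‖ ^ 2)
        ≤ ∑ w, (σ * Cη * (η w * ‖Ax G η b x w‖ ^ 2) +
          Gf G η x b b / σ * (β w * ((G w w).im * ‖G x w‖ ^ 4))) :=
          Finset.sum_le_sum fun w _ => h3 w
      _ = σ * Cη * ∑ w, η w * ‖Ax G η b x w‖ ^ 2 +
          Gf G η x b b / σ * ∑ w, β w * ((G w w).im * ‖G x w‖ ^ 4) := by
          rw [Finset.sum_add_distrib, Finset.mul_sum, Finset.mul_sum]
      _ ≤ σ * Cη * Gf G η x b b + Gf G η x b b / σ * t :=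
          add_le_add (mul_le_mul_of_nonneg_left (A_sum hm b x) (mul_nonneg hσ.le hC))
            (mul_le_mul_of_nonneg_left (ht x h0) (div_nonneg hE hσ.le))
      _ = _ := by ring
  calc ∑ w, β w * ‖Tf G η w (a w) b‖ ^ 2
      ≤ ∑ w, β w * (M * ∑ x, η x * (‖G x w‖ ^ 2 * ‖Ax G η b x w‖ ^ 2)) :=
        Finset.sum_le_sum fun w _ => mul_le_mul_of_nonneg_left (h1 w) (hβ0 w)
    _ = M * ∑ x, η x * ∑ w, β w * (‖G x w‖ ^ 2 * ‖Ax G η b x w‖ ^ 2) := by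
        simp only [Finset.mul_sum]
        rw [Finset.sum_comm]
        refine Finset.sum_congr rfl fun x _ => ?_
        refine Finset.sum_congr rfl fun w _ => ?_
        ring
    _ ≤ M * ∑ x, η x * ((σ * Cη + t / σ) * Gf G η x b b) :=
        mul_le_mul_of_nonneg_left (Finset.sum_le_sum fun x _ => h2 x) hM0
    _ = M * ((σ * Cη + t / σ) * (2 * Qf G η b b)) := by
        have h3 : ∑ x, η x * ((σ * Cη + t / σ) * Gf G η x b b) =
            (σ * Cη + t / σ) * ∑ x, η x * Gf G η x b b := by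
          rw [Finset.mul_sum]
          refine Finset.sum_congr rfl fun x _ => ?_
          ring
        rw [h3, gf_sum hm]

end Pool.Agent.ANS.Form
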